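import Pool.Agent.H925Z.BlkDefs

/-!
Basic facts on block sequences.
-/

set_option autoImplicit false

namespace Pool.Agent.H925Z.Blk

variable {F : Type} [Field F]

def Lt (x y : ℕ →₀ F) : Prop := ∀ i ∈ x.support, ∀ j ∈ y.support, i < j

def Above (n : ℕ) (x : ℕ →₀ F) : Prop := ∀ j ∈ x.support, n < j

def mx (x : ℕ →₀ F) : ℕ := x.support.sup id

noncomputable def mn (x : ℕ →₀ F) : ℕ := sInf {i | i ∈ x.support}

theorem le_mx {x : ℕ →₀ F} {i : ℕ} (h : i ∈ x.support) : i ≤ mx x :=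
  Finset.le_sup (f := id) h

theorem mx_mem {x : ℕ →₀ F} (h : x ≠ 0) : mx x ∈ x.support := by
  obtain ⟨i, hi, he⟩ := Finset.exists_mem_eq_sup x.support (Finsupp.support_nonempty_iff.2 h) id
  unfold mx
  rw [he]; exact hi

theorem mn_le {x : ℕ →₀ F} {i : ℕ} (h : i ∈ x.support) : mn x ≤ i :=
  Nat.sInf_le h

theorem mn_mem {x : ℕ →₀ F} (h : x ≠ 0) : mn x ∈ x.support := by
  obtain ⟨i, hi⟩ := Finsupp.support_nonempty_iff.2 h
  exact Nat.sInf_mem (s := {i | i ∈ x.support}) ⟨i, hi⟩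

theorem Above.mono {m n : ℕ} {x : ℕ →₀ F} (h : Above n x) (hmn : m ≤ n) : Above m x :=
  fun j hj => lt_of_le_of_lt hmn (h j hj)

theorem Above.of_sub {n : ℕ} {x y : ℕ →₀ F} (h : Above n x) (hy : y.support ⊆ x.support) :
    Above n y := fun j hj => h j (hy hj)

theorem Above.of_lt {n : ℕ} {x y : ℕ →₀ F} (h : Above n x) (hx : x ≠ 0) (hxy : Lt x y) :
    Above n y := fun j hj => lt_trans (h _ (mx_mem hx)) (hxy _ (mx_mem hx) j hj)

theorem lt_of_above {x y : ℕ →₀ F} (h : Above (mx x) y) : Lt x y :=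
  fun _ hi j hj => lt_of_le_of_lt (le_mx hi) (h j hj)

theorem Lt.trans' {x y z : ℕ →₀ F} (h1 : Lt x y) (hy : y ≠ 0) (h2 : Lt y z) : Lt x z :=
  fun i hi j hj => lt_trans (h1 i hi _ (mx_mem hy)) (h2 _ (mx_mem hy) j hj)

theorem Lt.of_sub {x y x' y' : ℕ →₀ F} (h : Lt x y) (hx : x'.support ⊆ x.support)
    (hy : y'.support ⊆ y.support) : Lt x' y' := fun i hi j hj => h i (hx hi) j (hy hj)

theorem Lt.support_add {x y : ℕ →₀ F} (h : Lt x y) :
    (x + y).support = x.support ∪ y.support := by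
  classical
  have := Finsupp.support_add_eq (g₁ := x) (g₂ := y)
    (Finset.disjoint_left.2 fun i hi hj => lt_irrefl _ (h i hi i hj))
  convert this

theorem Lt.mem_add {x y : ℕ →₀ F} (h : Lt x y) {i : ℕ} :
    i ∈ (x + y).support ↔ i ∈ x.support ∨ i ∈ y.support := by
  rw [h.support_add, Finset.mem_union]

theorem Lt.add_ne_zero {x y : ℕ →₀ F} (h : Lt x y) (hx : x ≠ 0) : x + y ≠ 0 := by
  intro h0
  have := h.mem_add.2 (Or.inl (mx_mem hx))
  rw [h0] at this
  simp at this

theorem supp_smul {c : F} (hc : c ≠ 0) (x : ℕ →₀ F) : (c • x).support = x.support :=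
  Finsupp.support_smul_eq hc

theorem Lt.mx_add {x y : ℕ →₀ F} (h : Lt x y) (hy : y ≠ 0) : mx (x + y) = mx y := by
  apply le_antisymm
  · apply Finset.sup_le
    intro i hi
    rcases h.mem_add.1 hi with hi | hi
    · exact (h i hi _ (mx_mem hy)).le
    · exact le_mx hi
  · exact le_mx (h.mem_add.2 (Or.inr (mx_mem hy)))

theorem Lt.mn_add {x y : ℕ →₀ F} (h : Lt x y) (hx : x ≠ 0) : mn (x + y) = mn x := by
  apply le_antisymm
  · exact mn_le (h.mem_add.2 (Or.inl (mn_mem hx)))
  · rcases h.mem_add.1 (mn_mem (h.add_ne_zero hx)) with hi | hi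
    · exact mn_le hi
    · exact (h _ (mn_mem hx) _ hi).le

theorem mx_smul {c : F} (hc : c ≠ 0) (x : ℕ →₀ F) : mx (c • x) = mx x := by
  unfold mx; rw [supp_smul hc]

theorem mn_smul {c : F} (hc : c ≠ 0) (x : ℕ →₀ F) : mn (c • x) = mn x := by
  unfold mn; rw [supp_smul hc]

theorem IsBlock.lt {X : ℕ → (ℕ →₀ F)} (hX : IsBlock X) {m n : ℕ} (h : m < n) :
    Lt (X m) (X n) := by
  induction n with
  | zero => omega
  | succ n ih =>
    rcases Nat.lt_succ_iff_lt_or_eq.1 h with h | h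
    · exact (ih h).trans' (hX n).1 (hX n).2
    · subst h; exact (hX m).2

theorem IsBlock.le_of_mem {X : ℕ → (ℕ →₀ F)} (hX : IsBlock X) (n : ℕ) :
    ∀ j ∈ (X n).support, n ≤ j := by
  induction n with
  | zero => intro j _; omega
  | succ n ih =>
    intro j hj
    have h1 := ih _ (mx_mem (hX n).1)
    have h2 := (hX n).2 _ (mx_mem (hX n).1) j hj
    omega

theorem IsBlock.above {X : ℕ → (ℕ →₀ F)} (hX : IsBlock X) {N n : ℕ} (h : N < n) :
    Above N (X n) := fun j hj => lt_of_lt_of_le h (hX.le_of_mem n j hj)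

theorem IsBlock.above_add {X : ℕ → (ℕ →₀ F)} (hX : IsBlock X) {N k : ℕ} (h : Above N (X k))
    (n : ℕ) : Above N (X (n + k)) := by
  rcases Nat.eq_zero_or_pos n with rfl | hn
  · simpa using h
  · exact h.of_lt (hX k).1 (hX.lt (by omega))

theorem IsBlock.mem_sp {X : ℕ → (ℕ →₀ F)} (hX : IsBlock X) (n : ℕ) : X n ∈ Sp X :=
  ⟨Submodule.subset_span ⟨n, rfl⟩, (hX n).1⟩

theorem IsBlock.not_finite {X : ℕ → (ℕ →₀ F)} (hX : IsBlock X) :
    ¬ FiniteDimensional F (Submodule.span F (Set.range X)) := by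
  intro hfin
  have hfg : (Submodule.span F (Set.range X)).FG := Submodule.FG.of_finite
  obtain ⟨S, hS⟩ := hfg
  have hle : Submodule.span F (Set.range X) ≤
      Finsupp.supported F F {i | i ≤ S.sup mx} := by
    rw [← hS, Submodule.span_le]
    intro x hx
    rw [SetLike.mem_coe, Finsupp.mem_supported]
    intro i hi
    exact le_trans (le_mx hi) (Finset.le_sup (f := mx) hx)
  have h1 := hle (Submodule.subset_span ⟨S.sup mx + 1, rfl⟩)
  rw [Finsupp.mem_supported] at h1
  have h2 := h1 (mx_mem (hX (S.sup mx + 1)).1)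
  have h3 := hX.le_of_mem _ _ (mx_mem (hX (S.sup mx + 1)).1)
  simp only [Set.mem_ofPred_eq] at h2
  omega

theorem exists_bound {M : Type} [AddCommGroup M] [Module F M] (X : ℕ → M) {x : M}
    (hx : x ∈ Submodule.span F (Set.range X)) :
    ∃ N, x ∈ Submodule.span F (X '' {m | m < N}) := by
  have mono : ∀ {a b : ℕ}, a ≤ b →
      Submodule.span F (X '' {m | m < a}) ≤ Submodule.span F (X '' {m | m < b}) :=
    fun h => Submodule.span_mono (Set.image_mono fun m hm => lt_of_lt_of_le hm h)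
  induction hx using Submodule.span_induction with
  | mem x hx =>
    obtain ⟨n, rfl⟩ := hx
    exact ⟨n + 1, Submodule.subset_span ⟨n, Nat.lt_succ_self n, rfl⟩⟩
  | zero => exact ⟨0, Submodule.zero_mem _⟩
  | add x y _ _ hx hy =>
    obtain ⟨a, ha⟩ := hx
    obtain ⟨b, hb⟩ := hy
    exact ⟨max a b, Submodule.add_mem _ (mono (le_max_left _ _) ha) (mono (le_max_right _ _) hb)⟩
  | smul c x _ hx =>
    obtain ⟨a, ha⟩ := hx
    exact ⟨a, Submodule.smul_mem _ c ha⟩

theorem IsBlock.induction {X : ℕ → (ℕ →₀ F)} (hX : IsBlock X) (P : ℕ → (ℕ →₀ F) → Prop)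
    (h1 : ∀ n (c : F), c ≠ 0 → P n (c • X n))
    (h2 : ∀ m n u (c : F), m < n → c ≠ 0 → u ∈ Sp X → Lt u (X n) → P m u → P n (u + c • X n)) :
    ∀ x ∈ Sp X, ∃ n, P n x := by
  have key : ∀ N, ∀ x ∈ Submodule.span F (X '' {m | m < N}), x ≠ 0 → ∃ n, n < N ∧ P n x := by
    intro N
    induction N with
    | zero =>
      intro x hx h0
      simp at hx
      exact absurd hx h0
    | succ N ih =>
      intro x hx h0
      have he : X '' {m | m < N + 1} = insert (X N) (X '' {m | m < N}) := by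
        rw [← Set.image_insert_eq]
        congr 1
        ext m
        simp only [Set.mem_ofPred_eq, Set.mem_insert_iff]
        omega
      rw [he, Submodule.mem_span_insert] at hx
      obtain ⟨c, u, hu, rfl⟩ := hx
      by_cases hc : c = 0
      · subst hc
        rw [zero_smul, zero_add] at h0 ⊢
        obtain ⟨n, hn, hp⟩ := ih u hu h0
        exact ⟨n, by omega, hp⟩
      by_cases hu0 : u = 0
      · subst hu0
        rw [add_zero]
        exact ⟨N, by omega, h1 N c hc⟩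
      obtain ⟨m, hm, hp⟩ := ih u hu hu0
      refine ⟨N, by omega, ?_⟩
      rw [add_comm]
      refine h2 m N u c hm hc ⟨Submodule.span_mono (Set.image_subset_range _ _) hu, hu0⟩ ?_ hp
      have hle : Submodule.span F (X '' {m | m < N}) ≤
          Finsupp.supported F F {i | ∀ j ∈ (X N).support, i < j} := by
        rw [Submodule.span_le]
        rintro _ ⟨k, hk, rfl⟩
        rw [SetLike.mem_coe, Finsupp.mem_supported]
        intro i hi
        exact hX.lt hk i hi
      have := hle hu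
      rw [Finsupp.mem_supported] at this
      exact fun i hi => this hi
  intro x hx
  obtain ⟨N, hN⟩ := exists_bound X hx.1
  obtain ⟨n, _, hp⟩ := key N x hN hx.2
  exact ⟨n, hp⟩

/-- Vectors of the span supported far out lie in any subspace containing a tail. -/
theorem IsBlock.tail {X : ℕ → (ℕ →₀ F)} (hX : IsBlock X) (W : Submodule F (ℕ →₀ F)) (k : ℕ)
    (hk : ∀ n, k ≤ n → X n ∈ W) : ∃ M, ∀ x ∈ Sp X, Above M x → x ∈ W := by
  refine ⟨mx (X k), fun x hx => ?_⟩
  have hA : ∀ n, Above (mx (X k)) (X n) → X n ∈ W := by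
    intro n hn
    apply hk
    by_contra hlt
    have h1 := hX.lt (not_le.1 hlt) _ (mx_mem (hX n).1) _ (mx_mem (hX k).1)
    have h2 := hn _ (mx_mem (hX n).1)
    omega
  obtain ⟨_, h⟩ := hX.induction (fun _ x => Above (mx (X k)) x → x ∈ W) (by
      intro n c hc ha
      exact W.smul_mem c (hA n (ha.of_sub (by rw [supp_smul hc])))) (by
      intro m n u c _ hc _ hlt ih ha
      have hlt' : Lt u (c • X n) := hlt.of_sub subset_rfl (by rw [supp_smul hc])
      refine W.add_mem (ih (ha.of_sub ?_)) (W.smul_mem c (hA n (ha.of_sub ?_)))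
      · rw [hlt'.support_add]; exact Finset.subset_union_left
      · rw [hlt'.support_add, supp_smul hc]; exact Finset.subset_union_right) x hx
  exact h

/-- Choosing a sparse block sequence. -/
theorem exists_sparse (P : (ℕ →₀ F) → Prop) (hP : ∀ N, ∃ z, z ≠ 0 ∧ P z ∧ Above N z)
    (h : (ℕ →₀ F) → ℕ) :
    ∃ Y, IsBlock Y ∧ (∀ n, P (Y n)) ∧ ∀ m n, m < n → Above (h (Y m)) (Y n) := by
  choose f hf0 hfP hfA using hP
  let Y : ℕ → (ℕ →₀ F) := fun n => Nat.rec (f 0) (fun _ y => f (max (h y) (mx y))) n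
  have hs : ∀ n, Y (n + 1) = f (max (h (Y n)) (mx (Y n))) := fun n => rfl
  have hall : ∀ n, ∃ N, Y n = f N := by
    intro n
    cases n with
    | zero => exact ⟨0, rfl⟩
    | succ n => exact ⟨_, hs n⟩
  have hB : IsBlock Y := by
    intro n
    refine ⟨?_, ?_⟩
    · obtain ⟨N, hN⟩ := hall n
      rw [hN]; exact hf0 N
    · rw [hs]
      exact lt_of_above ((hfA _).mono (le_max_right _ _))
  refine ⟨Y, hB, fun n => ?_, fun m n hmn => ?_⟩
  · obtain ⟨N, hN⟩ := hall n
    rw [hN]; exact hfP N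
  · have h1 : Above (h (Y m)) (Y (m + 1)) := by
      rw [hs]; exact (hfA _).mono (le_max_left _ _)
    have := hB.above_add (N := h (Y m)) (k := m + 1) h1 (n - (m + 1))
    rwa [show n - (m + 1) + (m + 1) = n by omega] at this

theorem sp_subset {X Y : ℕ → (ℕ →₀ F)} (h : ∀ n, Y n ∈ Submodule.span F (Set.range X)) :
    Sp Y ⊆ Sp X := by
  intro x hx
  refine ⟨?_, hx.2⟩
  have : Submodule.span F (Set.range Y) ≤ Submodule.span F (Set.range X) := by
    rw [Submodule.span_le]
    rintro _ ⟨n, rfl⟩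
    exact h n
  exact this hx.1

/-- A set is dense as soon as it contains a block subspace of every block subspace in the filter. -/
theorem isDense_of {𝓕 : Filter (ℕ →₀ F)} {D : Set (ℕ →₀ F)}
    (h : ∀ X, IsBlock X → Sp X ∈ 𝓕 → ∃ Y, IsBlock Y ∧ Sp Y ⊆ Sp X ∧ Sp Y ⊆ D) :
    IsDense 𝓕 D := by
  intro X hX hXF
  obtain ⟨Y, hY, h1, h2⟩ := h X hX hXF
  exact ⟨_, hY.not_finite, h1, h2⟩

theorem above_mem {𝓕 : Filter (ℕ →₀ F)} (hf : IsFull 𝓕) (N : ℕ) : {x | Above N x} ∈ 𝓕 := by
  apply hf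
  apply isDense_of
  intro X hX _
  have hY : IsBlock (fun n => X (n + (N + 1))) := by
    intro n
    refine ⟨(hX _).1, ?_⟩
    exact hX.lt (by omega)
  refine ⟨_, hY, sp_subset fun n => Submodule.subset_span ⟨_, rfl⟩, fun x hx => ?_⟩
  have hle : Submodule.span F (Set.range fun n => X (n + (N + 1))) ≤
      Finsupp.supported F F {i | N < i} := by
    rw [Submodule.span_le]
    rintro _ ⟨n, rfl⟩
    rw [SetLike.mem_coe, Finsupp.mem_supported]
    intro i hi
    exact hX.above (by omega) i hi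
  have := hle hx.1
  rw [Finsupp.mem_supported] at this
  exact fun i hi => this hi

end Pool.Agent.H925Z.Blk
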