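import Pool.Agent.H925Z.Blk1

/-!
Greedy decomposition of a vector into consecutive pieces.
-/

set_option autoImplicit false

namespace Pool.Agent.H925Z.Blk

variable {F : Type} [Field F]

noncomputable def lo (p : ℕ) (x : ℕ →₀ F) : ℕ →₀ F := x.filter (fun i => i ≤ p)

noncomputable def hi (p : ℕ) (x : ℕ →₀ F) : ℕ →₀ F := x.filter (fun i => ¬ i ≤ p)

theorem lo_add_hi (p : ℕ) (x : ℕ →₀ F) : lo p x + hi p x = x :=
  Finsupp.filter_add_filter_not x _

theorem mem_lo {p i : ℕ} {x : ℕ →₀ F} : i ∈ (lo p x).support ↔ i ∈ x.support ∧ i ≤ p := by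
  unfold lo
  rw [Finsupp.support_filter, Finset.mem_filter]

theorem mem_hi {p i : ℕ} {x : ℕ →₀ F} : i ∈ (hi p x).support ↔ i ∈ x.support ∧ p < i := by
  unfold hi
  rw [Finsupp.support_filter, Finset.mem_filter, not_le]

theorem lo_add (p : ℕ) (x y : ℕ →₀ F) : lo p (x + y) = lo p x + lo p y :=
  Finsupp.filter_add

theorem hi_add (p : ℕ) (x y : ℕ →₀ F) : hi p (x + y) = hi p x + hi p y :=
  Finsupp.filter_add

theorem lo_smul (p : ℕ) (c : F) (x : ℕ →₀ F) : lo p (c • x) = c • lo p x :=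
  Finsupp.filter_smul

theorem hi_smul (p : ℕ) (c : F) (x : ℕ →₀ F) : hi p (c • x) = c • hi p x :=
  Finsupp.filter_smul

theorem lo_eq_zero {p : ℕ} {x : ℕ →₀ F} (h : Above p x) : lo p x = 0 := by
  rw [← Finsupp.support_eq_empty, Finset.eq_empty_iff_forall_notMem]
  intro i hi
  have := mem_lo.1 hi
  have := h i this.1
  omega

theorem hi_eq_self {p : ℕ} {x : ℕ →₀ F} (h : lo p x = 0) : hi p x = x := by
  have := lo_add_hi p x
  rwa [h, zero_add] at this

theorem hi_eq_zero {p : ℕ} {x : ℕ →₀ F} (h : mx x ≤ p) : hi p x = 0 := by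
  rw [← Finsupp.support_eq_empty, Finset.eq_empty_iff_forall_notMem]
  intro i hi
  have := mem_hi.1 hi
  have := le_mx this.1
  omega

theorem lo_eq_self {p : ℕ} {x : ℕ →₀ F} (h : mx x ≤ p) : lo p x = x := by
  have := lo_add_hi p x
  rwa [hi_eq_zero h, add_zero] at this

theorem lt_mx_of_hi {p : ℕ} {x : ℕ →₀ F} (h : hi p x ≠ 0) : p < mx x := by
  by_contra hp
  exact h (hi_eq_zero (not_lt.1 hp))

theorem card_hi_lt {p : ℕ} {x : ℕ →₀ F} (h : lo p x ≠ 0) :
    (hi p x).support.card < x.support.card := by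
  apply Finset.card_lt_card
  refine ⟨fun i hi => (mem_hi.1 hi).1, fun hs => ?_⟩
  have h1 := mem_lo.1 (mx_mem h)
  have h2 := mem_hi.1 (hs h1.1)
  omega

section
variable (W : Submodule F (ℕ →₀ F)) (H : (ℕ →₀ F) → ℕ)

/-- `x` may be cut after position `p`. -/
def Cut (x : ℕ →₀ F) (p : ℕ) : Prop :=
  lo p x ≠ 0 ∧ hi p x ≠ 0 ∧ lo p x ∈ W ∧ Above (H (lo p x)) (hi p x)

open Classical in
/-- The last piece of the greedy decomposition. -/
noncomputable def lastP (x : ℕ →₀ F) : ℕ →₀ F :=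
  if h : ∃ p, Cut W H x p then lastP (hi (Nat.find h) x) else x
termination_by x.support.card
decreasing_by exact card_hi_lt (Nat.find_spec h).1

variable {W H}

theorem lastP_of_cut {x : ℕ →₀ F} {p : ℕ} (hp : Cut W H x p) (hmin : ∀ q, q < p → ¬ Cut W H x q) :
    lastP W H x = lastP W H (hi p x) := by
  classical
  have h : ∃ p, Cut W H x p := ⟨p, hp⟩
  rw [lastP, dif_pos h]
  congr 2
  exact (Nat.find_eq_iff h).2 ⟨hp, hmin⟩

theorem lastP_of_nocut {x : ℕ →₀ F} (h : ¬ ∃ p, Cut W H x p) : lastP W H x = x := by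
  rw [lastP, dif_neg h]

theorem cut_induction (P : (ℕ →₀ F) → Prop) (h1 : ∀ x, (¬ ∃ p, Cut W H x p) → P x)
    (h2 : ∀ x p, Cut W H x p → (∀ q, q < p → ¬ Cut W H x q) → P (hi p x) → P x) (x : ℕ →₀ F) :
    P x := by
  classical
  induction hn : x.support.card using Nat.strong_induction_on generalizing x with
  | _ n ih =>
    by_cases h : ∃ p, Cut W H x p
    · refine h2 x _ (Nat.find_spec h) (fun q hq => Nat.find_min h hq) (ih _ ?_ _ rfl)
      rw [← hn]
      exact card_hi_lt (Nat.find_spec h).1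
    · exact h1 x h

theorem lastP_spec (x : ℕ →₀ F) : (¬ ∃ p, Cut W H (lastP W H x) p) ∧
    (lastP W H x).support ⊆ x.support ∧ (x ≠ 0 → lastP W H x ≠ 0) ∧
    (x ∈ W → lastP W H x ∈ W) := by
  induction x using cut_induction (W := W) (H := H) with
  | h1 x h =>
    rw [lastP_of_nocut h]
    exact ⟨h, subset_rfl, id, id⟩
  | h2 x p hp hmin ih =>
    rw [lastP_of_cut hp hmin]
    refine ⟨ih.1, fun i hi => (mem_hi.1 (ih.2.1 hi)).1, fun _ => ih.2.2.1 hp.2.1, fun hx => ?_⟩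
    apply ih.2.2.2
    have : hi p x = x - lo p x := by
      rw [eq_sub_iff_add_eq', lo_add_hi]
    rw [this]
    exact W.sub_mem hx hp.2.2.1

theorem cut_smul (hH : ∀ (c : F) z, c ≠ 0 → H (c • z) = H z) {c : F} (hc : c ≠ 0) {x : ℕ →₀ F}
    {p : ℕ} : Cut W H (c • x) p ↔ Cut W H x p := by
  unfold Cut
  rw [lo_smul, hi_smul, hH c _ hc, W.smul_mem_iff hc, smul_ne_zero_iff, smul_ne_zero_iff]
  unfold Above
  rw [supp_smul hc]
  tauto

theorem lastP_smul (hH : ∀ (c : F) z, c ≠ 0 → H (c • z) = H z) {c : F} (hc : c ≠ 0)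
    (x : ℕ →₀ F) : lastP W H (c • x) = c • lastP W H x := by
  induction x using cut_induction (W := W) (H := H) with
  | h1 x h =>
    rw [lastP_of_nocut h, lastP_of_nocut]
    rintro ⟨p, hp⟩
    exact h ⟨p, (cut_smul hH hc).1 hp⟩
  | h2 x p hp hmin ih =>
    rw [lastP_of_cut hp hmin, lastP_of_cut ((cut_smul hH hc).2 hp)
      (fun q hq h => hmin q hq ((cut_smul hH hc).1 h)), hi_smul, ih]

theorem cut_add {u v : ℕ →₀ F} (huv : Lt u v) {p : ℕ} (hp : p < mx u) :
    Cut W H (u + v) p ↔ Cut W H u p := by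
  have hu : u ≠ 0 := by
    rintro rfl
    simp [mx] at hp
  have hv : Above p v := fun j hj => lt_trans hp (huv _ (mx_mem hu) j hj)
  have hm : mx u ∈ (hi p u).support := mem_hi.2 ⟨mx_mem hu, hp⟩
  have h0 : hi p u ≠ 0 := by
    intro h
    rw [h] at hm
    simp at hm
  have hlt : Lt (hi p u) v := huv.of_sub (fun i hi => (mem_hi.1 hi).1) subset_rfl
  unfold Cut
  rw [lo_add, hi_add, lo_eq_zero hv, add_zero, hi_eq_self (lo_eq_zero hv)]
  constructor
  · rintro ⟨h1, _, h3, h4⟩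
    exact ⟨h1, h0, h3, fun j hj => h4 j (hlt.mem_add.2 (Or.inl hj))⟩
  · rintro ⟨h1, _, h3, h4⟩
    refine ⟨h1, hlt.add_ne_zero h0, h3, fun j hj => ?_⟩
    rcases hlt.mem_add.1 hj with hj | hj
    · exact h4 j hj
    · exact h4.of_lt h0 hlt j hj

theorem lastP_add (u : ℕ →₀ F) {v : ℕ →₀ F} (huv : Lt u v) :
    lastP W H (u + v) = lastP W H (lastP W H u + v) := by
  induction u using cut_induction (W := W) (H := H) with
  | h1 x h => rw [lastP_of_nocut h]
  | h2 x p hp hmin ih =>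
    have hpx : p < mx x := lt_mx_of_hi hp.2.1
    have hx : x ≠ 0 := by
      rintro rfl
      simp [mx] at hpx
    have hv : Above p v := fun j hj => lt_trans hpx (huv _ (mx_mem hx) j hj)
    rw [lastP_of_cut hp hmin, lastP_of_cut ((cut_add huv hpx).2 hp)
      (fun q hq h => hmin q hq ((cut_add huv (lt_trans hq hpx)).1 h)), hi_add,
      hi_eq_self (lo_eq_zero hv)]
    exact ih (huv.of_sub (fun i hi => (mem_hi.1 hi).1) subset_rfl)

theorem lastP_good {u v : ℕ →₀ F} (huv : Lt u v) (hu : u ≠ 0) (huW : u ∈ W) (hv : v ≠ 0)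
    (hg : Above (H (lastP W H u)) v) : lastP W H (u + v) = lastP W H v := by
  obtain ⟨h1, h2, h3, h4⟩ := lastP_spec (W := W) (H := H) u
  rw [lastP_add u huv]
  set w := lastP W H u
  have hwv : Lt w v := huv.of_sub h2 subset_rfl
  have hv' : Above (mx w) v := fun j hj => hwv _ (mx_mem (h3 hu)) j hj
  have e1 : lo (mx w) (w + v) = w := by
    rw [lo_add, lo_eq_zero hv', add_zero, lo_eq_self le_rfl]
  have e2 : hi (mx w) (w + v) = v := by
    rw [hi_add, hi_eq_zero le_rfl, zero_add, hi_eq_self (lo_eq_zero hv')]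
  have hc : Cut W H (w + v) (mx w) := by
    unfold Cut
    rw [e1, e2]
    exact ⟨h3 hu, hv, h4 huW, hg⟩
  rw [lastP_of_cut hc (fun q hq h => h1 ⟨q, (cut_add hwv hq).1 h⟩), e2]

theorem lastP_bad {u v : ℕ →₀ F} (huv : Lt u v) (hg : ¬ Above (H (lastP W H u)) v)
    (hb : ∀ p, lo p v ≠ 0 → hi p v ≠ 0 → mx v ≤ H (lastP W H u + lo p v)) :
    lastP W H (u + v) = lastP W H u + v := by
  obtain ⟨h1, h2, -, -⟩ := lastP_spec (W := W) (H := H) u
  rw [lastP_add u huv]
  set w := lastP W H u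
  have hwv : Lt w v := huv.of_sub h2 subset_rfl
  apply lastP_of_nocut
  rintro ⟨p, hp⟩
  by_cases hpw : p < mx w
  · exact h1 ⟨p, (cut_add hwv hpw).1 hp⟩
  have hpw := not_lt.1 hpw
  unfold Cut at hp
  rw [lo_add, hi_add, lo_eq_self hpw, hi_eq_zero hpw, zero_add] at hp
  obtain ⟨-, p2, -, p4⟩ := hp
  by_cases h0 : lo p v = 0
  · rw [hi_eq_self h0, h0, add_zero] at p4
    exact hg p4
  · have a1 := hb p h0 p2
    have a2 := p4 _ (mx_mem p2)
    have a3 := le_mx (mem_hi.1 (mx_mem p2)).1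
    omega

/-- Refining a block sequence with good junctions into its pieces. -/
theorem exists_pieces {X : ℕ → (ℕ →₀ F)} (hX : ∀ n, X n ≠ 0 ∧ X n ∈ W)
    (hg : ∀ n, Above (H (lastP W H (X n))) (X (n + 1))) :
    ∃ Y : ℕ → (ℕ →₀ F), (∀ n, Y n ≠ 0 ∧ Y n ∈ W ∧ Above (H (Y n)) (Y (n + 1))) ∧
      ∀ n, X n ∈ Submodule.span F (Set.range Y) := by
  classical
  let nxt : ℕ × (ℕ →₀ F) → ℕ × (ℕ →₀ F) := fun s =>
    if h : ∃ p, Cut W H s.2 p then (s.1, hi (Nat.find h) s.2) else (s.1 + 1, X (s.1 + 1))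
  let fst : (ℕ →₀ F) → (ℕ →₀ F) := fun r =>
    if h : ∃ p, Cut W H r p then lo (Nat.find h) r else r
  let st : ℕ → ℕ × (ℕ →₀ F) := fun t => nxt^[t] (0, X 0)
  have hst : ∀ t, st (t + 1) = nxt (st t) := fun t => Function.iterate_succ_apply' _ _ _
  have hcut : ∀ (s : ℕ × (ℕ →₀ F)) p, Cut W H s.2 p → (∀ q, q < p → ¬ Cut W H s.2 q) →
      nxt s = (s.1, hi p s.2) ∧ fst s.2 = lo p s.2 := by
    intro s p hp hmin
    have h : ∃ p, Cut W H s.2 p := ⟨p, hp⟩
    have e : Nat.find h = p := (Nat.find_eq_iff h).2 ⟨hp, hmin⟩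
    simp only [nxt, fst, dif_pos h, e, and_self]
  have hno : ∀ (s : ℕ × (ℕ →₀ F)), (¬ ∃ p, Cut W H s.2 p) →
      nxt s = (s.1 + 1, X (s.1 + 1)) ∧ fst s.2 = s.2 := by
    intro s h
    simp only [nxt, fst, dif_neg h, and_self]
  have hcases : ∀ r : ℕ →₀ F, (¬ ∃ p, Cut W H r p) ∨
      ∃ p, Cut W H r p ∧ ∀ q, q < p → ¬ Cut W H r q := by
    intro r
    by_cases h : ∃ p, Cut W H r p
    · exact Or.inr ⟨_, Nat.find_spec h, fun q hq => Nat.find_min h hq⟩
    · exact Or.inl h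
  have hinv : ∀ t, (st t).2 ≠ 0 ∧ (st t).2 ∈ W ∧
      lastP W H (st t).2 = lastP W H (X (st t).1) := by
    intro t
    induction t with
    | zero => exact ⟨(hX 0).1, (hX 0).2, rfl⟩
    | succ t ih =>
      rw [hst]
      rcases hcases (st t).2 with h | ⟨p, hp, hmin⟩
      · rw [(hno _ h).1]
        exact ⟨(hX _).1, (hX _).2, rfl⟩
      · rw [(hcut _ p hp hmin).1]
        refine ⟨hp.2.1, ?_, ?_⟩
        · have : hi p (st t).2 = (st t).2 - lo p (st t).2 := by
            rw [eq_sub_iff_add_eq', lo_add_hi]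
          show hi p (st t).2 ∈ W
          rw [this]
          exact W.sub_mem ih.2.1 hp.2.2.1
        · show lastP W H (hi p (st t).2) = lastP W H (X (st t).1)
          rw [← ih.2.2, lastP_of_cut hp hmin]
  have hsub : ∀ r : ℕ →₀ F, (fst r).support ⊆ r.support := by
    intro r
    rcases hcases r with h | ⟨p, hp, hmin⟩
    · rw [(hno (0, r) h).2]
    · rw [(hcut (0, r) p hp hmin).2]
      exact fun i hi => (mem_lo.1 hi).1
  refine ⟨fun t => fst (st t).2, fun t => ?_, ?_⟩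
  · rcases hcases (st t).2 with h | ⟨p, hp, hmin⟩
    · simp only [(hno _ h).2]
      refine ⟨(hinv t).1, (hinv t).2.1, Above.of_sub ?_ (hsub _)⟩
      rw [hst, (hno _ h).1]
      have := hg (st t).1
      rwa [← (hinv t).2.2, lastP_of_nocut h] at this
    · simp only [(hcut _ p hp hmin).2]
      refine ⟨hp.1, hp.2.2.1, Above.of_sub ?_ (hsub _)⟩
      rw [hst, (hcut _ p hp hmin).1]
      exact hp.2.2.2
  · have key : ∀ r : ℕ →₀ F, ∀ t, (st t).2 = r →
        r ∈ Submodule.span F (Set.range fun t => fst (st t).2) ∧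
        ∃ t', st t' = ((st t).1 + 1, X ((st t).1 + 1)) := by
      intro r
      induction r using cut_induction (W := W) (H := H) with
      | h1 x h =>
        intro t ht
        subst ht
        refine ⟨Submodule.subset_span ⟨t, (hno _ h).2⟩, t + 1, ?_⟩
        rw [hst, (hno _ h).1]
      | h2 x p hp hmin ih =>
        intro t ht
        subst ht
        have e := (hst t).trans (hcut _ p hp hmin).1
        obtain ⟨i1, t', i2⟩ := ih (t + 1) (by rw [e])
        refine ⟨?_, t', ?_⟩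
        · rw [← lo_add_hi p (st t).2]
          exact Submodule.add_mem _ (Submodule.subset_span ⟨t, (hcut _ p hp hmin).2⟩) i1
        · rw [i2, e]
    have key2 : ∀ n, ∃ t, st t = (n, X n) := by
      intro n
      induction n with
      | zero => exact ⟨0, rfl⟩
      | succ n ih =>
        obtain ⟨t, ht⟩ := ih
        obtain ⟨t', ht'⟩ := (key _ t rfl).2
        rw [ht] at ht'
        exact ⟨t', ht'⟩
    intro n
    obtain ⟨t, ht⟩ := key2 n
    exact (key (X n) t (by rw [ht])).1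

end

end Pool.Agent.H925Z.Blk
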