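import Pool.Agent.H925Z.Blk2

/-!
In a full block filter there are block sequences whose gaps dominate any given function of the
previous vector.
-/

set_option autoImplicit false

namespace Pool.Agent.H925Z.Blk

variable {F : Type} [Field F]

noncomputable def nrm (z : ℕ →₀ F) : ℕ →₀ F := (z (mn z))⁻¹ • z

noncomputable def ratio (z : ℕ →₀ F) : F := (nrm z) (mx z)

theorem lead_ne {z : ℕ →₀ F} (h : z ≠ 0) : z (mn z) ≠ 0 := Finsupp.mem_support_iff.1 (mn_mem h)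

theorem nrm_smul {c : F} (hc : c ≠ 0) (z : ℕ →₀ F) : nrm (c • z) = nrm z := by
  unfold nrm
  rw [mn_smul hc, Finsupp.smul_apply, smul_eq_mul, smul_smul, mul_inv, mul_comm c⁻¹, mul_assoc,
    inv_mul_cancel₀ hc, mul_one]

theorem ratio_smul {c : F} (hc : c ≠ 0) (z : ℕ →₀ F) : ratio (c • z) = ratio z := by
  unfold ratio
  rw [nrm_smul hc, mx_smul hc]

theorem nrm_add {w v : ℕ →₀ F} (h : Lt w v) (hw : w ≠ 0) :
    nrm (w + v) = (w (mn w))⁻¹ • (w + v) := by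
  unfold nrm
  have : v (mn w) = 0 := by
    by_contra hv
    exact lt_irrefl _ (h _ (mn_mem hw) _ (Finsupp.mem_support_iff.2 hv))
  rw [h.mn_add hw, Finsupp.add_apply, this, add_zero]

theorem ratio_add {w v : ℕ →₀ F} (h : Lt w v) (hw : w ≠ 0) (hv : v ≠ 0) :
    ratio (w + v) = (w (mn w))⁻¹ * v (mx v) := by
  unfold ratio
  have : w (mx v) = 0 := by
    by_contra hw'
    exact lt_irrefl _ (h _ (Finsupp.mem_support_iff.2 hw') _ (mx_mem hv))
  rw [nrm_add h hw, h.mx_add hv, Finsupp.smul_apply, Finsupp.add_apply, this, zero_add,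
    smul_eq_mul]

theorem exists_split [Infinite F] : ∃ A : Set F, A.Infinite ∧ Aᶜ.Infinite := by
  let f := Infinite.natEmbedding F
  refine ⟨Set.range fun n => f (2 * n), Set.infinite_range_of_injective ?_, ?_⟩
  · intro a b h
    have := f.injective h
    omega
  · refine Set.Infinite.mono (s := Set.range fun n => f (2 * n + 1)) ?_
      (Set.infinite_range_of_injective ?_)
    · rintro _ ⟨n, rfl⟩ ⟨m, hm⟩
      have := f.injective hm
      omega
    · intro a b h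
      have := f.injective h
      omega

section
variable {𝓕 : Filter (ℕ →₀ F)} {W : Submodule F (ℕ →₀ F)} {H : (ℕ →₀ F) → ℕ}

/-- If infinitely many terms of `Z` have a last piece with ratio in `A`, a block subspace does. -/
theorem colour_sub (hH : ∀ (c : F) z, c ≠ 0 → H (c • z) = H z) (A : Set F)
    {Z : ℕ → (ℕ →₀ F)} (hZ : IsBlock Z) (hZW : Sp Z ⊆ (W : Set (ℕ →₀ F)))
    (hA : ∀ N, ∃ n, N < n ∧ ratio (lastP W H (Z n)) ∈ A) :
    ∃ Y, IsBlock Y ∧ Sp Y ⊆ Sp Z ∧ Sp Y ⊆ {x | ratio (lastP W H x) ∈ A} := by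
  obtain ⟨Y, hY, hP, hab⟩ := exists_sparse (fun z => z ∈ Sp Z ∧ ratio (lastP W H z) ∈ A) (by
    intro N
    obtain ⟨n, hn, ha⟩ := hA N
    exact ⟨Z n, (hZ n).1, ⟨hZ.mem_sp n, ha⟩, hZ.above hn⟩) (fun z => H (lastP W H z))
  have hYZ : Sp Y ⊆ Sp Z := sp_subset fun n => (hP n).1.1
  refine ⟨Y, hY, hYZ, fun x hx => ?_⟩
  obtain ⟨n, c, hc, he⟩ := hY.induction
    (fun n x => ∃ c : F, c ≠ 0 ∧ lastP W H x = c • lastP W H (Y n))
    (fun n c hc => ⟨c, hc, lastP_smul hH hc _⟩) (by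
      rintro m n u c hmn hc hu hlt ⟨d, hd, he⟩
      refine ⟨c, hc, ?_⟩
      rw [lastP_good (hlt.of_sub subset_rfl (by rw [supp_smul hc])) hu.2 (hZW (hYZ hu))
        (smul_ne_zero hc (hY n).1), lastP_smul hH hc]
      rw [he, hH d _ hd]
      exact (hab m n hmn).of_sub (by rw [supp_smul hc])) x hx
  show ratio (lastP W H x) ∈ A
  rw [he, ratio_smul hc]
  exact (hP n).2

theorem colour_mem (hb : HasBlockBase 𝓕) (hf : IsFull 𝓕) (hW : ((W : Set (ℕ →₀ F)) \ {0}) ∈ 𝓕)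
    (hH : ∀ (c : F) z, c ≠ 0 → H (c • z) = H z) (A : Set F) :
    {x | ratio (lastP W H x) ∈ A} ∈ 𝓕 ∨ {x | ratio (lastP W H x) ∈ Aᶜ} ∈ 𝓕 := by
  by_contra hcon
  rw [not_or] at hcon
  obtain ⟨h1, h2⟩ := hcon
  have h1' : ¬ ∀ X, IsBlock X → Sp X ∈ 𝓕 →
      ∃ Y, IsBlock Y ∧ Sp Y ⊆ Sp X ∧ Sp Y ⊆ {x | ratio (lastP W H x) ∈ A} :=
    fun h => h1 (hf _ (isDense_of h))
  have h2' : ¬ ∀ X, IsBlock X → Sp X ∈ 𝓕 →
      ∃ Y, IsBlock Y ∧ Sp Y ⊆ Sp X ∧ Sp Y ⊆ {x | ratio (lastP W H x) ∈ Aᶜ} :=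
    fun h => h2 (hf _ (isDense_of h))
  push Not at h1' h2'
  obtain ⟨X1, -, m1, n1⟩ := h1'
  obtain ⟨X2, -, m2, n2⟩ := h2'
  obtain ⟨Z, hZ, -, hsub⟩ := hb _ (Filter.inter_mem (Filter.inter_mem m1 m2) hW)
  have hZW : Sp Z ⊆ (W : Set (ℕ →₀ F)) := fun x hx => (hsub hx).2.1
  by_cases hA : ∀ N, ∃ n, N < n ∧ ratio (lastP W H (Z n)) ∈ A
  · obtain ⟨Y, hY, a, b⟩ := colour_sub hH A hZ hZW hA
    exact n1 Y hY (fun x hx => (hsub (a hx)).1.1) b
  · push Not at hA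
    obtain ⟨N, hN⟩ := hA
    obtain ⟨Y, hY, a, b⟩ := colour_sub hH Aᶜ hZ hZW (fun M =>
      ⟨max M N + 1, by omega, hN _ (by omega)⟩)
    exact n2 Y hY (fun x hx => (hsub (a hx)).1.2) b

theorem good_of_colour (hH : ∀ (c : F) z, c ≠ 0 → H (c • z) = H z)
    {code : (ℕ →₀ F) → ℕ} (hcode : Function.Injective code) (hc : ∀ z, code (nrm z) ≤ H z)
    {A : Set F} (hA : Aᶜ.Infinite) {u v : ℕ →₀ F} (huv : Lt u v) (hu : u ≠ 0) (hv : v ≠ 0)
    (hall : ∀ c : F, ratio (lastP W H (u + c • v)) ∈ A) : Above (H (lastP W H u)) v := by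
  by_contra hg
  obtain ⟨-, h2, h3, -⟩ := lastP_spec (W := W) (H := H) u
  set w := lastP W H u with hwdef
  have hw : w ≠ 0 := h3 hu
  have hwv : Lt w v := huv.of_sub h2 subset_rfl
  have hfin : ∀ p, {c : F | lo p v ≠ 0 ∧ code (nrm (w + c • lo p v)) ≤ mx v}.Finite := by
    intro p
    by_cases h0 : lo p v = 0
    · simp [h0]
    have hinj : Function.Injective fun c : F => code (nrm (w + c • lo p v)) := by
      intro a b hab
      have hlt : ∀ c : F, Lt w (c • lo p v) := fun c => hwv.of_sub subset_rfl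
        (fun i hi => (mem_lo.1 (Finsupp.support_smul hi)).1)
      have := hcode hab
      rw [nrm_add (hlt a) hw, nrm_add (hlt b) hw,
        smul_right_inj (inv_ne_zero (lead_ne hw)), add_right_inj] at this
      exact smul_left_injective F h0 this
    exact ((Set.finite_Iic (mx v)).preimage hinj.injOn).subset fun c hc => hc.2
  let B : Set F := {0} ∪ ⋃ p ∈ Set.Iic (mx v),
    {c : F | lo p v ≠ 0 ∧ code (nrm (w + c • lo p v)) ≤ mx v}
  have hB : B.Finite := (Set.finite_singleton _).union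
    ((Set.finite_Iic _).biUnion fun p _ => hfin p)
  have hk : (w (mn w))⁻¹ * v (mx v) ≠ 0 :=
    mul_ne_zero (inv_ne_zero (lead_ne hw)) (Finsupp.mem_support_iff.1 (mx_mem hv))
  apply hA
  refine (hB.image fun c => c * ((w (mn w))⁻¹ * v (mx v))).subset fun a ha => ?_
  refine ⟨a / ((w (mn w))⁻¹ * v (mx v)), ?_, div_mul_cancel₀ a hk⟩
  set c := a / ((w (mn w))⁻¹ * v (mx v)) with hcdef
  by_contra hcB
  have hc0 : c ≠ 0 := fun h => hcB (Or.inl h)
  have hlt : Lt u (c • v) := huv.of_sub subset_rfl (by rw [supp_smul hc0])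
  have hlt' : Lt w (c • v) := hwv.of_sub subset_rfl (by rw [supp_smul hc0])
  have e : lastP W H (u + c • v) = w + c • v := by
    apply lastP_bad hlt
    · intro h
      exact hg (h.of_sub (by rw [supp_smul hc0]))
    · intro p p1 p2
      rw [lo_smul] at p1 ⊢
      rw [hi_smul] at p2
      rw [mx_smul hc0]
      by_contra hle
      apply hcB
      right
      have p2' : hi p v ≠ 0 := (smul_ne_zero_iff.1 p2).2
      simp only [Set.mem_iUnion]
      refine ⟨p, (lt_mx_of_hi p2').le, (smul_ne_zero_iff.1 p1).2, ?_⟩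
      exact le_trans (hc _) (not_le.1 hle).le
  have := hall c
  rw [e, ratio_add hlt' hw (smul_ne_zero hc0 hv), mx_smul hc0, Finsupp.smul_apply, smul_eq_mul,
    mul_left_comm, hcdef, div_mul_cancel₀ a hk] at this
  exact ha this

theorem sp_mem_of_span {X Y : ℕ → (ℕ →₀ F)} (hX : Sp X ∈ 𝓕)
    (h : ∀ n, X n ∈ Submodule.span F (Set.range Y)) : Sp Y ∈ 𝓕 :=
  Filter.mem_of_superset hX (sp_subset h)

theorem gaps_infinite [Countable F] [Infinite F] (hb : HasBlockBase 𝓕) (hf : IsFull 𝓕)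
    (hW : ((W : Set (ℕ →₀ F)) \ {0}) ∈ 𝓕) (h : (ℕ →₀ F) → ℕ) :
    ∃ Y, IsBlock Y ∧ Sp Y ∈ 𝓕 ∧ ∀ n, Y n ∈ W ∧ Above (h (Y n)) (Y (n + 1)) := by
  obtain ⟨code, hcode⟩ := exists_injective_nat (ℕ →₀ F)
  let H : (ℕ →₀ F) → ℕ := fun z => max (max (h (nrm z)) (code (nrm z))) (mx z)
  have hH : ∀ (c : F) z, c ≠ 0 → H (c • z) = H z := by
    intro c z hc
    simp only [H, nrm_smul hc, mx_smul hc]
  have hc : ∀ z, code (nrm z) ≤ H z := fun z => le_trans (le_max_right _ _) (le_max_left _ _)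
  have key : ∃ A : Set F, Aᶜ.Infinite ∧ {x | ratio (lastP W H x) ∈ A} ∈ 𝓕 := by
    obtain ⟨A, a1, a2⟩ := exists_split (F := F)
    rcases colour_mem hb hf hW hH A with h1 | h1
    · exact ⟨A, a2, h1⟩
    · exact ⟨Aᶜ, by rwa [compl_compl], h1⟩
  obtain ⟨A, hA, hD⟩ := key
  obtain ⟨X, hX, hXF, hsub⟩ := hb _ (Filter.inter_mem hD hW)
  have hg : ∀ n, Above (H (lastP W H (X n))) (X (n + 1)) := by
    intro n
    refine good_of_colour hH hcode hc hA (hX n).2 (hX n).1 (hX (n + 1)).1 fun c => ?_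
    refine (hsub ⟨Submodule.add_mem _ (hX.mem_sp n).1
      (Submodule.smul_mem _ c (hX.mem_sp (n + 1)).1), ?_⟩).1
    exact Lt.add_ne_zero (Lt.of_sub (hX n).2 subset_rfl Finsupp.support_smul) (hX n).1
  obtain ⟨Y, hY, hXY⟩ := exists_pieces (W := W) (H := H)
    (fun n => ⟨(hX n).1, (hsub (hX.mem_sp n)).2.1⟩) hg
  have hn : ∀ n, (nrm (Y n)).support = (Y n).support :=
    fun n => supp_smul (inv_ne_zero (lead_ne (hY n).1)) _
  refine ⟨fun n => nrm (Y n), fun n => ⟨?_, ?_⟩, ?_, fun n => ⟨?_, ?_⟩⟩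
  · exact smul_ne_zero (inv_ne_zero (lead_ne (hY n).1)) (hY n).1
  · simp only [hn]
    exact lt_of_above ((hY n).2.2.mono (le_max_right _ _))
  · refine sp_mem_of_span (sp_mem_of_span hXF hXY) fun n => ?_
    have : Y n = (Y n (mn (Y n))) • nrm (Y n) := by
      unfold nrm
      rw [smul_smul, mul_inv_cancel₀ (lead_ne (hY n).1), one_smul]
    rw [this]
    exact Submodule.smul_mem _ _ (Submodule.subset_span ⟨n, rfl⟩)
  · exact W.smul_mem _ (hY n).2.1
  · refine Above.of_sub ((hY n).2.2.mono ?_) (by rw [hn])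
    exact le_trans (le_max_left _ _) (le_max_left _ _)

end

end Pool.Agent.H925Z.Blk
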