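import Pool.Agent.H925Z.Blk3

/-!
Every `(p⁺)`-filter is a strong `(p⁺)`-filter and is strategic.
-/

set_option autoImplicit false

namespace Pool.Agent.H925Z.Blk

variable {F : Type} [Field F]

open Classical in
/-- The number of large gaps inside the support. -/
noncomputable def gapSet (g : ℕ → ℕ) (x : ℕ →₀ F) : Finset ℕ :=
  x.support.filter fun p => p ≠ mx x ∧ ∀ q ∈ x.support, p < q → g p < q

theorem gapSet_smul (g : ℕ → ℕ) {c : F} (hc : c ≠ 0) (x : ℕ →₀ F) :
    gapSet g (c • x) = gapSet g x := by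
  unfold gapSet
  rw [supp_smul hc, mx_smul hc]

open Classical in
theorem gapSet_add (g : ℕ → ℕ) {u v : ℕ →₀ F} (h : Lt u v) (hu : u ≠ 0) (hv : v ≠ 0) :
    (gapSet g (u + v)).card =
      (gapSet g u).card + (gapSet g v).card + if Above (g (mx u)) v then 1 else 0 := by
  have hm := h _ (mx_mem hu) _ (mx_mem hv)
  have e : gapSet g (u + v) = (gapSet g u ∪ gapSet g v) ∪
      (if Above (g (mx u)) v then {mx u} else ∅) := by
    ext p
    simp only [gapSet, Finset.mem_union, Finset.mem_filter, h.mem_add, h.mx_add hv]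
    constructor
    · rintro ⟨hp | hp, h1, h2⟩
      · by_cases hpu : p = mx u
        · right
          subst hpu
          have ha : Above (g (mx u)) v := fun j hj => h2 j (Or.inr hj) (h _ hp j hj)
          rw [if_pos ha]
          simp
        · exact Or.inl (Or.inl ⟨hp, hpu, fun q hq => h2 q (Or.inl hq)⟩)
      · exact Or.inl (Or.inr ⟨hp, h1, fun q hq => h2 q (Or.inr hq)⟩)
    · rintro ((⟨hp, h1, h2⟩ | ⟨hp, h1, h2⟩) | hp)
      · have := le_mx hp
        refine ⟨Or.inl hp, by omega, ?_⟩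
        rintro q (hq | hq) hpq
        · exact h2 q hq hpq
        · exact lt_trans (h2 _ (mx_mem hu) (by omega)) (h _ (mx_mem hu) q hq)
      · refine ⟨Or.inr hp, h1, ?_⟩
        rintro q (hq | hq) hpq
        · have := h q hq p hp
          omega
        · exact h2 q hq hpq
      · split_ifs at hp with ha
        · rw [Finset.mem_singleton] at hp
          subst hp
          refine ⟨Or.inl (mx_mem hu), by omega, ?_⟩
          rintro q (hq | hq) hpq
          · have := le_mx hq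
            omega
          · exact ha q hq
        · simp at hp
  rw [e, Finset.card_union_of_disjoint, Finset.card_union_of_disjoint]
  · split_ifs <;> simp
  · rw [Finset.disjoint_left]
    intro p h1 h2
    exact lt_irrefl _ (h p (Finset.mem_filter.1 h1).1 p (Finset.mem_filter.1 h2).1)
  · rw [Finset.disjoint_left]
    intro p h1 h2
    split_ifs at h2
    · rw [Finset.mem_singleton] at h2
      subst h2
      rcases Finset.mem_union.1 h1 with h1 | h1
      · exact (Finset.mem_filter.1 h1).2.1 rfl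
      · exact lt_irrefl _ (h _ (mx_mem hu) _ (Finset.mem_filter.1 h1).1)
    · simp at h2

section
variable {𝓕 : Filter (ℕ →₀ F)} {W : Submodule F (ℕ →₀ F)}

theorem spread (hb : HasBlockBase 𝓕) (hf : IsFull 𝓕)
    (hW : ((W : Set (ℕ →₀ F)) \ {0}) ∈ 𝓕) (g : ℕ → ℕ) :
    ∃ Y, IsBlock Y ∧ Sp Y ∈ 𝓕 ∧ ∀ n, Y n ∈ W ∧ Above (g (mx (Y n))) (Y (n + 1)) := by
  have hD : {x : ℕ →₀ F | (gapSet g x).card % 2 = 1} ∈ 𝓕 := by
    apply hf
    apply isDense_of
    intro Z hZ _
    obtain ⟨Y, hY, hP, hab⟩ := exists_sparse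
      (fun z => z ∈ Sp Z ∧ (gapSet g z).card % 2 = 1) (by
        intro N
        by_cases h1 : (gapSet g (Z (N + 1))).card % 2 = 1
        · exact ⟨_, (hZ _).1, ⟨hZ.mem_sp _, h1⟩, hZ.above (by omega)⟩
        let m := max (N + 1) (g (mx (Z (N + 1)))) + 1
        by_cases h2 : (gapSet g (Z m)).card % 2 = 1
        · exact ⟨_, (hZ _).1, ⟨hZ.mem_sp _, h2⟩, hZ.above (by omega)⟩
        have hlt : Lt (Z (N + 1)) (Z m) := hZ.lt (by omega)
        refine ⟨Z (N + 1) + Z m, hlt.add_ne_zero (hZ _).1, ⟨⟨Submodule.add_mem _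
          (hZ.mem_sp _).1 (hZ.mem_sp _).1, hlt.add_ne_zero (hZ _).1⟩, ?_⟩, ?_⟩
        · rw [gapSet_add g hlt (hZ _).1 (hZ _).1, if_pos (hZ.above (by omega))]
          omega
        · intro j hj
          rcases hlt.mem_add.1 hj with hj | hj
          · exact hZ.above (by omega) j hj
          · exact hZ.above (by omega) j hj) (fun z => g (mx z))
    refine ⟨Y, hY, sp_subset fun n => (hP n).1.1, fun x hx => ?_⟩
    obtain ⟨n, -, he⟩ := hY.induction
      (fun n x => mx x = mx (Y n) ∧ (gapSet g x).card % 2 = 1)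
      (fun n c hc => ⟨mx_smul hc _, by rw [gapSet_smul g hc]; exact (hP n).2⟩) (by
        rintro m n u c hmn hc hu hlt ⟨e1, e2⟩
        have hlt' : Lt u (c • Y n) := hlt.of_sub subset_rfl (by rw [supp_smul hc])
        have h0 : c • Y n ≠ 0 := smul_ne_zero hc (hY n).1
        refine ⟨by rw [hlt'.mx_add h0, mx_smul hc], ?_⟩
        rw [gapSet_add g hlt' hu.2 h0, gapSet_smul g hc, if_pos]
        · have := (hP n).2
          omega
        · rw [e1]
          exact (hab m n hmn).of_sub (by rw [supp_smul hc])) x hx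
    exact he
  obtain ⟨X, hX, hXF, hsub⟩ := hb _ (Filter.inter_mem hD hW)
  refine ⟨X, hX, hXF, fun n => ⟨(hsub (hX.mem_sp n)).2.1, ?_⟩⟩
  have hlt : Lt (X n) (X (n + 1)) := (hX n).2
  have a1 : (gapSet g (X n)).card % 2 = 1 := (hsub (hX.mem_sp n)).1
  have a2 : (gapSet g (X (n + 1))).card % 2 = 1 := (hsub (hX.mem_sp (n + 1))).1
  have a3 : (gapSet g (X n + X (n + 1))).card % 2 = 1 :=
    (hsub ⟨Submodule.add_mem _ (hX.mem_sp _).1 (hX.mem_sp _).1, hlt.add_ne_zero (hX n).1⟩).1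
  rw [gapSet_add g hlt (hX _).1 (hX _).1] at a3
  by_contra hcon
  rw [if_neg hcon] at a3
  omega

theorem gaps [Countable F] (hb : HasBlockBase 𝓕) (hf : IsFull 𝓕)
    (hW : ((W : Set (ℕ →₀ F)) \ {0}) ∈ 𝓕) (h : (ℕ →₀ F) → ℕ) :
    ∃ Y, IsBlock Y ∧ Sp Y ∈ 𝓕 ∧ ∀ n, Y n ∈ W ∧ Above (h (Y n)) (Y (n + 1)) := by
  rcases finite_or_infinite F with hF | hF
  · have hfin : ∀ p, {z : ℕ →₀ F | mx z ≤ p}.Finite := by
      intro p
      refine Set.Finite.of_finite_image (f := fun z => fun i : Fin (p + 1) => z i)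
        (Set.toFinite _) ?_
      intro a ha b hb hab
      ext i
      by_cases hi : i ≤ p
      · exact congrFun hab ⟨i, by omega⟩
      · have h1 : a i = 0 := by
          by_contra h0
          have := le_mx (Finsupp.mem_support_iff.2 h0)
          exact hi (le_trans this ha)
        have h2 : b i = 0 := by
          by_contra h0
          have := le_mx (Finsupp.mem_support_iff.2 h0)
          exact hi (le_trans this hb)
        rw [h1, h2]
    have hg : ∀ p, ∃ M, ∀ z : ℕ →₀ F, mx z ≤ p → h z ≤ M := by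
      intro p
      obtain ⟨M, hM⟩ := ((hfin p).image h).bddAbove
      exact ⟨M, fun z hz => hM ⟨z, hz, rfl⟩⟩
    choose g hg using hg
    obtain ⟨Y, h1, h2, h3⟩ := spread hb hf hW g
    exact ⟨Y, h1, h2, fun n => ⟨(h3 n).1, (h3 n).2.mono (hg _ _ le_rfl)⟩⟩
  · exact gaps_infinite hb hf hW h

/-- The strong `(p)`-property. -/
theorem strong [Countable F] (hb : HasBlockBase 𝓕) (hf : IsFull 𝓕)
    (hp : ∀ Xs : ℕ → ℕ → (ℕ →₀ F), (∀ m, IsBlock (Xs m) ∧ Sp (Xs m) ∈ 𝓕) →
      ∃ X, IsBlock X ∧ Sp X ∈ 𝓕 ∧ ∀ m, ∃ k, ∀ n, k ≤ n →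
        X n ∈ Submodule.span F (Set.range (Xs m)))
    (Z : List (ℕ →₀ F) → ℕ → (ℕ →₀ F)) (hZ : ∀ l, IsBlock (Z l) ∧ Sp (Z l) ∈ 𝓕) :
    ∃ Y, IsBlock Y ∧ Sp Y ∈ 𝓕 ∧ ∀ k n, Y (n + k) ∈
      Submodule.span F (Set.range (Z (List.ofFn fun i : Fin k => Y i.val))) := by
  obtain ⟨e, he⟩ := exists_surjective_nat (List (ℕ →₀ F))
  choose cd hcd using he
  obtain ⟨X, hX, hXF, htail⟩ := hp (fun m => Z (e m)) (fun m => hZ _)
  have hM : ∀ l, ∃ M, ∀ x ∈ Sp X, Above M x → x ∈ Submodule.span F (Set.range (Z l)) := by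
    intro l
    obtain ⟨k, hk⟩ := htail (cd l)
    simp only [hcd] at hk
    exact hX.tail _ k hk
  choose M hM using hM
  let G : List (ℕ →₀ F) → ℕ := fun l => max (M l) (cd l)
  let W : Submodule F (ℕ →₀ F) :=
    Submodule.span F (Set.range X) ⊓ Finsupp.supported F F {i | G [] < i}
  have hW : ((W : Set (ℕ →₀ F)) \ {0}) ∈ 𝓕 := by
    refine Filter.mem_of_superset (Filter.inter_mem hXF (above_mem hf (G []))) fun x hx => ?_
    refine ⟨Submodule.mem_inf.2 ⟨hx.1.1, ?_⟩, hx.1.2⟩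
    rw [Finsupp.mem_supported]
    exact fun i hi => hx.2 i hi
  obtain ⟨Y, hY, hYF, hg⟩ := gaps hb hf hW
    (fun y => (Finset.range (mx y + 1)).sup fun i => G (e i ++ [y]))
  have key : ∀ k, Above (G (List.ofFn fun i : Fin k => Y i.val)) (Y k) := by
    intro k
    induction k with
    | zero =>
      have := (Submodule.mem_inf.1 (hg 0).1).2
      rw [Finsupp.mem_supported] at this
      exact fun i hi => this hi
    | succ k ih =>
      refine (hg k).2.mono ?_
      have h1 : cd (List.ofFn fun i : Fin k => Y i.val) ∈ Finset.range (mx (Y k) + 1) := by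
        have := ih _ (mx_mem (hY k).1)
        rw [Finset.mem_range]
        have := le_max_right (M (List.ofFn fun i : Fin k => Y i.val))
          (cd (List.ofFn fun i : Fin k => Y i.val))
        simp only [G] at *
        omega
      refine le_trans (le_of_eq ?_) (Finset.le_sup (f := fun i => G (e i ++ [Y k])) h1)
      rw [hcd, List.ofFn_succ_last]
      simp
  refine ⟨Y, hY, hYF, fun k n => hM _ _ ⟨(Submodule.mem_inf.1 (hg _).1).1, (hY _).1⟩ ?_⟩
  exact hY.above_add ((key k).mono (le_max_left _ _)) n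

/-- Strategic filters. -/
theorem strategic [Countable F] (hb : HasBlockBase 𝓕) (hf : IsFull 𝓕) (hp : IsP 𝓕) :
    IsStrategic 𝓕 := by
  classical
  intro X hX hXF α hα
  have hcongr : ∀ (Y Y' : ℕ → ℕ → (ℕ →₀ F)) (j : ℕ), (∀ i, i ≤ j → Y i = Y' i) →
      outcome α Y j = outcome α Y' j := by
    intro Y Y' j h
    unfold outcome
    congr 2
    funext i
    exact h i (by omega)
  -- positions: an infinite legal play of I, of which the first `n` moves have been made
  let Ext : (ℕ → ℕ → (ℕ →₀ F)) × ℕ → (ℕ →₀ F) → (ℕ → ℕ → (ℕ →₀ F)) × ℕ → Prop :=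
    fun p x q => LegalI X q.1 ∧ p.2 < q.2 ∧ (∀ i, i < p.2 → q.1 i = p.1 i) ∧
      x ∈ Submodule.span F (outcome α q.1 '' {j | j < q.2})
  have hS : ∀ p : (ℕ → ℕ → (ℕ →₀ F)) × ℕ, LegalI X p.1 → {x | ∃ q, Ext p x q} ∈ 𝓕 := by
    intro p hpl
    apply hf
    apply isDense_of
    intro Z _ hZF
    obtain ⟨Z', hZ', -, hsub⟩ := hb _ (Filter.inter_mem hZF hXF)
    let Y : ℕ → ℕ → (ℕ →₀ F) := fun i => if i < p.2 then p.1 i else Z'
    have hYl : LegalI X Y := by
      intro k
      simp only [Y]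
      split_ifs
      · exact hpl k
      · exact ⟨hZ', fun x hx => (hsub hx).2⟩
    obtain ⟨o1, o2⟩ := hα Y hYl
    refine ⟨fun n => outcome α Y (n + p.2), fun n => ⟨(o1 _).1, o1.lt (by omega)⟩, ?_, ?_⟩
    · refine sp_subset fun n => ?_
      have := o2 (n + p.2)
      simp only [Y, if_neg (show ¬ n + p.2 < p.2 by omega)] at this
      exact (hsub this).1.1
    · intro x hx
      have hx' : x ∈ Submodule.span F (Set.range (outcome α Y)) :=
        Submodule.span_mono (by rintro _ ⟨n, rfl⟩; exact ⟨_, rfl⟩) hx.1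
      obtain ⟨N, hN⟩ := exists_bound _ hx'
      refine ⟨(Y, max N p.2 + 1), hYl, by simp only; omega, fun i hi => if_pos hi, ?_⟩
      refine Submodule.span_mono (Set.image_mono fun j hj => ?_) hN
      simp only [Set.mem_ofPred_eq] at hj ⊢
      omega
  have hB : ∀ p : (ℕ → ℕ → (ℕ →₀ F)) × ℕ, ∃ B, (IsBlock B ∧ Sp B ∈ 𝓕) ∧
      (LegalI X p.1 → Sp B ⊆ {x | ∃ q, Ext p x q}) := by
    intro p
    by_cases hpl : LegalI X p.1
    · obtain ⟨B, b1, b2, b3⟩ := hb _ (hS p hpl)
      exact ⟨B, ⟨b1, b2⟩, fun _ => b3⟩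
    · exact ⟨X, ⟨hX, hXF⟩, fun h => absurd h hpl⟩
  choose B hB1 hB2 using hB
  have hstep : ∀ p x, ∃ q, (∃ q, Ext p x q) → Ext p x q := by
    intro p x
    by_cases h : ∃ q, Ext p x q
    · obtain ⟨q, hq⟩ := h
      exact ⟨q, fun _ => hq⟩
    · exact ⟨p, fun h' => absurd h' h⟩
  choose step hstep using hstep
  let P : List (ℕ →₀ F) → (ℕ → ℕ → (ℕ →₀ F)) × ℕ := fun l => l.foldl step (fun _ => X, 0)
  obtain ⟨W, hW, hWF, hWB⟩ := strong hb hf (by
    intro Xs hXs
    obtain ⟨X', a1, a2, a3⟩ := hp Xs hXs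
    refine ⟨X', a1, a2, fun m => ?_⟩
    obtain ⟨k, hk⟩ := (a3 m).bddAbove
    refine ⟨k + 1, fun n hn => ?_⟩
    by_contra hcon
    have := hk (show n ∈ {n | X' n ∉ Sp (Xs m)} from fun h => hcon h.1)
    omega) (fun l => B (P l)) (fun l => hB1 _)
  let pos : ℕ → (ℕ → ℕ → (ℕ →₀ F)) × ℕ := fun k => P (List.ofFn fun i : Fin k => W i.val)
  have hpos : ∀ k, pos (k + 1) = step (pos k) (W k) := by
    intro k
    simp only [pos, P]
    rw [List.ofFn_succ_last]
    simp
  have hstep' : ∀ k, LegalI X (pos k).1 → Ext (pos k) (W k) (pos (k + 1)) := by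
    intro k hk
    rw [hpos]
    apply hstep
    refine hB2 _ hk ⟨?_, (hW k).1⟩
    have := hWB k 0
    rwa [zero_add] at this
  have hleg : ∀ k, LegalI X (pos k).1 := by
    intro k
    induction k with
    | zero => exact fun _ => ⟨hX, subset_rfl⟩
    | succ k ih => exact (hstep' k ih).1
  have hext := fun k => hstep' k (hleg k)
  have hlen : ∀ k, k ≤ (pos k).2 := by
    intro k
    induction k with
    | zero => omega
    | succ k ih =>
      have := (hext k).2.1
      omega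
  have hagree : ∀ k d i, i < (pos k).2 →
      (pos k).2 ≤ (pos (k + d)).2 ∧ (pos (k + d)).1 i = (pos k).1 i := by
    intro k d i hi
    induction d with
    | zero => exact ⟨le_rfl, rfl⟩
    | succ d ih =>
      have h1 := (hext (k + d)).2.1
      refine ⟨le_trans ih.1 h1.le, ?_⟩
      rw [← ih.2]
      exact (hext (k + d)).2.2.1 i (lt_of_lt_of_le hi ih.1)
  let Y : ℕ → ℕ → (ℕ →₀ F) := fun i => (pos (i + 1)).1 i
  have hY : ∀ k i, i < (pos k).2 → Y i = (pos k).1 i := by
    intro k i hi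
    have h1 := (hagree k (i + 1) i hi).2
    have h2 := (hagree (i + 1) k i (hlen (i + 1))).2
    rw [add_comm] at h2
    exact h2.symm.trans h1
  refine ⟨Y, fun k => hleg (k + 1) k, sp_mem_of_span hWF fun n => ?_⟩
  refine Submodule.span_mono ?_ (hext n).2.2.2
  rintro _ ⟨j, hj, rfl⟩
  exact ⟨j, hcongr _ _ j fun i hi => hY _ i (lt_of_le_of_lt hi hj)⟩

end

end Pool.Agent.H925Z.Blk
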