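import Mathlib

/-!
Block filters on the countable-dimensional vector space `E = ℕ →₀ F` with basis the unit vectors.
-/

set_option autoImplicit false

namespace Pool.Agent.H925Z.Blk

variable {F : Type} [Field F]

/-- An infinite block sequence: nonzero vectors with `max supp (X n) < min supp (X (n+1))`. -/
def IsBlock (X : ℕ → (ℕ →₀ F)) : Prop :=
  ∀ n, X n ≠ 0 ∧ ∀ i ∈ (X n).support, ∀ j ∈ (X (n + 1)).support, i < j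

/-- `⟨X⟩`: the linear span of the terms of `X`, with `0` removed. -/
def Sp (X : ℕ → (ℕ →₀ F)) : Set (ℕ →₀ F) :=
  (Submodule.span F (Set.range X) : Set (ℕ →₀ F)) \ {0}

/-- A filter on `E`: a proper filter of subsets of `E \ {0}` containing every finite-codimensional
subspace with `0` removed. -/
def IsFilterOn (𝓕 : Filter (ℕ →₀ F)) : Prop :=
  𝓕.NeBot ∧ ({0}ᶜ : Set (ℕ →₀ F)) ∈ 𝓕 ∧
    ∀ V : Submodule F (ℕ →₀ F), FiniteDimensional F ((ℕ →₀ F) ⧸ V) →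
      ((V : Set (ℕ →₀ F)) \ {0}) ∈ 𝓕

/-- The sets `⟨X⟩`, `X` an infinite block sequence, lying in the filter form a base of it. -/
def HasBlockBase (𝓕 : Filter (ℕ →₀ F)) : Prop :=
  ∀ A ∈ 𝓕, ∃ X, IsBlock X ∧ Sp X ∈ 𝓕 ∧ Sp X ⊆ A

/-- `D` is `𝓕`-dense: every `⟨X⟩ ∈ 𝓕` contains `V \ {0} ⊆ D` for some infinite-dimensional
subspace `V`. -/
def IsDense (𝓕 : Filter (ℕ →₀ F)) (D : Set (ℕ →₀ F)) : Prop :=
  ∀ X, IsBlock X → Sp X ∈ 𝓕 → ∃ V : Submodule F (ℕ →₀ F), ¬ FiniteDimensional F V ∧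
    ((V : Set (ℕ →₀ F)) \ {0}) ⊆ Sp X ∧ ((V : Set (ℕ →₀ F)) \ {0}) ⊆ D

/-- `𝓕` is full: it contains every `𝓕`-dense set. -/
def IsFull (𝓕 : Filter (ℕ →₀ F)) : Prop :=
  ∀ D, IsDense 𝓕 D → D ∈ 𝓕

/-- `𝓕` has the `(p)`-property: for any `⟨X_m⟩ ∈ 𝓕` there is `⟨X⟩ ∈ 𝓕` such that, for each `m`,
all but finitely many terms of `X` lie in `⟨X_m⟩`. -/
def IsP (𝓕 : Filter (ℕ →₀ F)) : Prop :=
  ∀ Xs : ℕ → ℕ → (ℕ →₀ F), (∀ m, IsBlock (Xs m) ∧ Sp (Xs m) ∈ 𝓕) →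
    ∃ X, IsBlock X ∧ Sp X ∈ 𝓕 ∧ ∀ m, {n | X n ∉ Sp (Xs m)}.Finite

/-- A `(p⁺)`-filter: a full block filter with the `(p)`-property. -/
def IsPPlus (𝓕 : Filter (ℕ →₀ F)) : Prop :=
  IsFilterOn 𝓕 ∧ HasBlockBase 𝓕 ∧ IsFull 𝓕 ∧ IsP 𝓕

/-- A legal sequence of moves of player I in the Gowers game `G[X]`: in round `k` an infinite block
sequence `Y k` with `⟨Y k⟩ ⊆ ⟨X⟩`. -/
def LegalI (X : ℕ → (ℕ →₀ F)) (Y : ℕ → ℕ → (ℕ →₀ F)) : Prop :=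
  ∀ k, IsBlock (Y k) ∧ Sp (Y k) ⊆ Sp X

/-- The outcome of the play in which I plays `Y 0, Y 1, …` and II answers in round `k` with the
vector `α [Y 0, …, Y k]`. -/
def outcome (α : List (ℕ → (ℕ →₀ F)) → (ℕ →₀ F)) (Y : ℕ → ℕ → (ℕ →₀ F)) (k : ℕ) : ℕ →₀ F :=
  α (List.ofFn fun i : Fin (k + 1) => Y i)

/-- `α` is a strategy for II in `G[X]`: against all legal moves of I its answer in round `k` lies in
`⟨Y k⟩` and the answers form a block sequence. -/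
def IsStrategyII (X : ℕ → (ℕ →₀ F)) (α : List (ℕ → (ℕ →₀ F)) → (ℕ →₀ F)) : Prop :=
  ∀ Y, LegalI X Y → IsBlock (outcome α Y) ∧ ∀ k, outcome α Y k ∈ Sp (Y k)

/-- `𝓕` is strategic: for every `⟨X⟩ ∈ 𝓕` and every strategy `α` for II in `G[X]` some outcome `Z`
of `α` has `⟨Z⟩ ∈ 𝓕`. -/
def IsStrategic (𝓕 : Filter (ℕ →₀ F)) : Prop :=
  ∀ X, IsBlock X → Sp X ∈ 𝓕 → ∀ α, IsStrategyII X α →
    ∃ Y, LegalI X Y ∧ Sp (outcome α Y) ∈ 𝓕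

end Pool.Agent.H925Z.Blk
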