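import Mathlib

/-!
Colourings of pairs of `2 ^ κ`.
-/

set_option autoImplicit false

universe u

namespace Pool.Agent.H925Z

open Cardinal Set

/-- `2 ^ κ`: the functions from the ordinals below `κ` to `{0, 1}`. -/
abbrev Seq (κ : Cardinal.{u}) : Type (u + 1) := Iio κ.ord → Fin 2

/-- `Δ(x, y)`: the least ordinal `i < κ` with `x i ≠ y i`. -/
noncomputable def Delta {κ : Cardinal.{u}} (x y : Seq κ) : Ordinal.{u} :=
  sInf {i : Ordinal.{u} | ∃ h : i ∈ Iio κ.ord, x ⟨i, h⟩ ≠ y ⟨i, h⟩}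

/-- `c` is almost `Δ`-regressive: for some ordinal `m < κ`, `c(x, y) < max (Δ(x, y), m)` for all
`x ≠ y`. -/
def AlmostRegressive {κ : Cardinal.{u}} (c : Sym2 (Seq κ) → Iio κ.ord) : Prop :=
  ∃ m : Ordinal.{u}, m < κ.ord ∧
    ∀ x y : Seq κ, x ≠ y → (c s(x, y) : Ordinal.{u}) < max (Delta x y) m

/-- `c` is `Δ`-regressive: `c(x, y) < Δ(x, y)` whenever `x ≠ y` and `Δ(x, y) > 0`. -/
def Regressive {κ : Cardinal.{u}} (c : Sym2 (Seq κ) → Iio κ.ord) : Prop :=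
  ∀ x y : Seq κ, x ≠ y → 0 < Delta x y → (c s(x, y) : Ordinal.{u}) < Delta x y

/-- `Y` is `c`-monochromatic: `c` is constant on the pairs of distinct elements of `Y`. -/
def Monochromatic {κ : Cardinal.{u}} (c : Sym2 (Seq κ) → Iio κ.ord) (Y : Set (Seq κ)) : Prop :=
  ∃ k, ∀ x ∈ Y, ∀ y ∈ Y, x ≠ y → c s(x, y) = k

end Pool.Agent.H925Z
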