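import Pool.Agent.H580C.CH.All

/-!
Demailly's inequality with weights: positive characteristic.
-/

set_option autoImplicit false

universe u

namespace Pool.Agent.H925Z.Fat

open MvPolynomial Pool.Agent.Chud Pool.Agent.H580C

/-- Every nonzero form which vanishes to order at least `w i` at `v i` for all `i` has degree at
least `a`. -/
def LowW {k : Type*} [Field k] {σ ι : Type*} (v : ι → σ → k) (w : ι → ℕ) (a : ℕ) : Prop :=
  ∀ (F : MvPolynomial σ k) (d : ℕ), F ≠ 0 → F.IsHomogeneous d → (∀ i, F ∈ mI (v i) ^ w i) → a ≤ d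

theorem BLW (k : Type u) [Field k] [IsAlgClosed k] (p e n d : ℕ) [Fact p.Prime]
    [CharP k p] (F : MvPolynomial (Fin (n + 1)) k) (hF : F ≠ 0) (hFd : F.IsHomogeneous d) :
    ∃ (B d' : ℕ) (g : MvPolynomial (Fin (n + 1)) k), B ≤ n * (p ^ e - 1) ∧ g ≠ 0 ∧
      g.IsHomogeneous d' ∧ p ^ e * d' + B ≤ d ∧
      ∀ (v : Fin (n + 1) → k) (m : ℕ), v 0 ≠ 0 → F ∈ mI v ^ m → m ≤ p ^ e * mu v g + B := by
  have hp : p.Prime := Fact.out
  have hq : 0 < p ^ e := pow_pos hp.pos e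
  have hd0 : hd (0 : Fin (n + 1) →₀ ℕ) F = F := by
    ext c
    rw [t_HC]
    simp
  obtain ⟨b, -, hb1, hb2, hb3, hb4⟩ := p_MX k p e (n + 1) {i | i ≠ 0} F 0
    (fun i => hq) (fun i _ => rfl) (by rw [hd0]; exact hF)
  have hb0 : b 0 = 0 := hb2 0 (by simp)
  have hBd : b.degree ≤ d := by
    obtain ⟨c, hc⟩ := MvPolynomial.ne_zero_iff.1 hb3
    rw [t_HC] at hc
    have hc' : coeff (c + b) F ≠ 0 := right_ne_zero_of_mul hc
    have := hFd hc'
    rw [Pi.one_def] at this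
    have h2 : (c + b).degree = d := by
      rw [Finsupp.degree_eq_weight_one]
      exact this
    rw [map_add] at h2
    omega
  obtain ⟨c, d', G, -, hG2, hG3, hG4, -⟩ := t_RT k p e (n + 1) (d - b.degree) 0 (hd b F) hb3
    (p_HH k (n + 1) b d F hFd) hb4
  have hG0 : G ≠ 0 := by
    intro h
    apply hb3
    rw [hG4, h, zero_pow hq.ne', mul_zero]
  refine ⟨b.degree, d', G, BL_degree_le b hb1 hb0, hG0, hG2, by omega, ?_⟩
  intro v m hv hFm
  have h1 := t_HM k (n + 1) b v m F hFm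
  rw [mem_mI_pow_iff v hb3] at h1
  have hX0 : (X 0 : MvPolynomial (Fin (n + 1)) k) ≠ 0 := X_ne_zero 0
  have hmuX : mu v (X 0 : MvPolynomial (Fin (n + 1)) k) = 0 := by
    have h := mu_pos_iff v hX0
    rw [eval_X] at h
    by_contra hne
    exact hv (h.1 (Nat.pos_of_ne_zero hne))
  rw [hG4, mu_mul v (pow_ne_zero _ hX0) (pow_ne_zero _ hG0), BL_mu_pow v hX0, BL_mu_pow v hG0,
    hmuX, mul_zero, zero_add] at h1
  omega

theorem LSW (k : Type u) [Field k] [IsAlgClosed k] {ι : Type*} (N a : ℕ) (v : ι → Fin N → k)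
    (w : ι → ℕ) (i₀ : ι) (hw : 1 ≤ w i₀) (hL : LowW v w a) (j : ℕ) :
    LowW v (fun i => w i + j) (a + j) := by
  induction j with
  | zero => simpa using hL
  | succ j ih =>
    intro F d hF hd hv
    have h1 : w i₀ + (j + 1) ≤ mu (v i₀) F := (mem_mI_pow_iff _ hF _).1 (hv i₀)
    have h2 := mu_le_totalDegree (v i₀) hF
    rw [hd.totalDegree hF] at h2
    obtain ⟨G, hG, hGh, hGv⟩ := t_DL k N d F hF hd (by omega)
    have h3 := ih G (d - 1) hG hGh (fun i => hGv (v i) (w i + j) (hv i))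
    omega

theorem starW (k : Type u) [Field k] [IsAlgClosed k] (p : ℕ)
    [Fact p.Prime] [CharP k p] {ι : Type*} (n t a : ℕ) (v : ι → Fin (n + 1) → k) (w : ι → ℕ)
    (hn : 1 ≤ n) (ht : 1 ≤ t) (i₀ : ι) (hw : ∀ i, 1 ≤ w i) (hZ0 : ∀ i, v i 0 ≠ 0)
    (hL : LowW v (fun i => t * w i) a) (e D : ℕ)
    (F : MvPolynomial (Fin (n + 1)) k) (hF0 : F ≠ 0) (hF : F.IsHomogeneous D)
    (hFv : ∀ i, F ∈ mI (v i) ^ (p ^ e * (t + n - 1) * w i)) : p ^ e * (a + n - 1) ≤ D := by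
  obtain ⟨B, d', g, hB, hg0, hg, hD, hmu⟩ := BLW k p e n D F hF0 hF
  have hq : 1 ≤ p ^ e := Nat.one_le_pow _ _ (Fact.out : p.Prime).pos
  have hmu' := fun i => hmu (v i) _ (hZ0 i) (hFv i)
  obtain ⟨n, rfl⟩ : ∃ n', n = n' + 1 := ⟨n - 1, by omega⟩
  have e1 : t + (n + 1) - 1 = t + n := by omega
  have e2 : a + (n + 1) - 1 = a + n := by omega
  rw [e1] at hmu'
  rw [e2]
  set q := p ^ e with hq'
  set j := B / q with hj
  have hj1 : q * j ≤ B := Nat.mul_div_le B q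
  have hj2 : B < q * (j + 1) := Nat.lt_mul_div_succ B hq
  have hjn : j ≤ n := by
    by_contra hcon
    have h1 : q * (n + 1) ≤ q * j := Nat.mul_le_mul_left _ (by omega)
    obtain ⟨q', hq''⟩ : ∃ q', q = q' + 1 := ⟨q - 1, by omega⟩
    rw [hq''] at hB h1 hj1
    simp only [Nat.add_sub_cancel] at hB
    nlinarith
  obtain ⟨r, hr⟩ := Nat.exists_eq_add_of_le hjn
  have hgv : ∀ i, g ∈ mI (v i) ^ (t * w i + r) := by
    intro i
    rw [mem_mI_pow_iff _ hg0]
    by_contra hcon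
    have h1 : mu (v i) g + 1 ≤ t * w i + r := by omega
    have h2 : q * (mu (v i) g + 1) ≤ q * (t * w i + r) := Nat.mul_le_mul_left _ h1
    have h3 := hmu' i
    have h4 : q * n ≤ q * n * w i := Nat.le_mul_of_pos_right _ (hw i)
    have h5 : q * (t + n) * w i = q * (t * w i) + q * n * w i := by ring
    have h6 : q * n = q * j + q * r := by rw [hr]; ring
    nlinarith
  have hLj := LSW k (n + 1 + 1) a v (fun i => t * w i) i₀ (Nat.mul_pos ht (hw i₀)) hL r
  have haj := hLj g d' hg0 hg hgv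
  have h4 : q * (a + r) ≤ q * d' := Nat.mul_le_mul_left _ haj
  have h6 : q * (a + n) = q * (a + r) + q * j := by rw [hr]; ring
  omega

theorem coreW (k : Type u) [Field k] [IsAlgClosed k] (p : ℕ)
    [Fact p.Prime] [CharP k p] {ι : Type*} (n t a m d : ℕ) (v : ι → Fin (n + 1) → k) (w : ι → ℕ)
    (hn : 1 ≤ n) (ht : 1 ≤ t) (i₀ : ι) (hw : ∀ i, 1 ≤ w i) (hZ0 : ∀ i, v i 0 ≠ 0)
    (hL : LowW v (fun i => t * w i) a)
    (F : MvPolynomial (Fin (n + 1)) k) (hF0 : F ≠ 0) (hF : F.IsHomogeneous d)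
    (hFv : ∀ i, F ∈ mI (v i) ^ (m * w i)) : m * (a + n - 1) ≤ d * (t + n - 1) := by
  by_contra hcon
  rw [not_le] at hcon
  have hm : 1 ≤ m := by
    rcases Nat.eq_zero_or_pos m with h | h
    · subst h
      omega
    · exact h
  have hp := (Fact.out : p.Prime).one_lt
  have hq : d * m < p ^ (d * m) := Nat.lt_pow_self hp
  set e := d * m with he
  set q := p ^ e with hqd
  set s := t + n - 1 with hs
  set b := a + n - 1 with hb
  set M := (q * s + m - 1) / m with hM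
  have hM1 : M * m ≤ q * s + m - 1 := Nat.div_mul_le_self _ _
  have hM2 : q * s ≤ M * m := by
    have h1 : q * s + m - 1 < m * (M + 1) := by
      rw [hM]
      exact Nat.lt_mul_div_succ _ (by omega)
    have h2 : m * (M + 1) = M * m + m := by ring
    omega
  have h1 := starW k p n t a v w hn ht i₀ hw hZ0 hL e (d * M) (F ^ M) (pow_ne_zero _ hF0)
    (hF.pow M) (by
      intro i
      have h2 : F ^ M ∈ (mI (v i) ^ (m * w i)) ^ M := Ideal.pow_mem_pow (hFv i) M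
      rw [← pow_mul] at h2
      refine Ideal.pow_le_pow_right ?_ h2
      calc q * s * w i ≤ M * m * w i := Nat.mul_le_mul_right _ hM2
        _ = m * w i * M := by ring)
  have h2 : m * (q * b) ≤ m * (d * M) := Nat.mul_le_mul_left _ h1
  have h3 : d * (M * m) ≤ d * (q * s + m - 1) := Nat.mul_le_mul_left _ hM1
  obtain ⟨m', rfl⟩ : ∃ m', m = m' + 1 := ⟨m - 1, by omega⟩
  have e3 : q * s + (m' + 1) - 1 = q * s + m' := by omega
  rw [e3] at h3
  obtain ⟨c, hc⟩ := Nat.exists_eq_add_of_lt hcon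
  have h4 : q * ((m' + 1) * b) ≤ q * (d * s) + d * m' := by nlinarith
  rw [hc] at h4
  have h5 : q ≤ d * m' := by nlinarith
  have h6 : d * m' ≤ d * (m' + 1) := Nat.mul_le_mul_left _ (by omega)
  omega

theorem CPW (k : Type u) [Field k] [IsAlgClosed k] (p : ℕ)
    [Fact p.Prime] [CharP k p] {ι : Type*} [Finite ι] (n t a m d : ℕ) (v : ι → Fin (n + 1) → k)
    (w : ι → ℕ) (hn : 1 ≤ n) (ht : 1 ≤ t) (i₀ : ι) (hw : ∀ i, 1 ≤ w i) (hZ0 : ∀ i, v i ≠ 0)
    (hL : LowW v (fun i => t * w i) a)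
    (F : MvPolynomial (Fin (n + 1)) k) (hF0 : F ≠ 0) (hF : F.IsHomogeneous d)
    (hFv : ∀ i, F ∈ mI (v i) ^ (m * w i)) : m * (a + n - 1) ≤ d * (t + n - 1) := by
  have : Infinite k := IsAlgClosed.instInfinite
  obtain ⟨e, he⟩ := t_CO k n (Set.range v) (Set.finite_range v) (by
    rintro _ ⟨i, rfl⟩; exact hZ0 i)
  obtain ⟨s1, s2, -, s4, -, -⟩ := t_SU k (n + 1) e
  obtain ⟨r1, r2, -, r4, -, -⟩ := t_SU k (n + 1) e.symm
  have hne : ∀ G : MvPolynomial (Fin (n + 1)) k, G ≠ 0 → sub e G ≠ 0 := by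
    intro G hG h
    exact hG (s1 (by rw [h, map_zero]))
  have hne' : ∀ G : MvPolynomial (Fin (n + 1)) k, G ≠ 0 → sub e.symm G ≠ 0 := by
    intro G hG h
    exact hG (r1 (by rw [h, map_zero]))
  apply coreW k p n t a m d (fun i => e.symm (v i)) w hn ht i₀ hw _ _
    (sub e F) (hne F hF0) (s2 F d hF)
  · intro i
    rw [s4, LinearEquiv.apply_symm_apply]
    exact hFv i
  · intro i
    exact he _ ⟨i, rfl⟩
  · intro G D hG0 hG hGv
    apply hL (sub e.symm G) D (hne' G hG0) (r2 G D hG)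
    intro i
    rw [r4]
    exact hGv i

end Pool.Agent.H925Z.Fat
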