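import Pool.Agent.H925Z.Fat1

/-!
Demailly's inequality with weights: reduction from characteristic zero.
-/

set_option autoImplicit false

universe u

namespace Pool.Agent.H925Z.Fat

open MvPolynomial Pool.Agent.Chud Pool.Agent.H580C

theorem TIW (K : Type u) [Field K] {ι : Type} [Fintype ι] (n a : ℕ) (v : ι → Fin (n + 1) → K)
    (w : ι → ℕ) (hZ : LowW v w a) (d : ℕ) (hd' : d < a) :
    ∃ lam : (Fin (n + 1) →₀ ℕ) → ι → (Fin (n + 1) →₀ ℕ) → K,
      ∀ m m' : Fin (n + 1) →₀ ℕ, m.degree = d → m'.degree = d →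
        ∑ j, ∑ b ∈ bx (n + 1) (w j),
          lam m j b * (((∏ i, (m' i).choose (b i) : ℕ) : K) * ∏ i, v j i ^ (m' i - b i)) =
        if m = m' then 1 else 0 := by
  classical
  let I : Finset ((_ : ι) × (Fin (n + 1) →₀ ℕ)) := Finset.univ.sigma (fun j => bx (n + 1) (w j))
  let V := homogeneousSubmodule (Fin (n + 1)) K d
  let E : V →ₗ[K] (I → K) :=
    { toFun := fun F i => eval (v i.1.1) (hd i.1.2 (F : MvPolynomial (Fin (n + 1)) K))
      map_add' := by
        intro F G
        ext i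
        simp [map_add]
      map_smul' := by
        intro c F
        ext i
        simp [map_smul, MvPolynomial.smul_eval] }
  have hE : LinearMap.ker E = ⊥ := by
    rw [LinearMap.ker_eq_bot']
    intro F hF
    by_contra hne
    have hne' : (F : MvPolynomial (Fin (n + 1)) K) ≠ 0 := by
      intro h
      exact hne (Subtype.ext h)
    have := hZ F d hne' ((mem_homogeneousSubmodule d _).1 F.2) (by
      intro j
      rw [(t_HV K (n + 1) (v j) F).2 (w j)]
      intro b hb
      have hmem : (⟨j, b⟩ : (_ : ι) × (Fin (n + 1) →₀ ℕ)) ∈ I :=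
        Finset.mem_sigma.2 ⟨Finset.mem_univ _, (TI_mem_bx _ _ _).2 hb⟩
      exact congrFun hF ⟨⟨j, b⟩, hmem⟩)
    omega
  obtain ⟨R, hR⟩ := LinearMap.exists_leftInverse_of_injective E hE
  refine ⟨fun m j b => if h : (⟨j, b⟩ : (_ : ι) × (Fin (n + 1) →₀ ℕ)) ∈ I then
    coeff m ((R (Pi.single ⟨⟨j, b⟩, h⟩ 1) : V) : MvPolynomial (Fin (n + 1)) K) else 0, ?_⟩
  intro m m' hm hm'
  have hF : (monomial m' (1 : K)) ∈ V := by
    rw [mem_homogeneousSubmodule]
    exact isHomogeneous_monomial _ hm'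
  have h1 : R (E ⟨_, hF⟩) = ⟨_, hF⟩ := by
    have := LinearMap.congr_fun hR ⟨_, hF⟩
    simpa using this
  have h2 : E ⟨_, hF⟩ = ∑ i : I, (E ⟨_, hF⟩ i) • (Pi.single i (1 : K) : I → K) := by
    ext j
    simp [Finset.sum_apply, Pi.single_apply]
  have h3 : coeff m ((R (E ⟨_, hF⟩) : V) : MvPolynomial (Fin (n + 1)) K) =
      ∑ i : I, (E ⟨_, hF⟩ i) *
        coeff m ((R (Pi.single i 1) : V) : MvPolynomial (Fin (n + 1)) K) := by
    conv_lhs => rw [h2]
    rw [map_sum, Submodule.coe_sum, coeff_sum]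
    apply Finset.sum_congr rfl
    intro i _
    rw [map_smul, Submodule.coe_smul, coeff_smul, smul_eq_mul]
  rw [h1] at h3
  have h4 : coeff m (monomial m' (1 : K)) = if m = m' then 1 else 0 := by
    rw [coeff_monomial]
    simp [eq_comm]
  have h5 : ∀ i : I, E ⟨_, hF⟩ i =
      (((∏ j, (m' j).choose (i.1.2 j) : ℕ) : K) * ∏ j, v i.1.1 j ^ (m' j - i.1.2 j)) := by
    intro i
    show eval (v i.1.1) (hd i.1.2 (monomial m' (1 : K))) = _
    rw [TI_hd_monomial t_HC, eval_monomial, Finsupp.prod_fintype _ _ (by simp)]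
    rfl
  show _ = _
  rw [← h4]
  refine Eq.trans ?_ h3.symm
  rw [Finset.sum_sigma']
  change ∑ x ∈ I, _ = _
  rw [← Finset.sum_coe_sort I]
  apply Finset.sum_congr rfl
  intro i _
  rw [h5 i, mul_comm]
  congr 1
  have hi : (⟨(i : (_ : ι) × (Fin (n + 1) →₀ ℕ)).1, (i : (_ : ι) × (Fin (n + 1) →₀ ℕ)).2⟩ :
      (_ : ι) × (Fin (n + 1) →₀ ℕ)) ∈ I := i.2
  exact dif_pos hi

theorem TRW (K : Type u) [Field K] [CharZero K] {ι : Type} [Fintype ι] (n a : ℕ)
    (v : ι → Fin (n + 1) → K) (w : ι → ℕ) (D : Finset K) (hLow : LowW v w a) :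
    ∃ (p : ℕ) (_ : Fact p.Prime) (k : Type) (_ : Field k) (_ : IsAlgClosed k) (_ : CharP k p)
      (A : Subring K) (φ : A →+* k) (hv : ∀ j i, v j i ∈ A), (∀ x ∈ D, x ∈ A) ∧
      (∀ x ∈ D, x ≠ 0 → ∀ h : x ∈ A, φ ⟨x, h⟩ ≠ 0) ∧
      LowW (fun j i => φ ⟨v j i, hv j i⟩) w a := by
  classical
  choose! lam hlam using TIW K n a v w hLow
  set T : Finset K := ((Finset.range a).biUnion fun d =>
      ((Finset.univ : Finset (Fin (n + 1))).finsuppAntidiag d).biUnion fun m =>
        (Finset.univ : Finset ι).biUnion fun j => (bx (n + 1) (w j)).image fun b => lam d m j b) ∪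
      (((Finset.univ : Finset ι).biUnion fun j =>
        (Finset.univ : Finset (Fin (n + 1))).image fun i => v j i) ∪
      (D ∪ D.image (fun x => x⁻¹))) with hT
  obtain ⟨p, hp, k, ik, ia, ic, -, ⟨φ⟩⟩ := t_RD K T 0
  set A : Subring K := (Algebra.adjoin ℤ (T : Set K)).toSubring with hA
  have hTA : ∀ x ∈ T, x ∈ A := fun x hx => Algebra.subset_adjoin hx
  set ψ : A →+* k := φ.comp (A.subtype.codRestrict (Algebra.adjoin ℤ (T : Set K))
    (fun x => x.2)) with hψ
  have m1 : ∀ d < a, ∀ m : Fin (n + 1) →₀ ℕ, m.degree = d → ∀ j, ∀ b ∈ bx (n + 1) (w j),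
      lam d m j b ∈ A := by
    intro d hd m hm j b hb
    apply hTA
    rw [hT]
    refine Finset.mem_union_left _ (Finset.mem_biUnion.2 ⟨d, Finset.mem_range.2 hd, ?_⟩)
    refine Finset.mem_biUnion.2 ⟨m, (TR_mem_anti _ _).2 hm, ?_⟩
    exact Finset.mem_biUnion.2 ⟨j, Finset.mem_univ _, Finset.mem_image.2 ⟨b, hb, rfl⟩⟩
  have m2 : ∀ j i, v j i ∈ A := by
    intro j i
    apply hTA
    rw [hT]
    refine Finset.mem_union_right _ (Finset.mem_union_left _ ?_)
    exact Finset.mem_biUnion.2 ⟨j, Finset.mem_univ _,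
      Finset.mem_image.2 ⟨i, Finset.mem_univ _, rfl⟩⟩
  have m4 : ∀ x ∈ D, x ∈ A ∧ x⁻¹ ∈ A := by
    intro x hx
    constructor
    · apply hTA
      rw [hT]
      refine Finset.mem_union_right _ (Finset.mem_union_right _ ?_)
      exact Finset.mem_union_left _ hx
    · apply hTA
      rw [hT]
      refine Finset.mem_union_right _ (Finset.mem_union_right _ ?_)
      exact Finset.mem_union_right _ (Finset.mem_image.2 ⟨x, hx, rfl⟩)
  refine ⟨p, hp, k, ik, ia, ic, A, ψ, m2, fun x hx => (m4 x hx).1, ?_, ?_⟩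
  · intro x hx hx0 h h0
    have e : (⟨x, h⟩ : A) * ⟨x⁻¹, (m4 x hx).2⟩ = 1 := by
      apply Subtype.ext
      exact mul_inv_cancel₀ hx0
    have e2 := congrArg ψ e
    rw [map_mul, h0, zero_mul, map_one] at e2
    exact zero_ne_one e2
  · intro G d' hG0 hG hv
    by_contra hlt
    push Not at hlt
    apply hG0
    ext m
    rw [coeff_zero]
    by_cases hm : m.degree = d'
    swap
    · exact hG.coeff_eq_zero hm
    have key : ∀ m' : Fin (n + 1) →₀ ℕ, m'.degree = d' →
        ∑ j, ∑ b ∈ (bx (n + 1) (w j)).attach,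
          ψ ⟨lam d' m j b.1, m1 d' hlt m hm j b.1 b.2⟩ *
            (((∏ i, (m' i).choose (b.1 i) : ℕ) : k) *
              ∏ i, ψ ⟨v j i, m2 j i⟩ ^ (m' i - b.1 i)) =
        if m = m' then 1 else 0 := by
      intro m' hm'
      have h := hlam d' hlt m m' hm hm'
      have hA' : ∑ j, ∑ b ∈ (bx (n + 1) (w j)).attach,
          (⟨lam d' m j b.1, m1 d' hlt m hm j b.1 b.2⟩ : A) *
            (((∏ i, (m' i).choose (b.1 i) : ℕ) : A) *
              ∏ i, (⟨v j i, m2 j i⟩ : A) ^ (m' i - b.1 i)) =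
          if m = m' then 1 else 0 := by
        apply Subtype.ext
        have e1 : ((if m = m' then 1 else 0 : A) : K) = if m = m' then 1 else 0 := by
          split_ifs <;> rfl
        rw [e1, ← h]
        push_cast
        refine Finset.sum_congr rfl fun j _ => ?_
        rw [← Finset.sum_attach (bx (n + 1) (w j))]
      have h3 := congrArg ψ hA'
      rw [map_sum] at h3
      have e2 : ψ (if m = m' then 1 else 0) = if m = m' then 1 else 0 := by
        split_ifs
        · exact map_one ψ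
        · exact map_zero ψ
      rw [e2] at h3
      rw [← h3]
      refine Finset.sum_congr rfl fun v _ => ?_
      rw [map_sum]
      refine Finset.sum_congr rfl fun b _ => ?_
      rw [map_mul, map_mul, map_natCast, map_prod]
      simp only [map_pow]
    have hsum : coeff m G = ∑ m' ∈ (Finset.univ : Finset (Fin (n + 1))).finsuppAntidiag d',
        (if m = m' then 1 else 0) * coeff m' G := by
      rw [Finset.sum_eq_single m]
      · rw [if_pos rfl, one_mul]
      · intro m' _ hne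
        rw [if_neg (Ne.symm hne), zero_mul]
      · intro h
        exact absurd ((TR_mem_anti _ _).2 hm) h
    rw [hsum]
    have h4 : ∀ m' ∈ (Finset.univ : Finset (Fin (n + 1))).finsuppAntidiag d',
        ((if m = m' then 1 else 0 : k)) * coeff m' G =
        ∑ j, ∑ b ∈ (bx (n + 1) (w j)).attach,
          ψ ⟨lam d' m j b.1, m1 d' hlt m hm j b.1 b.2⟩ *
            ((((∏ i, (m' i).choose (b.1 i) : ℕ) : k) *
              ∏ i, ψ ⟨v j i, m2 j i⟩ ^ (m' i - b.1 i)) * coeff m' G) := by
      intro m' hm'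
      rw [← key m' ((TR_mem_anti _ _).1 hm'), Finset.sum_mul]
      refine Finset.sum_congr rfl fun v _ => ?_
      rw [Finset.sum_mul]
      refine Finset.sum_congr rfl fun b _ => ?_
      rw [mul_assoc]
    rw [Finset.sum_congr rfl h4, Finset.sum_comm]
    refine Finset.sum_eq_zero fun j _ => ?_
    rw [Finset.sum_comm]
    refine Finset.sum_eq_zero fun b _ => ?_
    rw [← Finset.mul_sum]
    have h5 := TR_eval_hd t_HC k (n + 1) b.1 (fun i => ψ ⟨v j i, m2 j i⟩) G d' hG
    rw [← h5]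
    have h6 := ((t_HV k (n + 1) (fun i => ψ ⟨v j i, m2 j i⟩) G).2 (w j)).1 (hv j) b.1
      ((TR_mem_bx _ _).1 b.2)
    rw [h6, mul_zero]

theorem CDW (k : Type u) [Field k] [IsAlgClosed k] {ι : Type} [Fintype ι] (n t a m d : ℕ)
    (v : ι → Fin (n + 1) → k)
    (w : ι → ℕ) (hn : 1 ≤ n) (ht : 1 ≤ t) (i₀ : ι) (hw : ∀ i, 1 ≤ w i) (hZ0 : ∀ i, v i ≠ 0)
    (hlow : LowW v (fun i => t * w i) a)
    (F : MvPolynomial (Fin (n + 1)) k) (hF0 : F ≠ 0) (hFh : F.IsHomogeneous d)
    (hFv : ∀ i, F ∈ mI (v i) ^ (m * w i)) : m * (a + n - 1) ≤ d * (t + n - 1) := by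
  classical
  obtain ⟨p, hp⟩ := CharP.exists k
  rcases CharP.char_is_prime_or_zero k p with hpp | hp0
  · have : Fact p.Prime := ⟨hpp⟩
    exact CPW k p n t a m d v w hn ht i₀ hw hZ0 hlow F hF0 hFh hFv
  · subst hp0
    have : CharZero k := CharP.charP_to_charZero k
    obtain ⟨p, hp, k', _, _, _, A, φ, hvA, hDA, hDφ, hlowT⟩ :=
      TRW k n a v (fun i => t * w i)
        (((Finset.univ : Finset ι).biUnion fun j => Finset.univ.image (v j)) ∪
          F.support.image (fun m => coeff m F)) hlow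
    have hFA : ∀ m, coeff m F ∈ A := by
      intro m
      by_cases hm : m ∈ F.support
      · exact hDA _ (Finset.mem_union_right _ (Finset.mem_image_of_mem _ hm))
      · rw [notMem_support_iff.1 hm]
        exact A.zero_mem
    set FA : MvPolynomial (Fin (n + 1)) A := ∑ m ∈ F.support, monomial m ⟨coeff m F, hFA m⟩
      with hFAdef
    have hmapF : map A.subtype FA = F := by
      rw [hFAdef, map_sum]
      conv_rhs => rw [← support_sum_monomial_coeff F]
      apply Finset.sum_congr rfl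
      intro m _
      rw [map_monomial]
      rfl
    have hcoeff : ∀ m, coeff m FA = ⟨coeff m F, hFA m⟩ := by
      intro m
      apply Subtype.ext
      have := congrArg (coeff m) hmapF
      rw [coeff_map] at this
      exact this
    have hdegm : ∀ m ∈ F.support, m.degree = d := by
      intro m hm
      have := hFh (mem_support_iff.1 hm)
      rwa [Finsupp.degree_eq_weight_one]
    have hFAh : FA.IsHomogeneous d := by
      rw [hFAdef]
      apply IsHomogeneous.sum
      intro m hm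
      exact isHomogeneous_monomial _ (hdegm m hm)
    obtain ⟨m₀, hm₀⟩ := support_nonempty.2 hF0
    have hF'0 : map φ FA ≠ 0 := by
      intro h0
      have h1 := congrArg (coeff m₀) h0
      rw [coeff_map, hcoeff, coeff_zero] at h1
      refine hDφ (coeff m₀ F) ?_ (mem_support_iff.1 hm₀) (hFA m₀) h1
      rw [Finset.mem_union]
      right
      exact Finset.mem_image_of_mem _ hm₀
    refine CPW k' p n t a m d (fun j i => φ ⟨v j i, hvA j i⟩) w hn ht i₀ hw ?_ hlowT (map φ FA)
      hF'0 (hFAh.map φ) ?_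
    · intro j h0
      obtain ⟨i, hi⟩ : ∃ i, v j i ≠ 0 := by
        by_contra hcon
        push Not at hcon
        exact hZ0 j (funext hcon)
      refine hDφ (v j i) ?_ hi (hvA j i) (congrFun h0 i)
      rw [Finset.mem_union]
      left
      rw [Finset.mem_biUnion]
      exact ⟨j, Finset.mem_univ _, Finset.mem_image_of_mem _ (Finset.mem_univ i)⟩
    · intro j
      refine (p_MT A k k' A.subtype φ Subtype.val_injective (n + 1)
        (fun i => ⟨v j i, hvA j i⟩) FA).1 (m * w j) ?_
      rw [hmapF]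
      exact hFv j

end Pool.Agent.H925Z.Fat
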