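import Mathlib

/-!
Fat point schemes in projective space.
-/

set_option autoImplicit false

namespace Pool.Agent.H925Z.Fat

open MvPolynomial

variable {K : Type*} [Field K] {N : ℕ}

/-- `I(p)`: the ideal generated by the forms which vanish at the point `p` of `ℙ^N`. -/
noncomputable def ptIdeal (p : Projectivization K (Fin (N + 1) → K)) : Ideal (MvPolynomial (Fin (N + 1)) K) :=
  Ideal.span {F | (∃ d, F.IsHomogeneous d) ∧ eval p.rep F = 0}

/-- `I(Z) = ⋂ I(p) ^ (m_p)` for the fat point scheme `Z = ∑ m_p p`. -/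
noncomputable def fatIdeal (Z : Projectivization K (Fin (N + 1) → K) →₀ ℕ) :
    Ideal (MvPolynomial (Fin (N + 1)) K) :=
  ⨅ p ∈ Z.support, ptIdeal p ^ Z p

/-- `α(I)`: the least degree of a nonzero form in `I`. -/
noncomputable def alpha (I : Ideal (MvPolynomial (Fin (N + 1)) K)) : ℕ :=
  sInf {d | ∃ F ∈ I, F ≠ 0 ∧ F.IsHomogeneous d}

end Pool.Agent.H925Z.Fat
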