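import Pool.Agent.H925Z.Fat2
import Pool.Agent.H925Z.FatDefs

/-!
Demailly's inequality for fat point schemes.
-/

set_option autoImplicit false

universe u

namespace Pool.Agent.H925Z.Fat

open MvPolynomial Pool.Agent.Chud Pool.Agent.H580C Filter Topology

variable {K : Type u} [Field K] {N : ℕ}

theorem ptIdeal_le (p : PP K N) : ptIdeal p ≤ mI p.rep := by
  apply Ideal.span_le.2
  intro F hF
  exact hF.2

theorem mem_ptIdeal_pow (p : PP K N) (F : MvPolynomial (Fin (N + 1)) K) (d m : ℕ)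
    (hF : F.IsHomogeneous d) (h : F ∈ mI p.rep ^ m) : F ∈ ptIdeal p ^ m := by
  classical
  obtain ⟨e, he⟩ := t_CE K N p.rep p.rep_nonzero
  obtain ⟨-, s2, -, s4, -, s6⟩ := t_SU K (N + 1) e
  obtain ⟨-, r2, r3, -, -, -⟩ := t_SU K (N + 1) e.symm
  have hG : sub e F ∈ mI (e0 K N) ^ m := by rw [s4, he]; exact h
  have hGh := s2 F d hF
  rw [t_OE K N d m _ hGh] at hG
  rw [← s6 F, (sub e F).as_sum, map_sum]
  refine Ideal.sum_mem _ fun c hc => ?_
  have hX : ∀ j : Fin N, sub e.symm (X j.succ) ∈ ptIdeal p := by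
    intro j
    refine Ideal.subset_span ⟨⟨1, r2 _ 1 (isHomogeneous_X K _)⟩, ?_⟩
    rw [r3, ← he, LinearEquiv.symm_apply_apply, eval_X]
    simp [e0]
  have hdeg : c 0 + ∑ j : Fin N, c j.succ = d := by
    have h1 := hGh (mem_support_iff.1 hc)
    have h2 : c.degree = d := by
      rw [Finsupp.degree_eq_weight_one]
      exact h1
    rw [Finsupp.degree_eq_sum, Fin.sum_univ_succ] at h2
    exact h2
  have hle : m ≤ ∑ j : Fin N, c j.succ := by
    have := hG c hc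
    omega
  rw [monomial_eq, map_mul, Finsupp.prod_fintype _ _ (by simp), Fin.prod_univ_succ, map_mul,
    map_prod]
  refine Ideal.mul_mem_left _ _ (Ideal.mul_mem_left _ _ (Ideal.pow_le_pow_right hle ?_))
  rw [← Finset.prod_pow_eq_pow_sum]
  refine Ideal.prod_mem_prod fun j _ => ?_
  rw [map_pow]
  exact Ideal.pow_mem_pow (hX j) _

theorem mem_fatIdeal (Z : PP K N →₀ ℕ) (F : MvPolynomial (Fin (N + 1)) K) :
    F ∈ fatIdeal Z ↔ ∀ p, F ∈ ptIdeal p ^ Z p := by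
  simp only [fatIdeal, Ideal.mem_iInf]
  refine ⟨fun h p => ?_, fun h p _ => h p⟩
  by_cases hp : p ∈ Z.support
  · exact h p hp
  · rw [Finsupp.notMem_support_iff.1 hp]; simp

theorem exists_form (hN : 1 ≤ N) (Z : PP K N →₀ ℕ) :
    ∃ F ∈ fatIdeal Z, F ≠ 0 ∧ F.IsHomogeneous (alpha (fatIdeal Z)) := by
  classical
  have hne : {d | ∃ F ∈ fatIdeal Z, F ≠ 0 ∧ F.IsHomogeneous d}.Nonempty := by
    choose H hH using fun p : PP K N => AS_exists_OnH hN p
    refine ⟨∑ p ∈ Z.support, 1 * Z p, ∏ p ∈ Z.support, (lin (H p)) ^ Z p, ?_, ?_, ?_⟩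
    · simp only [fatIdeal, Ideal.mem_iInf]
      intro p hp
      obtain ⟨G, hG⟩ := Finset.dvd_prod_of_mem (fun p => (lin (H p)) ^ Z p) hp
      rw [hG]
      refine Ideal.mul_mem_right _ _ (Ideal.pow_mem_pow ?_ _)
      exact Ideal.subset_span ⟨⟨1, lin_homog _⟩, (eval_lin (H p) p).2 (hH p)⟩
    · exact Finset.prod_ne_zero_iff.2 fun p _ => pow_ne_zero _ (lin_ne_zero _)
    · exact IsHomogeneous.prod Z.support _ _ fun p _ => (lin_homog (H p)).pow _
  exact Nat.sInf_mem hne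

theorem alpha_add (hN : 1 ≤ N) (Z W : PP K N →₀ ℕ) :
    alpha (fatIdeal (Z + W)) ≤ alpha (fatIdeal Z) + alpha (fatIdeal W) := by
  obtain ⟨F, hF, hF0, hFh⟩ := exists_form hN Z
  obtain ⟨G, hG, hG0, hGh⟩ := exists_form hN W
  refine Nat.sInf_le ⟨F * G, ?_, mul_ne_zero hF0 hG0, hFh.mul hGh⟩
  rw [mem_fatIdeal] at hF hG ⊢
  intro p
  rw [Finsupp.add_apply, pow_add]
  exact Ideal.mul_mem_mul (hF p) (hG p)

theorem demailly_fat [IsAlgClosed K] (hN : 1 ≤ N) (Z : PP K N →₀ ℕ) (hZ : Z ≠ 0) (t m : ℕ)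
    (ht : 1 ≤ t) :
    m * (alpha (fatIdeal (t • Z)) + N - 1) ≤ alpha (fatIdeal (m • Z)) * (t + N - 1) := by
  classical
  obtain ⟨F, hF, hF0, hFh⟩ := exists_form hN (m • Z)
  let e := Z.support.equivFin.symm
  obtain ⟨p₀, hp₀⟩ := Finsupp.support_nonempty_iff.2 hZ
  refine CDW K N t _ m _ (fun j => (e j).1.rep) (fun j => Z (e j).1) hN ht (e.symm ⟨p₀, hp₀⟩)
    (fun j => Nat.pos_of_ne_zero (Finsupp.mem_support_iff.1 (e j).2))
    (fun j => (e j).1.rep_nonzero) ?_ F hF0 hFh ?_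
  · intro G d hG0 hGh hGv
    refine Nat.sInf_le ⟨G, ?_, hG0, hGh⟩
    rw [mem_fatIdeal]
    intro p
    by_cases hp : p ∈ Z.support
    · have h := hGv (e.symm ⟨p, hp⟩)
      simp only [Equiv.apply_symm_apply] at h
      exact mem_ptIdeal_pow p G d _ hGh h
    · simp [Finsupp.notMem_support_iff.1 hp]
  · intro j
    exact Ideal.pow_right_mono (ptIdeal_le _) _ ((mem_fatIdeal _ _).1 hF (e j).1)

theorem waldschmidt_fat [IsAlgClosed K] (hN : 1 ≤ N) (Z : PP K N →₀ ℕ) (hZ : Z ≠ 0) :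
    ∃ L : ℝ, Tendsto (fun r : ℕ => (alpha (fatIdeal (r • Z)) : ℝ) / r) atTop (𝓝 L) ∧
      ∀ m : ℕ, 1 ≤ m → ((alpha (fatIdeal (m • Z)) : ℝ) + N - 1) / (m + N - 1) ≤ L := by
  have hsub : Subadditive (fun r : ℕ => (alpha (fatIdeal (r • Z)) : ℝ)) := by
    intro a b
    have := alpha_add hN (a • Z) (b • Z)
    rw [← add_smul] at this
    beta_reduce
    exact_mod_cast this
  have hlim := hsub.tendsto_lim ⟨0, by
    rintro _ ⟨r, rfl⟩
    positivity⟩
  refine ⟨_, hlim, fun m hm => ?_⟩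
  refine ge_of_tendsto hlim ?_
  filter_upwards [eventually_ge_atTop 1] with r hr
  have h := demailly_fat hN Z hZ m r hm
  have hr' : (0 : ℝ) < r := by exact_mod_cast hr
  have hm' : (1 : ℝ) ≤ m := by exact_mod_cast hm
  have hN' : (1 : ℝ) ≤ N := by exact_mod_cast hN
  rw [div_le_div_iff₀ (by linarith) hr']
  have h1 : ((r * (alpha (fatIdeal (m • Z)) + N - 1) : ℕ) : ℝ) ≤
      ((alpha (fatIdeal (r • Z)) * (m + N - 1) : ℕ) : ℝ) := by exact_mod_cast h
  rw [Nat.cast_mul, Nat.cast_mul, Nat.cast_sub (by omega), Nat.cast_sub (by omega)] at h1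
  push_cast at h1
  linarith

end Pool.Agent.H925Z.Fat
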