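import Pool.Agent.H925Z.Main

/-!
Regressive colourings: monochromatic sets with four elements always exist, and five elements can be
avoided when `2 ^ κ` is the continuum.
-/

set_option autoImplicit false

universe u

namespace Pool.Agent.H925Z

open Cardinal Set

theorem omega_lt {κ : Cardinal.{u}} (hκ : ℵ₀ < κ) : Ordinal.omega0 < κ.ord := by
  rw [lt_ord]; simpa using hκ

/-- the natural numbers as ordinals below `κ` -/
def io {κ : Cardinal.{u}} (hκ : ℵ₀ < κ) (n : ℕ) : Iio κ.ord :=
  ⟨n, (Ordinal.natCast_lt_omega0 n).trans (omega_lt hκ)⟩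

theorem io_inj {κ : Cardinal.{u}} (hκ : ℵ₀ < κ) : Function.Injective (io hκ) := by
  intro a b h
  have := congrArg Subtype.val h
  simpa [io] using this

theorem exists_io {κ : Cardinal.{u}} (hκ : ℵ₀ < κ) (i : Iio κ.ord) (hi : i.1 < Ordinal.omega0) :
    ∃ n, i = io hκ n := by
  obtain ⟨n, hn⟩ := Ordinal.lt_omega0.1 hi
  exact ⟨n, Subtype.ext hn⟩

theorem exists_io_lt {κ : Cardinal.{u}} (hκ : ℵ₀ < κ) (i : Iio κ.ord) (n : ℕ)
    (hi : i.1 < (n : Ordinal.{u})) : ∃ k < n, i = io hκ k := by
  obtain ⟨k, rfl⟩ := exists_io hκ i (hi.trans (Ordinal.natCast_lt_omega0 n))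
  exact ⟨k, by simpa [io] using hi, rfl⟩

theorem four_mono {κ : Cardinal.{u}} (hκ : ℵ₀ < κ) (c : Sym2 (Seq κ) → Iio κ.ord)
    (hc : Regressive c) : ∃ Y : Set (Seq κ), Y.encard = 4 ∧ Monochromatic c Y := by
  classical
  by_contra hcon
  push Not at hcon
  let Good : ℕ → (ℕ → Fin 2) → Prop := fun n r => ∀ x y : Seq κ,
    (∀ i ≤ n, x (io hκ i) = r i) → (∀ i ≤ n, y (io hκ i) = r i) → x ≠ y →
      ∀ k < n, c s(x, y) ≠ io hκ k
  have step : ∀ n r, Good n r → ∃ b, Good (n + 1) (Function.update r (n + 1) b) := by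
    intro n r hr
    by_contra hno
    push Not at hno
    have key : ∀ b : Fin 2, ∃ x y : Seq κ, (∀ i ≤ n, x (io hκ i) = r i) ∧
        (∀ i ≤ n, y (io hκ i) = r i) ∧ x (io hκ (n + 1)) = b ∧ y (io hκ (n + 1)) = b ∧ x ≠ y ∧
        c s(x, y) = io hκ n := by
      intro b
      have h := hno b
      simp only [Good, not_forall, not_not] at h
      obtain ⟨x, y, hx, hy, hne, k, hk, hck⟩ := h
      have hx' : ∀ i ≤ n, x (io hκ i) = r i := by
        intro i hi
        rw [hx i (by omega), Function.update_of_ne (by omega)]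
      have hy' : ∀ i ≤ n, y (io hκ i) = r i := by
        intro i hi
        rw [hy i (by omega), Function.update_of_ne (by omega)]
      refine ⟨x, y, hx', hy', by rw [hx _ le_rfl]; simp, by rw [hy _ le_rfl]; simp, hne, ?_⟩
      rcases Nat.lt_succ_iff_lt_or_eq.1 hk with h | h
      · exact absurd hck (hr x y hx' hy' hne k h)
      · rw [hck, h]
    have cross : ∀ x y : Seq κ, (∀ i ≤ n, x (io hκ i) = r i) → (∀ i ≤ n, y (io hκ i) = r i) →
        x (io hκ (n + 1)) = 0 → y (io hκ (n + 1)) = 1 → x ≠ y ∧ c s(x, y) = io hκ n := by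
      intro x y hx hy h0 h1
      have hne' : x (io hκ (n + 1)) ≠ y (io hκ (n + 1)) := by rw [h0, h1]; decide
      have hne : x ≠ y := fun e => hne' (by rw [e])
      have hD : Delta x y = ((n + 1 : ℕ) : Ordinal.{u}) := by
        refine Delta_eq (io hκ (n + 1)) ?_ hne'
        intro i hi
        obtain ⟨k, hk, rfl⟩ := exists_io_lt hκ i (n + 1) hi
        rw [hx k (by omega), hy k (by omega)]
      have hlt := hc x y hne (by rw [hD]; exact_mod_cast Nat.succ_pos n)
      rw [hD] at hlt
      obtain ⟨k, hk, hck⟩ := exists_io_lt hκ _ (n + 1) hlt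
      refine ⟨hne, ?_⟩
      rcases Nat.lt_succ_iff_lt_or_eq.1 hk with h | h
      · exact absurd hck (hr x y hx hy hne k h)
      · rw [hck, h]
    obtain ⟨x, x', hx, hx', h0, h0', hne0, hc0⟩ := key 0
    obtain ⟨y, y', hy, hy', h1, h1', hne1, hc1⟩ := key 1
    obtain ⟨n1, c1⟩ := cross x y hx hy h0 h1
    obtain ⟨n2, c2⟩ := cross x y' hx hy' h0 h1'
    obtain ⟨n3, c3⟩ := cross x' y hx' hy h0' h1
    obtain ⟨n4, c4⟩ := cross x' y' hx' hy' h0' h1'
    refine hcon {x, x', y, y'} ?_ ⟨io hκ n, ?_⟩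
    · rw [encard_insert_of_notMem (by simp [hne0, n1, n2]),
        encard_insert_of_notMem (by simp [n3, n4]), encard_pair hne1]
      rfl
    · intro a ha b hb hab
      simp only [mem_insert_iff, mem_singleton_iff] at ha hb
      rcases ha with rfl | rfl | rfl | rfl <;> rcases hb with rfl | rfl | rfl | rfl <;>
        first
          | exact absurd rfl hab
          | assumption
          | (rw [Sym2.eq_swap]; assumption)
  choose! nb hnb using step
  let rs : ℕ → ℕ → Fin 2 := fun n =>
    Nat.rec (fun _ => 0) (fun n r => Function.update r (n + 1) (nb n r)) n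
  have rsS : ∀ n, rs (n + 1) = Function.update (rs n) (n + 1) (nb n (rs n)) := fun n => rfl
  have hgood : ∀ n, Good n (rs n) := by
    intro n
    induction n with
    | zero => intro x y _ _ _ k hk; omega
    | succ n ih => rw [rsS]; exact hnb n _ ih
  have hcoh : ∀ i n, i ≤ n → rs n i = rs i i := by
    intro i n hin
    induction hin with
    | refl => rfl
    | step h ih =>
      rw [rsS, Function.update_of_ne (Nat.lt_succ_of_le h).ne, ih]
  let pt : Fin 2 → Seq κ := fun b i =>
    if h : ∃ n, i = io hκ n then rs h.choose h.choose else b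
  have pt1 : ∀ b n, pt b (io hκ n) = rs n n := by
    intro b n
    have h : ∃ k, io hκ n = io hκ k := ⟨n, rfl⟩
    have e : h.choose = n := (io_inj hκ h.choose_spec).symm
    simp only [pt, dif_pos h, e]
  have pt2 : ∀ b, pt b ⟨Ordinal.omega0, omega_lt hκ⟩ = b := by
    intro b
    have h : ¬ ∃ n, (⟨Ordinal.omega0, omega_lt hκ⟩ : Iio κ.ord) = io hκ n := by
      rintro ⟨n, hn⟩
      exact (Ordinal.natCast_lt_omega0 n).ne' (congrArg Subtype.val hn)
    simp only [pt, dif_neg h]
  have hne' : pt 0 ⟨Ordinal.omega0, omega_lt hκ⟩ ≠ pt 1 ⟨Ordinal.omega0, omega_lt hκ⟩ := by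
    rw [pt2, pt2]; decide
  have hne : pt 0 ≠ pt 1 := fun e => hne' (by rw [e])
  have hD : Delta (pt 0) (pt 1) = Ordinal.omega0 := by
    refine Delta_eq ⟨Ordinal.omega0, omega_lt hκ⟩ ?_ hne'
    intro i hi
    obtain ⟨k, rfl⟩ := exists_io hκ i hi
    rw [pt1, pt1]
  have hlt := hc _ _ hne (by rw [hD]; exact Ordinal.omega0_pos)
  rw [hD] at hlt
  obtain ⟨k, hk⟩ := exists_io hκ _ hlt
  exact hgood (k + 1) (pt 0) (pt 1) (fun i hi => by rw [pt1, hcoh i _ hi])
    (fun i hi => by rw [pt1, hcoh i _ hi]) hne k (Nat.lt_succ_self k) hk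

theorem no_five {κ : Cardinal.{u}} (hκ : ℵ₀ < κ) (heq : (2 : Cardinal.{u}) ^ ℵ₀ = 2 ^ κ) :
    ∃ c : Sym2 (Seq κ) → Iio κ.ord, Regressive c ∧
      ∀ Y : Set (Seq κ), Monochromatic c Y → Y.encard ≤ 4 := by
  classical
  obtain ⟨e⟩ : Nonempty (Seq κ ↪ (ℕ → Fin 2)) := by
    rw [← lift_mk_le']
    have h1 : #(Seq κ) = lift.{u + 1} (2 ^ κ) := by simp [Seq]
    rw [h1, ← heq]
    simp
  let d : Seq κ → Seq κ → ℕ := fun x y => sInf {n | e x n ≠ e y n}
  have d_comm : ∀ x y, d x y = d y x := by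
    intro x y
    simp only [d, ne_comm]
  have d_spec : ∀ x y, x ≠ y → e x (d x y) ≠ e y (d x y) := by
    intro x y hne
    have : {n | e x n ≠ e y n}.Nonempty := Function.ne_iff.1 (fun h => hne (e.injective h))
    exact Nat.sInf_mem this
  let f : Seq κ → Seq κ → Iio κ.ord := fun x y =>
    if Delta x y = 0 then ⟨Ordinal.omega0, omega_lt hκ⟩
    else if Delta x y < Ordinal.omega0 then io hκ ((Delta x y).card.toNat - 1) else io hκ (d x y)
  have f_comm : ∀ x y, f x y = f y x := by
    intro x y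
    simp only [f, Delta_comm x y, d_comm x y]
  refine ⟨Sym2.lift ⟨f, f_comm⟩, ?_, ?_⟩
  · intro x y hne hpos
    rw [Sym2.lift_mk]
    simp only [f, if_neg hpos.ne']
    split_ifs with h
    · obtain ⟨n, hn⟩ := Ordinal.lt_omega0.1 h
      rw [hn] at hpos ⊢
      have hn0 : 0 < n := by exact_mod_cast hpos
      simp only [io, Ordinal.card_nat, toNat_natCast, Nat.cast_lt]
      omega
    · exact (Ordinal.natCast_lt_omega0 _).trans_le (not_lt.1 h)
  · rintro Y ⟨k, hk⟩
    have main : ∃ φ : Seq κ → Fin 2 × Fin 2, InjOn φ Y := by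
      by_cases hkω : k.1 < Ordinal.omega0
      · obtain ⟨j, rfl⟩ := exists_io hκ k hkω
        refine ⟨fun x => (x (io hκ (j + 1)), e x j), ?_⟩
        intro x hx y hy hφ
        by_contra hne
        have hcol := hk x hx y hy hne
        rw [Sym2.lift_mk] at hcol
        simp only [Prod.mk.injEq] at hφ
        simp only [f] at hcol
        split_ifs at hcol with h1 h2
        · exact (Ordinal.natCast_lt_omega0 j).ne' (congrArg Subtype.val hcol)
        · obtain ⟨n, hn⟩ := Ordinal.lt_omega0.1 h2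
          have hj := io_inj hκ hcol
          rw [hn] at hj h1
          simp only [Ordinal.card_nat, toNat_natCast] at hj
          have hn0 : n ≠ 0 := by exact_mod_cast h1
          obtain ⟨δ, hδ, -, hδ2⟩ := Delta_spec hne
          have : δ = io hκ (j + 1) := by
            apply Subtype.ext
            rw [← hδ, hn]
            have : n = j + 1 := by omega
            rw [this]; rfl
          exact hδ2 (this ▸ hφ.1)
        · have hj := io_inj hκ hcol
          exact d_spec x y hne (hj ▸ hφ.2)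
      · refine ⟨fun x => (x (io hκ 0), 0), ?_⟩
        intro x hx y hy hφ
        by_contra hne
        have hcol := hk x hx y hy hne
        rw [Sym2.lift_mk] at hcol
        simp only [Prod.mk.injEq] at hφ
        simp only [f] at hcol
        split_ifs at hcol with h1 h2
        · obtain ⟨δ, hδ, -, hδ2⟩ := Delta_spec hne
          have : δ = io hκ 0 := by
            apply Subtype.ext
            rw [← hδ, h1]; simp [io]
          exact hδ2 (this ▸ hφ.1)
        · exact hkω (hcol ▸ Ordinal.natCast_lt_omega0 _)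
        · exact hkω (hcol ▸ Ordinal.natCast_lt_omega0 _)
    obtain ⟨φ, hφ⟩ := main
    rw [← hφ.encard_image]
    refine (encard_le_card).trans ?_
    simp

theorem uncountable_mono {κ : Cardinal.{u}} (hκ : ℵ₀ < κ)
    (hlt : (2 : Cardinal.{u}) ^ ℵ₀ < 2 ^ κ) (c : Sym2 (Seq κ) → Iio κ.ord)
    (hc : Regressive c) : ∃ Y : Set (Seq κ), ¬ Y.Countable ∧ Monochromatic c Y := by
  obtain ⟨Y, h1, h2⟩ := large_mono (μ := ℵ₀) le_rfl hlt c Ordinal.omega0 (omega_lt hκ) (by simp)
    (fun x y hne hle => hc x y hne (Ordinal.omega0_pos.trans_le hle))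
  refine ⟨Y, fun hY => ?_, h1⟩
  have := le_aleph0_iff_set_countable.2 hY
  rw [lift_aleph0] at h2
  exact absurd this (not_le.2 h2)

end Pool.Agent.H925Z
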