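import Pool.Agent.H925Z.LieNilDefs

/-!
The Heisenberg algebra acting on polynomials in `x, y, z`.
-/

set_option autoImplicit false

namespace Pool.Agent.H925Z.LieNil

open MvPolynomial

variable {K : Type*} [Field K]

abbrev R (K : Type*) [Field K] := MvPolynomial (Fin 3) K

/-- the linear form -/
noncomputable def lin (a b c : K) : R K := C a * X 0 + C b * X 1 + C c * X 2

/-- the derivation -/
noncomputable def der (a b : K) : Derivation K (R K) (R K) := a • pderiv 1 - b • pderiv 0

/-- the operator -/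
noncomputable def op (a b c : K) : Module.End K (R K) :=
  LinearMap.mulLeft K (lin a b c) + (LinearMap.mulLeft K (X 2 : R K)).comp (der a b).toLinearMap

theorem op_apply (a b c : K) (f : R K) : op a b c f = lin a b c * f + X 2 * der a b f := rfl

theorem der_apply (a b : K) (f : R K) : der a b f = C a * pderiv 1 f - C b * pderiv 0 f := by
  simp [der, smul_eq_C_mul]

theorem der_mul (a b : K) (f g : R K) : der a b (f * g) = f * der a b g + g * der a b f := by
  rw [Derivation.leibniz]; simp

theorem der_lin (a b a' b' c' : K) : der a b (lin a' b' c') = C (a * b' - b * a') := by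
  simp [der_apply, lin, pderiv_X]

theorem der_z (a b : K) : der a b (X 2 : R K) = 0 := by
  simp [der_apply, pderiv_X]

theorem pderiv_comm (f : R K) : pderiv 0 (pderiv 1 f) = pderiv 1 (pderiv 0 f) := by
  induction f using MvPolynomial.induction_on with
  | C a => simp
  | add p q hp hq => simp [hp, hq]
  | mul_X p i hp =>
    simp only [Derivation.leibniz, smul_eq_mul, map_add, hp]
    fin_cases i <;> simp [pderiv_X] <;> ring

theorem der_comm (a b a' b' : K) (f : R K) : der a b (der a' b' f) = der a' b' (der a b f) := by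
  simp only [der_apply, map_sub, Derivation.leibniz, smul_eq_mul, pderiv_C, mul_zero,
    pderiv_comm]
  ring

theorem op_add (a b c a' b' c' : K) :
    op a b c + op a' b' c' = op (a + a') (b + b') (c + c') := by
  refine LinearMap.ext fun f => ?_
  simp only [LinearMap.add_apply, op_apply, der_apply, lin, map_add]
  ring

theorem op_smul (t a b c : K) : t • op a b c = op (t * a) (t * b) (t * c) := by
  refine LinearMap.ext fun f => ?_
  simp only [LinearMap.smul_apply, op_apply, der_apply, lin, map_mul, smul_eq_C_mul]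
  ring

theorem op_zero : (0 : Module.End K (R K)) = op 0 0 0 := by
  refine LinearMap.ext fun f => ?_
  simp [op_apply, der_apply, lin]

theorem op_bracket (a b c a' b' c' : K) :
    op a b c * op a' b' c' - op a' b' c' * op a b c = op 0 0 (2 * (a * b' - b * a')) := by
  refine LinearMap.ext fun f => ?_
  simp only [LinearMap.sub_apply, Module.End.mul_apply, op_apply, map_add, der_mul, der_lin, der_z,
    der_comm a b a' b' f]
  simp only [lin, der_apply, map_zero, map_mul, map_sub, map_ofNat]
  ring

/-- the representation -/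
noncomputable def rep : FreeAlgebra K (Fin 2) →ₐ[K] Module.End K (R K) :=
  FreeAlgebra.lift K (fun i : Fin 2 => if i = 0 then op 1 0 0 else op 0 1 0)

theorem rep_L0 {U : FreeAlgebra K (Fin 2)} (h : InL0 K U) : ∃ a b c, rep U = op a b c := by
  induction h with
  | gen i =>
    by_cases hi : i = 0
    · exact ⟨1, 0, 0, by simp [rep, hi]⟩
    · exact ⟨0, 1, 0, by simp [rep, hi]⟩
  | zero => exact ⟨0, 0, 0, by rw [map_zero, op_zero]⟩
  | add _ _ h1 h2 =>
    obtain ⟨a, b, c, h1⟩ := h1
    obtain ⟨a', b', c', h2⟩ := h2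
    exact ⟨_, _, _, by rw [map_add, h1, h2, op_add]⟩
  | smul t _ h1 =>
    obtain ⟨a, b, c, h1⟩ := h1
    exact ⟨_, _, _, by rw [map_smul, h1, op_smul]⟩
  | bracket _ _ h1 h2 =>
    obtain ⟨a, b, c, h1⟩ := h1
    obtain ⟨a', b', c', h2⟩ := h2
    exact ⟨_, _, _, by rw [map_sub, map_mul, map_mul, h1, h2, op_bracket]⟩

/-- the evaluation `x, y ↦ 0`, `z ↦ t` -/
noncomputable def ev : R K →ₐ[K] Polynomial K :=
  aeval (fun i : Fin 3 => if i = 2 then Polynomial.X else 0)

/-- the maximal ideal -/
noncomputable def mm (K : Type*) [Field K] : Ideal (R K) :=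
  Ideal.comap (ev : R K →ₐ[K] Polynomial K) (Ideal.span {Polynomial.X})

theorem X_mem (i : Fin 3) : (X i : R K) ∈ mm K := by
  simp only [mm, Ideal.mem_comap, ev, aeval_X]
  split_ifs
  · exact Ideal.subset_span rfl
  · exact Ideal.zero_mem _

theorem lin_mem (a b c : K) : lin a b c ∈ mm K :=
  Ideal.add_mem _ (Ideal.add_mem _ (Ideal.mul_mem_left _ _ (X_mem 0))
    (Ideal.mul_mem_left _ _ (X_mem 1))) (Ideal.mul_mem_left _ _ (X_mem 2))

theorem op_pow_mul (a b c : K) (g : R K) (hg : der a b g = 0) (n : ℕ) (f : R K) :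
    (op a b c ^ n) (g * f) = g * (op a b c ^ n) f := by
  induction n with
  | zero => simp
  | succ n ih =>
    rw [pow_succ', Module.End.mul_apply, Module.End.mul_apply, ih, op_apply, op_apply, der_mul, hg]
    ring

theorem op_pow_mem (a b c : K) (n : ℕ) (f : R K) : (op a b c ^ n) f ∈ mm K ^ n := by
  induction n generalizing f with
  | zero => simp
  | succ n ih =>
    rw [pow_succ (op a b c), Module.End.mul_apply, op_apply, map_add,
      op_pow_mul a b c _ (by rw [der_lin]; simp [mul_comm]), op_pow_mul a b c _ (der_z a b),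
      pow_succ']
    exact Ideal.add_mem _ (Ideal.mul_mem_mul (lin_mem a b c) (ih _))
      (Ideal.mul_mem_mul (X_mem 2) (ih _))

theorem zder_mem (a b : K) (n : ℕ) : ∀ f ∈ mm K ^ n, X 2 * der a b f ∈ mm K ^ n := by
  induction n with
  | zero => simp
  | succ n ih =>
    intro f hf
    rw [pow_succ] at hf ⊢
    refine Submodule.mul_induction_on hf ?_ ?_
    · intro g hg h hh
      have : X 2 * der a b (g * h) = g * (X 2 * der a b h) + (X 2 * der a b g) * h := by
        rw [der_mul]; ring
      rw [this]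
      exact Ideal.add_mem _ (Ideal.mul_mem_mul hg (Ideal.mul_mem_right _ _ (X_mem 2)))
        (Ideal.mul_mem_mul (ih g hg) hh)
    · intro g h hg hh
      rw [map_add, mul_add]
      exact Ideal.add_mem _ hg hh

theorem op_mem (a b c : K) (n : ℕ) (f : R K) (hf : f ∈ mm K ^ n) : op a b c f ∈ mm K ^ n := by
  rw [op_apply]
  exact Ideal.add_mem _ (Ideal.mul_mem_left _ _ hf) (zder_mem a b n f hf)

theorem rep_mem (n : ℕ) (w : FreeAlgebra K (Fin 2)) : ∀ f ∈ mm K ^ n, rep w f ∈ mm K ^ n := by
  induction w using FreeAlgebra.induction with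
  | grade0 r =>
    intro f hf
    rw [AlgHom.commutes, Module.algebraMap_end_apply, smul_eq_C_mul]
    exact Ideal.mul_mem_left _ _ hf
  | grade1 i =>
    intro f hf
    obtain ⟨a, b, c, h⟩ := rep_L0 (InL0.gen (K := K) i)
    rw [h]
    exact op_mem a b c n f hf
  | mul a b ha hb =>
    intro f hf
    rw [map_mul, Module.End.mul_apply]
    exact ha _ (hb _ hf)
  | add a b ha hb =>
    intro f hf
    rw [map_add, LinearMap.add_apply]
    exact Ideal.add_mem _ (ha _ hf) (hb _ hf)

theorem ideal_mem (n : ℕ) (w : FreeAlgebra K (Fin 2)) (hw : w ∈ nilIdeal K n) :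
    ∀ f, rep w f ∈ mm K ^ n := by
  induction hw using TwoSidedIdeal.span_induction with
  | mem x h =>
    obtain ⟨U, hU, rfl⟩ := h
    obtain ⟨a, b, c, h⟩ := rep_L0 hU
    intro f
    rw [map_pow, h]
    exact op_pow_mem a b c n f
  | zero => intro f; simp
  | add x y _ _ hx hy =>
    intro f
    rw [map_add, LinearMap.add_apply]
    exact Ideal.add_mem _ (hx f) (hy f)
  | neg x _ hx =>
    intro f
    rw [map_neg, LinearMap.neg_apply]
    exact Submodule.neg_mem _ (hx f)
  | left_absorb a x _ hx =>
    intro f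
    rw [map_mul, Module.End.mul_apply]
    exact rep_mem n a _ (hx f)
  | right_absorb b x _ hx =>
    intro f
    rw [map_mul, Module.End.mul_apply]
    exact hx _

theorem Y_pow (k : ℕ) : (op (0 : K) 1 0 ^ k) 1 = X 1 ^ k := by
  induction k with
  | zero => simp
  | succ k ih =>
    rw [pow_succ', Module.End.mul_apply, ih, op_apply, der_apply]
    simp [lin, pderiv_X, pow_succ']

theorem X_pow (j k : ℕ) : ev ((op (1 : K) 0 0 ^ j) (X 1 ^ k)) =
    if j = k then (k.factorial : Polynomial K) * Polynomial.X ^ k else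
      ev ((op (1 : K) 0 0 ^ j) (X 1 ^ k)) := by
  split_ifs with h
  swap
  · rfl
  subst h
  induction j with
  | zero => simp
  | succ j ih =>
    have h0 : der (1 : K) 0 (X 0 : R K) = 0 := by simp [der_apply, pderiv_X]
    have h1 : op (1 : K) 0 0 (X 1 ^ (j + 1)) =
        X 0 * X 1 ^ (j + 1) + (X 2 * C ((j + 1 : ℕ) : K)) * X 1 ^ j := by
      rw [op_apply, der_apply]
      simp [lin, pderiv_X, mul_assoc]
    have h2 : der (1 : K) 0 (X 2 * C ((j + 1 : ℕ) : K) : R K) = 0 := by
      rw [der_mul, der_z]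
      simp [der_apply]
    rw [pow_succ, Module.End.mul_apply, h1, map_add, op_pow_mul _ _ _ _ h0, op_pow_mul _ _ _ _ h2,
      map_add, map_mul, map_mul, ih]
    simp [ev, Nat.factorial_succ]
    ring

theorem not_mem (k : ℕ) (hk : (k.factorial : K) ≠ 0) :
    FreeAlgebra.ι K (0 : Fin 2) ^ k * FreeAlgebra.ι K (1 : Fin 2) ^ k ∉ nilIdeal K (k + 1) := by
  intro h
  have h1 := ideal_mem (k + 1) _ h 1
  have e0 : rep (FreeAlgebra.ι K (0 : Fin 2)) = op 1 0 0 := by simp [rep]
  have e1 : rep (FreeAlgebra.ι K (1 : Fin 2)) = op 0 1 0 := by simp [rep]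
  rw [map_mul, map_pow, map_pow, e0, e1, Module.End.mul_apply, Y_pow] at h1
  have h2 := Ideal.mem_map_of_mem (ev : R K →ₐ[K] Polynomial K) h1
  rw [Ideal.map_pow, X_pow, if_pos rfl] at h2
  have h3 := Ideal.pow_right_mono (Ideal.map_comap_le (f := (ev : R K →ₐ[K] Polynomial K))
    (K := Ideal.span {Polynomial.X})) (k + 1) h2
  rw [Ideal.span_singleton_pow, Ideal.mem_span_singleton, Polynomial.X_pow_dvd_iff] at h3
  have h4 := h3 k (Nat.lt_succ_self k)
  apply hk
  simpa using h4

end Pool.Agent.H925Z.LieNil
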