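import Mathlib

/-!
The two-generator Lie-nil associative algebra.
-/

set_option autoImplicit false

namespace Pool.Agent.H925Z.LieNil

/-- `L₀`: the Lie subalgebra of the free associative algebra `K⟨X, Y⟩` generated by the two
variables under the bracket `S T - T S`. -/
inductive InL0 (K : Type*) [Field K] : FreeAlgebra K (Fin 2) → Prop
  | gen (i : Fin 2) : InL0 K (FreeAlgebra.ι K i)
  | zero : InL0 K 0
  | add {S T : FreeAlgebra K (Fin 2)} : InL0 K S → InL0 K T → InL0 K (S + T)
  | smul (a : K) {S : FreeAlgebra K (Fin 2)} : InL0 K S → InL0 K (a • S)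
  | bracket {S T : FreeAlgebra K (Fin 2)} : InL0 K S → InL0 K T → InL0 K (S * T - T * S)

/-- `I`: the two-sided ideal generated by all `U ^ n` with `U ∈ L₀`. -/
def nilIdeal (K : Type*) [Field K] (n : ℕ) : TwoSidedIdeal (FreeAlgebra K (Fin 2)) :=
  TwoSidedIdeal.span {a | ∃ U, InL0 K U ∧ a = U ^ n}

end Pool.Agent.H925Z.LieNil
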