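import Pool.Agent.Helper292.ForceCH
import Pool.Agent.H631R2.Cohen

/-!
Cohen forcing makes `2 ^ ℵ₀ = 2 ^ ℵ₁` and keeps `ω₁`.
-/

set_option autoImplicit false

namespace Pool.Agent.H925Z.Luzin

open Cardinal Pool.Agent.Helper292.ForceCH

/-- In the extension the ground model set `I` is mapped onto the set of all subsets of `ω₁` and
injectively into the set of all subsets of `ℕ`; so `2 ^ ℵ₁ ≤ |I| ≤ 2 ^ ℵ₀`. -/
def PowersEqual (P : Type) [Preorder P] (I : Type) : Set P :=
  fand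
    (fex fun E : I → Om → Set P => fall fun x : Om → Set P => fex fun a : I =>
      fall fun n : Om => fiff (meets (x n)) (meets (E a n)))
    (fex fun R : I → ℕ → Set P => fall fun a : I => fall fun b : I => fall fun _ : a ≠ b =>
      fnot (fall fun n : ℕ => fiff (meets (R a n)) (meets (R b n))))

section
variable {P : Type} [Preorder P]

def CCC (P : Type) [Preorder P] : Prop :=
  ∀ W : Set P, (∀ p ∈ W, ∀ q ∈ W, p ≠ q → ¬ ∃ r, r ≤ p ∧ r ≤ q) → W.Countable

theorem omegaOne_of_ccc (h : CCC P) (p : P) : p ∈ OmegaOnePreserved P := by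
  intro q _ hq
  obtain ⟨r, -, R, hfun, honto⟩ := mem_fex.1 hq q le_rfl
  have huniq : ∀ s ≤ r, ∀ n y y', s ∈ meets (R n y) → s ∈ meets (R n y') → y = y' := by
    intro s hs n y y' h1 h2
    obtain ⟨_, _, h3⟩ := mem_fimp.1 (hfun.2 n y y') s hs ⟨h1, h2⟩
    exact h3
  have hc : ∀ n, {y : Om | ∃ s ≤ r, s ∈ meets (R n y)}.Countable := by
    intro n
    have : ∀ y : {y : Om | ∃ s ≤ r, s ∈ meets (R n y)}, ∃ s ≤ r, s ∈ meets (R n y) :=
      fun y => y.2
    choose f hf1 hf2 using this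
    have hinj : Function.Injective f := by
      intro a b hab
      exact Subtype.ext (huniq _ (hf1 a) n _ _ (hf2 a) (hab ▸ hf2 b))
    have hW : (Set.range f).Countable := by
      apply h
      rintro _ ⟨a, rfl⟩ _ ⟨b, rfl⟩ hne ⟨t, ta, tb⟩
      apply hne
      congr 1
      exact Subtype.ext (huniq t (ta.trans (hf1 a)) n _ _ (down_meets _ _ (hf2 a) _ ta)
        (down_meets _ _ (hf2 b) _ tb))
    have : Countable (Set.range f) := hW
    exact (Set.rangeFactorization_injective.2 hinj).countable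
  have hall : (Set.univ : Set Om).Countable := by
    refine (Set.countable_iUnion hc).mono fun y _ => ?_
    obtain ⟨s, hs, n, hn⟩ := mem_fex.1 (honto y) r le_rfl
    exact Set.mem_iUnion.2 ⟨n, s, hs, hn⟩
  have : Countable Om := Set.countable_univ_iff.1 hall
  have hne : Nonempty Om := by
    obtain ⟨_, _, y, _⟩ := mem_fex.1 (hfun.1 0) r le_rfl
    exact ⟨y⟩
  obtain ⟨f, hf⟩ := exists_surjective_nat Om
  obtain ⟨a, ha⟩ := exists_bound f
  obtain ⟨n, rfl⟩ := hf a
  exact lt_irrefl _ (ha n)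

theorem exists_nice (h : CCC P) (N : Set P) : ∃ f : ℕ → Option P,
    meets N = meets {p | ∃ k, f k = some p} := by
  let D : Set P := {r | ∃ s ∈ N, r ≤ s}
  obtain ⟨A, hA⟩ := zorn_subset
    {A : Set P | A ⊆ D ∧ ∀ p ∈ A, ∀ q ∈ A, p ≠ q → ¬ ∃ r, r ≤ p ∧ r ≤ q} (by
      intro c hc hch
      refine ⟨⋃₀ c, ⟨Set.sUnion_subset fun t ht => (hc ht).1, ?_⟩,
        fun s hs => Set.subset_sUnion_of_mem hs⟩
      rintro p ⟨s, hs, hp⟩ q ⟨t, ht, hq⟩
      rcases hch.total hs ht with h1 | h1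
      · exact (hc ht).2 p (h1 hp) q hq
      · exact (hc hs).2 p hp q (h1 hq))
  have hcount : A.Countable := h A hA.prop.2
  have hf : ∃ f : ℕ → Option P, {p | ∃ k, f k = some p} = A := by
    have : (insert none (some '' A) : Set (Option P)).Countable :=
      (hcount.image _).insert _
    obtain ⟨f, hf⟩ := this.exists_eq_range ⟨none, Set.mem_insert _ _⟩
    refine ⟨f, Set.ext fun p => ?_⟩
    have : some p ∈ Set.range f ↔ p ∈ A := by
      rw [← hf]
      simp
    exact this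
  obtain ⟨f, hf⟩ := hf
  refine ⟨f, ?_⟩
  rw [hf]
  ext p
  constructor
  · intro hp q hq
    obtain ⟨r, hr, hrD⟩ := hp q hq
    by_contra hcon
    have hr' : ∀ a ∈ A, ¬ ∃ t, t ≤ r ∧ t ≤ a := by
      rintro a ha ⟨t, t1, t2⟩
      exact hcon ⟨t, t1.trans hr, a, ha, t2⟩
    have : insert r A ⊆ A := by
      apply hA.le_of_ge _ (Set.subset_insert _ _)
      refine ⟨Set.insert_subset hrD hA.prop.1, ?_⟩
      rintro a (rfl | ha) b (rfl | hb) hne
      · exact absurd rfl hne
      · exact hr' b hb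
      · rintro ⟨t, t1, t2⟩
        exact hr' a ha ⟨t, t2, t1⟩
      · exact hA.prop.2 a ha b hb hne
    exact hr' r (this (Set.mem_insert _ _)) ⟨r, le_rfl, le_rfl⟩
  · intro hp q hq
    obtain ⟨r, hr, a, ha, hra⟩ := hp q hq
    obtain ⟨s, hs, has⟩ := hA.prop.1 ha
    exact ⟨r, hr, s, hs, hra.trans has⟩

end

theorem exists_forcing : ∃ (P : Type) (_ : Preorder P) (I : Type), Nonempty P ∧
    ∀ p : P, p ∈ OmegaOnePreserved P ∧ p ∈ PowersEqual P I := by
  classical
  let I : Type := Set Om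
  let P : Type := H631R2.Cond (I × ℕ)
  have hccc : CCC P := fun W hW => by
    have := H631R2.Cond.ccc W hW
    exact Cardinal.le_aleph0_iff_set_countable.1 this
  have hOm : #Om = ℵ₁ := by simp [Om]
  have hI : #I = 2 ^ (ℵ₁ : Cardinal.{0}) := by rw [mk_set, hOm]
  have h2 : ℵ₀ ≤ (2 : Cardinal.{0}) ^ (ℵ₁ : Cardinal.{0}) :=
    aleph0_lt_aleph_one.le.trans (cantor _).le
  have hinf : Infinite I := by
    rw [Cardinal.infinite_iff, hI]; exact h2
  have hP : #P ≤ 2 ^ (ℵ₁ : Cardinal.{0}) := by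
    have hinj : Function.Injective fun p : P => p.s := by
      rintro ⟨a, _⟩ ⟨b, _⟩ hab
      cases hab
      rfl
    refine (mk_le_of_injective hinj).trans ?_
    rw [mk_finset_of_infinite, mk_prod, mk_prod, lift_id, lift_id, lift_id, lift_id, hI,
      mk_nat, mk_bool, mul_eq_left h2 h2 aleph0_ne_zero,
      mul_eq_left h2 (le_trans (by exact_mod_cast (natCast_lt_aleph0 (n := 2)).le) h2) two_ne_zero]
  have hcard : #(Om → ℕ → Option P) ≤ #I := by
    have ho : #(Option P) ≤ 2 ^ (ℵ₁ : Cardinal.{0}) := by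
      rw [mk_option]
      exact add_le_of_le h2 hP (one_le_aleph0.trans h2)
    rw [← power_def, ← power_def, hOm, mk_nat, hI, ← power_mul,
      mul_eq_right aleph0_lt_aleph_one.le aleph0_lt_aleph_one.le aleph0_ne_zero]
    refine (power_le_power_right ho).trans ?_
    rw [← power_mul, mul_eq_self aleph0_lt_aleph_one.le]
  obtain ⟨e⟩ := hcard
  let σ : I → Om → ℕ → Option P := Function.invFun e
  have hσ : Function.Surjective σ := Function.invFun_surjective e.injective
  refine ⟨P, inferInstance, I, ⟨⟨∅, by simp⟩⟩, fun p => ⟨omegaOne_of_ccc hccc p, ?_, ?_⟩⟩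
  · refine mem_fex.2 fun q _ => ⟨q, le_rfl, fun a n => {p | ∃ k, σ a n k = some p}, fun x => ?_⟩
    choose f hf using fun n => exists_nice hccc (x n)
    obtain ⟨a, ha⟩ := hσ f
    refine mem_fex.2 fun r _ => ⟨r, le_rfl, a, fun n => ?_⟩
    show r ∈ fiff (meets (x n)) (meets {p | ∃ k, σ a n k = some p})
    rw [ha, hf n]
    exact ⟨fimp_of fun _ _ h => h, fimp_of fun _ _ h => h⟩
  · refine mem_fex.2 fun q _ => ⟨q, le_rfl, fun a n => {p | ((a, n), true) ∈ p.s}, ?_⟩
    intro a b hab r _ hr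
    have hfin : (Prod.snd '' r.dom).Finite := r.dom_finite.image _
    obtain ⟨n, hn⟩ := hfin.infinite_compl.nonempty
    have h1 : (a, n) ∉ r.dom := fun h => hn ⟨_, h, rfl⟩
    obtain ⟨r1, hr1, m1, s1⟩ := r.exists_ext h1 true
    have h2' : (b, n) ∉ r1.dom := by
      intro h
      obtain ⟨c, hc⟩ := H631R2.Cond.mem_dom.1 h
      rcases s1 _ hc with h | h
      · exact hab (congrArg (fun x => x.1.1) h).symm
      · exact hn ⟨_, H631R2.Cond.mem_dom.2 ⟨c, h⟩, rfl⟩
    obtain ⟨r2, hr2, m2, -⟩ := r1.exists_ext h2' false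
    obtain ⟨t, ht, hm⟩ := mem_fimp.1 (hr n).1 r2 (hr2.trans hr1)
      (fun u hu => ⟨u, le_rfl, r1, m1, hu.trans hr2⟩)
    obtain ⟨u, hu, s, hs, hus⟩ := hm t le_rfl
    exact u.fn _ (hus hs) ((hu.trans ht) m2)

end Pool.Agent.H925Z.Luzin
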