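import Pool.Agent.H925Z.Tree
import Pool.Agent.H925Z.Defs

/-!
Large monochromatic sets for colourings of pairs of `2 ^ κ`.
-/

set_option autoImplicit false

universe u

namespace Pool.Agent.H925Z

open Cardinal Set

theorem Delta_eq {κ : Cardinal.{u}} {x y : Seq κ} (δ : Iio κ.ord)
    (h1 : ∀ i < δ, x i = y i) (h2 : x δ ≠ y δ) : Delta x y = δ.1 := by
  apply le_antisymm
  · exact csInf_le' ⟨δ.2, h2⟩
  · refine le_csInf ⟨δ.1, δ.2, h2⟩ ?_
    rintro i ⟨hi, hne⟩
    by_contra hlt
    exact hne (h1 ⟨i, hi⟩ (not_le.1 hlt))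

theorem Delta_spec {κ : Cardinal.{u}} {x y : Seq κ} (h : x ≠ y) :
    ∃ δ : Iio κ.ord, Delta x y = δ.1 ∧ (∀ i < δ, x i = y i) ∧ x δ ≠ y δ := by
  obtain ⟨i, hi⟩ := Function.ne_iff.1 h
  let A : Set (Iio κ.ord) := {i | x i ≠ y i}
  have hA : A.Nonempty := ⟨i, hi⟩
  have h1 : ∀ j < wellFounded_lt.min A hA, x j = y j := by
    intro j hj
    by_contra hcon
    exact wellFounded_lt.not_lt_min A (show j ∈ A from hcon) hj
  have h2 := wellFounded_lt.min_mem A hA
  exact ⟨_, Delta_eq _ h1 h2, h1, h2⟩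

theorem Delta_comm {κ : Cardinal.{u}} (x y : Seq κ) : Delta x y = Delta y x := by
  unfold Delta
  congr 1
  ext i
  simp only [mem_ofPred_eq, ne_comm]

/-- The general theorem: only the pairs with `Δ ≥ m` matter. -/
theorem large_mono {κ μ : Cardinal.{u}} (hμ : ℵ₀ ≤ μ) (hlt : (2 : Cardinal.{u}) ^ μ < 2 ^ κ)
    (c : Sym2 (Seq κ) → Iio κ.ord) (m : Ordinal.{u}) (hm : m < κ.ord) (hmμ : m.card ≤ μ)
    (hc : ∀ x y : Seq κ, x ≠ y → m ≤ Delta x y → (c s(x, y) : Ordinal.{u}) < Delta x y) :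
    ∃ Y : Set (Seq κ), Monochromatic c Y ∧ lift.{u + 1} μ < #Y := by
  classical
  let K := Iio κ.ord
  let μ' : Cardinal.{u + 1} := lift.{u + 1} μ
  let P : K → Prop := fun i => (2 : Cardinal.{u + 1}) ^ #(Iio i) ≤ 2 ^ μ'
  have Plow : ∀ i j : K, j ≤ i → P i → P j := by
    intro i j hji hi
    exact (power_le_power_left two_ne_zero (mk_le_mk_of_subset (Iio_subset_Iio hji))).trans hi
  let I := {i : K // P i}
  have S : Setting I μ' := by
    refine ⟨by simpa [μ'] using hμ, ?_, ?_⟩
    · intro i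
      refine le_trans (power_le_power_left two_ne_zero ?_) i.2
      exact mk_le_of_injective (f := fun j : Iio i => (⟨j.1.1, j.2⟩ : Iio i.1))
        (fun a b hab => Subtype.ext (Subtype.ext (Subtype.mk.inj hab)))
    · by_cases hall : ∀ i, P i
      · have e : #I = lift.{u + 1} κ := by
          have : #I = #K := mk_congr (Equiv.subtypeUnivEquiv hall)
          rw [this]
          simp [K]
        rw [e]
        have := lift_lt.{u, u + 1}.2 hlt
        simpa [μ'] using this
      · push Not at hall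
        let A : Set K := {i | ¬ P i}
        have hA : A.Nonempty := hall
        set ν := wellFounded_lt.min A hA
        have h1 : ¬ P ν := wellFounded_lt.min_mem A hA
        have h2 : ∀ j < ν, P j := by
          intro j hj
          by_contra hcon
          exact wellFounded_lt.not_lt_min A (show j ∈ A from hcon) hj
        refine (not_le.1 h1).trans_le (power_le_power_left two_ne_zero ?_)
        exact mk_le_of_injective (f := fun j : Iio ν => (⟨j.1, h2 j.1 j.2⟩ : I))
          (fun a b hab => Subtype.ext (Subtype.mk.inj hab))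
  have hPm : P ⟨m, hm⟩ := by
    refine power_le_power_left two_ne_zero ?_
    have h1 : #(Iio (⟨m, hm⟩ : K)) ≤ #(Iio m) :=
      mk_le_of_injective (f := fun j : Iio (⟨m, hm⟩ : K) => (⟨j.1.1, j.2⟩ : Iio m))
        (fun a b hab => Subtype.ext (Subtype.ext (Subtype.mk.inj hab)))
    refine h1.trans ?_
    rw [Cardinal.mk_Iio_ordinal]
    exact lift_le.2 hmμ
  let ext : (I → Bool) → Seq κ := fun x i =>
    if h : P i then (if x ⟨i, h⟩ then 1 else 0) else 0
  have hext : ∀ x y (i : I), ext x i.1 = ext y i.1 ↔ x i = y i := by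
    intro x y i
    simp only [ext, dif_pos i.2]
    change (if x i = true then (1 : Fin 2) else 0) = (if y i = true then 1 else 0) ↔ _
    cases x i <;> cases y i <;> simp
  have hinj : Function.Injective ext := by
    intro x y hxy
    funext i
    exact (hext x y i).1 (congrFun hxy i.1)
  obtain ⟨Y, k, hY, hk⟩ := S.mono (K := K) Subtype.val ⟨⟨m, hm⟩, hPm⟩
    (fun x y => c s(ext x, ext y)) (fun x y => by rw [Sym2.eq_swap]) (by
      intro x y δ hmδ h1 h2
      have hD : Delta (ext x) (ext y) = δ.1.1 := by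
        apply Delta_eq
        · intro i hi
          have hPi : P i := Plow _ _ hi.le δ.2
          exact (hext x y ⟨i, hPi⟩).2 (h1 _ hi)
        · exact fun e => h2 ((hext x y δ).1 e)
      have hne : ext x ≠ ext y := fun e => h2 (congrFun (hinj e) δ)
      have hlt := hc _ _ hne (by rw [hD]; exact hmδ)
      rw [hD] at hlt
      exact ⟨⟨c s(ext x, ext y), Plow _ _ (le_of_lt hlt) δ.2⟩, hlt, rfl⟩)
  refine ⟨ext '' Y, ⟨k, ?_⟩, ?_⟩
  · rintro _ ⟨x, hx, rfl⟩ _ ⟨y, hy, rfl⟩ hne
    exact hk x hx y hy (fun e => hne (congrArg ext e))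
  · rw [mk_image_eq hinj]
    by_contra hle
    exact absurd (power_le_power_left two_ne_zero (not_lt.1 hle)) (not_le.2 hY)

theorem almost_mono {κ : Cardinal.{u}} (hκ : ℵ₀ < κ)
    (hexp : ∀ μ < κ, (2 : Cardinal.{u}) ^ μ < 2 ^ κ)
    (c : Sym2 (Seq κ) → Iio κ.ord) (hc : AlmostRegressive c) (lam : Cardinal.{u}) (hlam : lam < κ) :
    ∃ Y : Set (Seq κ), Monochromatic c Y ∧ Y.Infinite ∧ lift.{u + 1} lam < #Y := by
  obtain ⟨m, hm, hc⟩ := hc
  have hm' : m.card < κ := lt_ord.1 hm
  obtain ⟨Y, h1, h2⟩ := large_mono (μ := max ℵ₀ (max lam m.card)) (le_max_left _ _)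
    (hexp _ (max_lt hκ (max_lt hlam hm'))) c m hm ((le_max_right _ _).trans (le_max_right _ _))
    (fun x y hne hle => by
      have := hc x y hne
      rwa [max_eq_left hle] at this)
  refine ⟨Y, h1, ?_, lt_of_le_of_lt (lift_le.2 ((le_max_left _ _).trans (le_max_right _ _))) h2⟩
  rw [← infinite_coe_iff, ← aleph0_le_mk_iff]
  refine le_trans ?_ h2.le
  simp

end Pool.Agent.H925Z
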