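import Mathlib

/-!
Left invariant zero-dimensional topologies on a free monoid: a finest one among those refining
the tree topology of an ultrafilter has finitely many ultrafilters converging to the empty word.
-/

namespace Pool.Agent.H925Z.MaxTop

open Filter Set

universe u

variable {Λ : Type u}

/-- Left shift of a set of words. -/
def sh (s : List Λ) (A : Set (List Λ)) : Set (List Λ) := {t | s ++ t ∈ A}

@[simp] theorem mem_sh {s t : List Λ} {A : Set (List Λ)} : t ∈ sh s A ↔ s ++ t ∈ A := Iff.rfl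

@[simp] theorem sh_nil (A : Set (List Λ)) : sh [] A = A := by ext; simp

theorem sh_compl (s : List Λ) (A : Set (List Λ)) : sh s Aᶜ = (sh s A)ᶜ := rfl

theorem sh_inter (s : List Λ) (A B : Set (List Λ)) : sh s (A ∩ B) = sh s A ∩ sh s B := rfl

theorem sh_sh (s t : List Λ) (A : Set (List Λ)) : sh t (sh s A) = sh (s ++ t) A := by
  ext; simp

/-- Words at which the shifted set is large for the ultrafilter. -/
def pw (b : Ultrafilter (List Λ)) (A : Set (List Λ)) : Set (List Λ) := {s | sh s A ∈ b}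

@[simp] theorem mem_pw {b : Ultrafilter (List Λ)} {A : Set (List Λ)} {s : List Λ} :
    s ∈ pw b A ↔ sh s A ∈ b := Iff.rfl

theorem sh_pw (b : Ultrafilter (List Λ)) (A : Set (List Λ)) (s : List Λ) :
    sh s (pw b A) = pw b (sh s A) := by
  ext t; simp [sh_sh]

theorem pw_compl (b : Ultrafilter (List Λ)) (A : Set (List Λ)) : pw b Aᶜ = (pw b A)ᶜ := by
  ext t; simp [sh_compl, Ultrafilter.compl_mem_iff_notMem]

theorem pw_inter (b : Ultrafilter (List Λ)) (A B : Set (List Λ)) :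
    pw b (A ∩ B) = pw b A ∩ pw b B := by
  ext t
  simp only [mem_pw, sh_inter, mem_inter_iff]
  exact Filter.inter_mem_iff

/-- Clopen sets of the left invariant topology with punctured neighbourhood filter `N`. -/
def Clop (N : Filter (List Λ)) (C : Set (List Λ)) : Prop :=
  ∀ s, (s ∈ C → sh s C ∈ N) ∧ (s ∉ C → sh s Cᶜ ∈ N)

theorem Clop.mono {N M : Filter (List Λ)} {C : Set (List Λ)} (h : Clop N C) (hle : M ≤ N) :
    Clop M C := fun s => ⟨fun hs => hle ((h s).1 hs), fun hs => hle ((h s).2 hs)⟩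

theorem Clop.inter {N : Filter (List Λ)} {C D : Set (List Λ)} (hC : Clop N C) (hD : Clop N D) :
    Clop N (C ∩ D) := by
  intro s
  refine ⟨fun hs => inter_mem ((hC s).1 hs.1) ((hD s).1 hs.2), fun hs => ?_⟩
  by_cases h : s ∈ C
  · have h2 : s ∉ D := fun h' => hs ⟨h, h'⟩
    exact mem_of_superset ((hD s).2 h2) (fun t ht h' => ht h'.2)
  · exact mem_of_superset ((hC s).2 h) (fun t ht h' => ht h'.1)

theorem Clop.univ (N : Filter (List Λ)) : Clop N (univ : Set (List Λ)) :=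
  fun _ => ⟨fun _ => univ_mem, fun h => (h (mem_univ _)).elim⟩

theorem Clop.biInter {N : Filter (List Λ)} {ι : Type*} {I : Set ι} (hI : I.Finite)
    {C : ι → Set (List Λ)} (hC : ∀ i ∈ I, Clop N (C i)) : Clop N (⋂ i ∈ I, C i) := by
  induction I, hI using Set.Finite.induction_on with
  | empty => simpa using Clop.univ N
  | insert _ _ ih =>
    rw [biInter_insert]
    exact (hC _ (mem_insert _ _)).inter (ih fun i hi => hC i (mem_insert_of_mem _ hi))

theorem Clop.mem {N : Filter (List Λ)} {C : Set (List Λ)} (h : Clop N C) (h0 : [] ∈ C) :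
    C ∈ N := by simpa using (h []).1 h0

theorem Clop.pw_eq {N : Filter (List Λ)} {C : Set (List Λ)} (h : Clop N C)
    {b : Ultrafilter (List Λ)} (hb : (b : Filter _) ≤ N) : pw b C = C := by
  ext s
  refine ⟨fun hs => ?_, fun hs => hb ((h s).1 hs)⟩
  by_contra hn
  have := hb ((h s).2 hn)
  rw [sh_compl] at this
  exact (Ultrafilter.compl_mem_iff_notMem.1 this) hs

/-- Nonempty words all of whose letters lie in the set attached to the preceding word. -/
def W (A : List Λ → Set Λ) : Set (List Λ) :=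
  {t | t ≠ [] ∧ ∀ s w r, t = s ++ w :: r → w ∈ A s}

/-- The filters among which a finest one is chosen. -/
structure Good (a : Ultrafilter Λ) (N : Filter (List Λ)) : Prop where
  neBot : N.NeBot
  ne : {[]}ᶜ ∈ N
  base : ∀ P ∈ N, ∃ C, Clop N C ∧ [] ∈ C ∧ C ⊆ P ∪ {[]}
  tree : ∀ A : List Λ → Set Λ, (∀ s, A s ∈ a) → W A ∈ N

theorem append_eq_split {s t g r : List Λ} {w : Λ} (h : s ++ t = g ++ w :: r) :
    (∃ r', s = g ++ w :: r') ∨ ∃ g', g = s ++ g' ∧ t = g' ++ w :: r := by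
  rcases List.append_eq_append_iff.1 h with ⟨a', h1, h2⟩ | ⟨c', h1, h2⟩
  · exact Or.inr ⟨a', h1, h2⟩
  · cases c' with
    | nil => exact Or.inr ⟨[], by simpa using h1.symm, by simpa using h2.symm⟩
    | cons x c =>
      simp only [List.cons_append, List.cons.injEq] at h2
      exact Or.inl ⟨c, by rw [h1, h2.1]⟩

theorem clop_W {a : Ultrafilter Λ} {N : Filter (List Λ)}
    (tree : ∀ A : List Λ → Set Λ, (∀ s, A s ∈ a) → W A ∈ N)
    (A : List Λ → Set Λ) (hA : ∀ s, A s ∈ a) : Clop N (W A ∪ {[]}) := by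
  intro s
  constructor
  · intro hs
    refine mem_of_superset (tree (fun g => A (s ++ g)) (fun g => hA _)) ?_
    rintro t ⟨ht, ht2⟩
    refine Or.inl ⟨by simp [ht], ?_⟩
    intro g w r h
    rcases append_eq_split h with ⟨r', h1⟩ | ⟨g', h1, h2⟩
    · rcases hs with hs | hs
      · exact hs.2 _ _ _ h1
      · simp only [mem_singleton_iff] at hs
        rw [hs] at h1; simp at h1
    · rw [h1]; exact ht2 _ _ _ h2
  · intro hs
    refine mem_of_superset univ_mem ?_
    intro t _ h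
    have hs0 : s ≠ [] := fun h0 => hs (Or.inr h0)
    rcases h with h | h
    · refine hs (Or.inl ⟨hs0, ?_⟩)
      intro g w r hg
      exact h.2 g w (r ++ t) (by rw [hg]; simp)
    · simp only [mem_singleton_iff, List.append_eq_nil_iff] at h
      exact hs0 h.1

/-- The tree filter. -/
def treeF (a : Ultrafilter Λ) : Filter (List Λ) where
  sets := {P | ∃ A : List Λ → Set Λ, (∀ s, A s ∈ a) ∧ W A ⊆ P}
  univ_sets := ⟨fun _ => univ, fun _ => univ_mem, subset_univ _⟩
  sets_of_superset := fun ⟨A, hA, h⟩ h' => ⟨A, hA, h.trans h'⟩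
  inter_sets := fun ⟨A, hA, h⟩ ⟨B, hB, h'⟩ =>
    ⟨fun s => A s ∩ B s, fun s => inter_mem (hA s) (hB s), fun _ ht =>
      ⟨h ⟨ht.1, fun s w r e => (ht.2 s w r e).1⟩, h' ⟨ht.1, fun s w r e => (ht.2 s w r e).2⟩⟩⟩

theorem good_treeF (a : Ultrafilter Λ) : Good a (treeF a) := by
  have tree : ∀ A : List Λ → Set Λ, (∀ s, A s ∈ a) → W A ∈ treeF a :=
    fun A hA => ⟨A, hA, Subset.rfl⟩
  refine ⟨?_, ?_, ?_, tree⟩
  · rw [← forall_mem_nonempty_iff_neBot]
    rintro P ⟨A, hA, h⟩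
    obtain ⟨w, hw⟩ := a.nonempty_of_mem (hA [])
    refine ⟨[w], h ⟨by simp, ?_⟩⟩
    intro s w' r e
    cases s with
    | nil => simp at e; rw [← e.1]; exact hw
    | cons x s => simp at e
  · exact ⟨fun _ => univ, fun _ => univ_mem, fun t ht => ht.1⟩
  · rintro P ⟨A, hA, h⟩
    exact ⟨W A ∪ {[]}, clop_W tree A hA, Or.inr rfl, union_subset_union_left _ h⟩

theorem good_sInf (a : Ultrafilter Λ) (c : Set (Filter (List Λ))) (hc : ∀ f ∈ c, Good a f)
    (hd : DirectedOn (· ≥ ·) c) (hne : c.Nonempty) : Good a (sInf c) := by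
  obtain ⟨y, hy⟩ := hne
  have hmem : ∀ P, P ∈ sInf c ↔ ∃ f ∈ c, P ∈ f := by
    intro P
    rw [sInf_eq_iInf]
    exact mem_biInf_of_directed (f := fun f : Filter (List Λ) => f) hd ⟨y, hy⟩
  have hle : ∀ f ∈ c, sInf c ≤ f := fun f hf => sInf_le hf
  refine ⟨?_, ?_, ?_, ?_⟩
  · rw [← forall_mem_nonempty_iff_neBot]
    intro P hP
    obtain ⟨f, hf, hP⟩ := (hmem P).1 hP
    exact (hc f hf).neBot.nonempty_of_mem hP
  · exact hle y hy (hc y hy).ne
  · intro P hP
    obtain ⟨f, hf, hP⟩ := (hmem P).1 hP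
    obtain ⟨C, h1, h2, h3⟩ := (hc f hf).base P hP
    exact ⟨C, h1.mono (hle f hf), h2, h3⟩
  · exact fun A hA => hle y hy ((hc y hy).tree A hA)

theorem exists_min_good (a : Ultrafilter Λ) :
    ∃ N, Good a N ∧ ∀ M, Good a M → M ≤ N → M = N := by
  have key := zorn_le_nonempty₀ (α := (Filter (List Λ))ᵒᵈ) {N | Good a N} ?_ (treeF a)
    (good_treeF a)
  · obtain ⟨m, -, hm⟩ := key
    exact ⟨m, hm.1, fun M hM hle => le_antisymm hle (hm.2 hM hle)⟩
  · intro c hc hchain y hy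
    refine ⟨sInf (α := Filter (List Λ)) c,
      good_sInf a c (fun f hf => hc hf) hchain.directedOn ⟨y, hy⟩, fun z hz => ?_⟩
    exact sInf_le (α := Filter (List Λ)) hz

/-- The empty word is isolated in the topology generated by the closures of members of `b`. -/
def Iso (b : Ultrafilter (List Λ)) : Prop := ∃ A ∈ b, ∀ s, s ≠ [] → sh s A ∉ b

/-- The filter generated by the punctured sets `pw b A`. -/
def pwF (b : Ultrafilter (List Λ)) : Filter (List Λ) where
  sets := {P | ∃ A ∈ b, pw b A \ {[]} ⊆ P}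
  univ_sets := ⟨univ, univ_mem, subset_univ _⟩
  sets_of_superset := fun ⟨A, hA, h⟩ h' => ⟨A, hA, h.trans h'⟩
  inter_sets := fun ⟨A, hA, h⟩ ⟨B, hB, h'⟩ =>
    ⟨A ∩ B, inter_mem hA hB, fun t ht => by
      rw [pw_inter] at ht
      exact ⟨h ⟨ht.1.1, ht.2⟩, h' ⟨ht.1.2, ht.2⟩⟩⟩

theorem clop_pwF (b : Ultrafilter (List Λ)) (A : Set (List Λ)) : Clop (pwF b) (pw b A) := by
  intro s
  refine ⟨fun hs => ⟨sh s A, hs, ?_⟩, fun hs => ⟨sh s Aᶜ, ?_, ?_⟩⟩
  · rw [sh_pw]; exact sdiff_subset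
  · rw [sh_compl]; exact Ultrafilter.compl_mem_iff_notMem.2 hs
  · rw [← pw_compl, sh_pw]; exact sdiff_subset

section Min

variable {a : Ultrafilter Λ} {N : Filter (List Λ)} (hN : Good a N)
  (hmin : ∀ M, Good a M → M ≤ N → M = N)

include hN in
theorem pwF_le {b : Ultrafilter (List Λ)} (hb : (b : Filter _) ≤ N) : pwF b ≤ N := by
  intro P hP
  obtain ⟨C, h1, h2, h3⟩ := hN.base P hP
  refine ⟨C, hb (h1.mem h2), ?_⟩
  rw [h1.pw_eq hb]
  rintro t ⟨ht, ht0⟩
  exact (h3 ht).resolve_right ht0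

include hN hmin in
theorem pwF_eq {b : Ultrafilter (List Λ)} (hb : (b : Filter _) ≤ N) (hI : ¬ Iso b) :
    pwF b = N := by
  refine hmin _ ⟨?_, pwF_le hN hb hN.ne, ?_, fun A hA => pwF_le hN hb (hN.tree A hA)⟩
    (pwF_le hN hb)
  · rw [← forall_mem_nonempty_iff_neBot]
    rintro P ⟨A, hA, h⟩
    by_contra hP
    refine hI ⟨A, hA, fun s hs hs' => hP ⟨s, h ⟨hs', hs⟩⟩⟩
  · rintro P ⟨A, hA, h⟩
    refine ⟨pw b A, clop_pwF b A, by simpa using hA, fun t ht => ?_⟩
    by_cases h0 : t = []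
    · exact Or.inr h0
    · exact Or.inl (h ⟨ht, h0⟩)

/-- Open sets of the finest left invariant topology in which `b` converges to the empty word. -/
def Opn (b : Ultrafilter (List Λ)) (U : Set (List Λ)) : Prop := ∀ s ∈ U, sh s U ∈ b

/-- Punctured neighbourhood filter of that topology. -/
def opF (b : Ultrafilter (List Λ)) : Filter (List Λ) where
  sets := {P | ∃ U, Opn b U ∧ [] ∈ U ∧ U \ {[]} ⊆ P}
  univ_sets := ⟨univ, fun _ _ => univ_mem, mem_univ _, subset_univ _⟩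
  sets_of_superset := fun ⟨U, hU, h0, h⟩ h' => ⟨U, hU, h0, h.trans h'⟩
  inter_sets := fun ⟨U, hU, h0, h⟩ ⟨V, hV, h0', h'⟩ =>
    ⟨U ∩ V, fun s hs => inter_mem (hU s hs.1) (hV s hs.2), ⟨h0, h0'⟩, fun _ ht =>
      ⟨h ⟨ht.1.1, ht.2⟩, h' ⟨ht.1.2, ht.2⟩⟩⟩

theorem Opn.sh_mem {b : Ultrafilter (List Λ)} {U : Set (List Λ)} (hU : Opn b U) {s : List Λ}
    (hs : s ∈ U) : sh s U ∈ opF b :=
  ⟨sh s U, fun t ht => by rw [sh_sh]; exact hU _ ht, by simpa using hs, sdiff_subset⟩

theorem exists_steps {b : Ultrafilter (List Λ)} (h0 : {[]}ᶜ ∈ b) (hI : Iso b) :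
    ∃ B : List Λ → Set (List Λ), (∀ s, B s ∈ b) ∧ (∀ s, [] ∉ B s) ∧
      ∀ s t s' t', t ∈ B s → t' ∈ B s' → s ++ t = s' ++ t' → s = s' := by
  obtain ⟨A, hA, hA'⟩ := hI
  refine ⟨fun s => A ∩ {[]}ᶜ ∩ ⋂ h ∈ {h : List Λ | h ≠ [] ∧ h <:+ s}, sh h Aᶜ, ?_, ?_, ?_⟩
  · intro s
    refine inter_mem (inter_mem hA h0) ((biInter_mem ?_).2 ?_)
    · refine (s.tails.finite_toSet).subset ?_
      intro h hh
      simpa using hh.2
    · intro h hh
      rw [sh_compl]
      exact Ultrafilter.compl_mem_iff_notMem.2 (hA' h hh.1)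
  · intro s hs
    exact hs.1.2 rfl
  · have key : ∀ s t h t', t ∈ A → t' ∈ ⋂ g ∈ {g : List Λ | g ≠ [] ∧ g <:+ s ++ h}, sh g Aᶜ →
        t = h ++ t' → h = [] := by
      intro s t h t' ht ht' e
      by_contra hh
      have := mem_iInter₂.1 ht' h ⟨hh, List.suffix_append _ _⟩
      exact this (e ▸ ht)
    intro s t s' t' ht ht' e
    rcases List.append_eq_append_iff.1 e with ⟨h, h1, h2⟩ | ⟨h, h1, h2⟩
    · subst h1
      rw [key s t h t' ht.1.1 ht'.2 h2]; simp
    · subst h1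
      rw [key s' t' h t ht'.1.1 ht.2 h2]; simp

/-- Descendants of the empty word inside `U`. -/
inductive Desc (B : List Λ → Set (List Λ)) (U : Set (List Λ)) : List Λ → Prop
  | nil : Desc B U []
  | step (s t : List Λ) : Desc B U s → t ∈ B s → s ++ t ∈ U → Desc B U (s ++ t)

theorem Desc.inv {B : List Λ → Set (List Λ)} {U : Set (List Λ)} {x : List Λ} (h : Desc B U x) :
    x = [] ∨ ∃ s t, Desc B U s ∧ t ∈ B s ∧ s ++ t ∈ U ∧ x = s ++ t := by
  cases h with
  | nil => exact Or.inl rfl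
  | step s t h1 h2 h3 => exact Or.inr ⟨s, t, h1, h2, h3, rfl⟩

include hN hmin in
theorem opF_eq {b : Ultrafilter (List Λ)} (hb : (b : Filter _) ≤ N) (hI : Iso b) :
    opF b = N := by
  have hle : opF b ≤ N := by
    intro P hP
    obtain ⟨C, h1, h2, h3⟩ := hN.base P hP
    refine ⟨C, fun s hs => hb ((h1 s).1 hs), h2, ?_⟩
    rintro t ⟨ht, ht0⟩
    exact (h3 ht).resolve_right ht0
  obtain ⟨B, hB, hB0, hBu⟩ := exists_steps (hb hN.ne) hI
  refine hmin _ ⟨?_, hle hN.ne, ?_, fun A hA => hle (hN.tree A hA)⟩ hle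
  · rw [← forall_mem_nonempty_iff_neBot]
    rintro P ⟨U, hU, h0, h⟩
    have h1 : U ∈ b := by simpa using hU [] h0
    exact (b.nonempty_of_mem (inter_mem h1 (hb hN.ne))).mono h
  · rintro P ⟨U, hU, h0, h⟩
    have hsub : ∀ x, Desc B U x → x ∈ U := by
      intro x hx
      rcases hx.inv with rfl | ⟨s, t, -, -, h3, rfl⟩
      · exact h0
      · exact h3
    have ho1 : Opn b {x | Desc B U x} := by
      intro s hs
      refine mem_of_superset (inter_mem (hB s) (hU s (hsub s hs))) ?_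
      intro t ht
      exact Desc.step s t hs ht.1 ht.2
    have ho2 : Opn b {x | Desc B U x}ᶜ := by
      intro s hs
      refine mem_of_superset (hB s) ?_
      intro t ht hd
      rcases Desc.inv hd with h1 | ⟨s', t', h1, h2, -, h4⟩
      · have : t = [] := (List.append_eq_nil_iff.1 h1).2
        exact hB0 s (this ▸ ht)
      · exact hs (hBu s t s' t' ht h2 h4 ▸ h1)
    refine ⟨{x | Desc B U x}, fun s => ⟨fun hs => ho1.sh_mem hs, fun hs => ho2.sh_mem hs⟩,
      Desc.nil, fun t ht => ?_⟩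
    by_cases h0 : t = []
    · exact Or.inr h0
    · exact Or.inl (h ⟨hsub t ht, h0⟩)

/-- The square of an ultrafilter on words. -/
noncomputable def sq (b : Ultrafilter (List Λ)) : Ultrafilter (List Λ) :=
  b.bind fun s => b.map fun t => s ++ t

theorem mem_sq {b : Ultrafilter (List Λ)} {P : Set (List Λ)} : P ∈ sq b ↔ pw b P ∈ b := by
  change P ∈ Filter.bind (b : Filter (List Λ)) (fun s => ((b.map fun t => s ++ t : Ultrafilter _) :
    Filter (List Λ))) ↔ _
  rw [Filter.mem_bind']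
  rfl

/-- Words of even depth. -/
inductive Even2 (B : List Λ → Set (List Λ)) : List Λ → Prop
  | nil : Even2 B []
  | step (s t r : List Λ) : Even2 B s → t ∈ B s → r ∈ B (s ++ t) → Even2 B (s ++ t ++ r)

theorem Even2.inv {B : List Λ → Set (List Λ)} {x : List Λ} (h : Even2 B x) :
    x = [] ∨ ∃ s t r, t ∈ B s ∧ r ∈ B (s ++ t) ∧ x = s ++ t ++ r := by
  cases h with
  | nil => exact Or.inl rfl
  | step s t r _ h2 h3 => exact Or.inr ⟨s, t, r, h2, h3, rfl⟩

include hN hmin in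
theorem not_iso {b : Ultrafilter (List Λ)} (hb : (b : Filter _) ≤ N) : ¬ Iso b := by
  intro hI
  obtain ⟨B, hB, hB0, hBu⟩ := exists_steps (hb hN.ne) hI
  have h2 : ∀ s, {x | ∃ t r, t ∈ B s ∧ r ∈ B (s ++ t) ∧ x = t ++ r} ∈ sq b := by
    intro s
    rw [mem_sq]
    refine mem_of_superset (hB s) fun t ht => ?_
    exact mem_of_superset (hB (s ++ t)) fun r hr => ⟨t, r, ht, hr, rfl⟩
  have hle : (sq b : Filter _) ≤ N := by
    intro P hP
    obtain ⟨C, h1, h2', h3⟩ := hN.base P hP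
    have hC : C ∈ sq b := by rw [mem_sq, h1.pw_eq hb]; exact hb (h1.mem h2')
    refine mem_of_superset (inter_mem hC (h2 [])) ?_
    rintro x ⟨hx, t, r, ht, -, rfl⟩
    refine (h3 hx).resolve_right fun h => ?_
    have : t = [] := (List.append_eq_nil_iff.1 h).1
    exact hB0 _ (this ▸ ht)
  have hI2 : Iso (sq b) := by
    refine ⟨_, h2 [], fun s hs hmem => ?_⟩
    obtain ⟨x, ⟨t, r, ht, hr, rfl⟩, t', r', ht', hr', e⟩ :=
      (sq b).nonempty_of_mem (inter_mem (h2 s) hmem)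
    have e1 : s ++ t = [] ++ t' := hBu _ r _ r' hr hr' (by simpa using e)
    exact hs (hBu _ _ _ _ ht ht' e1)
  have hE : {x | Even2 B x} \ {[]} ∈ N := by
    rw [← opF_eq hN hmin hle hI2]
    refine ⟨{x | Even2 B x}, fun s hs => ?_, Even2.nil, Subset.rfl⟩
    refine mem_of_superset (h2 s) ?_
    rintro x ⟨t, r, ht, hr, rfl⟩
    have := Even2.step s t r hs ht hr
    rwa [List.append_assoc] at this
  obtain ⟨x, hx, hx1, hx2⟩ := b.nonempty_of_mem (inter_mem (hB []) (hb hE))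
  rcases Even2.inv hx1 with h | ⟨s, t, r, ht, hr, e⟩
  · exact hx2 h
  · have e1 : [] = s ++ t := hBu _ _ _ _ hx hr (by simpa using e)
    have : t = [] := (List.append_eq_nil_iff.1 e1.symm).2
    exact hB0 _ (this ▸ ht)

include hN hmin in
theorem pw_mem {b : Ultrafilter (List Λ)} (hb : (b : Filter _) ≤ N) {A : Set (List Λ)}
    (hA : A ∈ b) : pw b A ∈ N := by
  rw [← pwF_eq hN hmin hb (not_iso hN hmin hb)]
  exact ⟨A, hA, sdiff_subset⟩

include hN hmin in
theorem pw_clop {b : Ultrafilter (List Λ)} (hb : (b : Filter _) ≤ N) (A : Set (List Λ)) :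
    Clop N (pw b A) := by
  rw [← pwF_eq hN hmin hb (not_iso hN hmin hb)]
  exact clop_pwF b A

theorem exists_sep {α : Type*} {b c : Ultrafilter α} (h : b ≠ c) : ∃ A ∈ b, A ∉ c := by
  by_contra hn
  push Not at hn
  exact h (Ultrafilter.coe_le_coe.1 (show (c : Filter α) ≤ b from fun A hA => hn A hA)).symm

include hN hmin in
theorem finite_ultra (R : List Λ → Λ → Prop) (hR1 : ∀ h, {w | R h w} ∈ a)
    (hR2 : ∀ w, {h | R h w}.Finite) :
    {b : Ultrafilter (List Λ) | (b : Filter _) ≤ N}.Finite := by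
  by_contra hinf
  obtain ⟨w0⟩ : Nonempty Λ := nonempty_of_neBot (a : Filter Λ)
  let f := Set.Infinite.natEmbedding _ hinf
  let c : ℕ → Ultrafilter (List Λ) := fun m => (f m).1
  have hc : ∀ m, (c m : Filter _) ≤ N := fun m => (f m).2
  have hci : Function.Injective c := fun m n h => f.injective (Subtype.ext h)
  let b : Ultrafilter (List Λ) := (hyperfilter ℕ).bind c
  have hbm : ∀ P, P ∈ b ↔ {m | P ∈ c m} ∈ hyperfilter ℕ := by
    intro P
    change P ∈ Filter.bind (hyperfilter ℕ : Filter ℕ) (fun m => (c m : Filter (List Λ))) ↔ _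
    rw [Filter.mem_bind']
    rfl
  have hb : (b : Filter _) ≤ N := by
    intro P hP
    refine (hbm P).2 (mem_of_superset univ_mem fun m _ => hc m hP)
  have hsep : ∀ m, ∃ A, c m ≠ b → A ∈ c m ∧ A ∉ b := by
    intro m
    by_cases h : c m = b
    · exact ⟨∅, fun h' => (h' h).elim⟩
    · obtain ⟨A, h1, h2⟩ := exists_sep h
      exact ⟨A, fun _ => ⟨h1, h2⟩⟩
  choose A hA using hsep
  let H : ℕ → Set (List Λ) := fun m => W fun _ => {w | R (List.replicate m w0) w}
  let A' : ℕ → Set (List Λ) := fun m => A m ∩ pw b (A m)ᶜ ∩ H m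
  have hA' : ∀ m, c m ≠ b → A' m ∈ c m := by
    intro m hm
    refine inter_mem (inter_mem (hA m hm).1 (hc m (pw_mem hN hmin hb ?_)))
      (hc m (hN.tree _ fun _ => hR1 _))
    exact Ultrafilter.compl_mem_iff_notMem.2 (hA m hm).2
  have hU : (⋃ m, A' m) ∈ b := by
    rw [hbm]
    have hfin : {m | c m = b}.Finite := by
      apply Set.Subsingleton.finite
      intro m hm n hn
      exact hci (hm.trans hn.symm)
    refine mem_of_superset (hfin.compl_mem_hyperfilter) fun m hm => ?_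
    exact mem_of_superset (hA' m hm) (subset_iUnion A' m)
  obtain ⟨s, hs, hs0⟩ := hN.neBot.nonempty_of_mem (inter_mem (pw_mem hN hmin hb hU) hN.ne)
  obtain ⟨w, s', rfl⟩ := List.exists_cons_of_ne_nil hs0
  have hfin : {m | R (List.replicate m w0) w}.Finite := by
    refine Set.Finite.preimage (f := fun m => List.replicate m w0) ?_ (hR2 w)
    intro m _ n _ h
    simpa using congrArg List.length h
  have h1 : (⋃ m ∈ {m | R (List.replicate m w0) w}, sh (w :: s') (A' m)) ∈ b := by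
    refine mem_of_superset hs ?_
    intro t ht
    obtain ⟨m, hm⟩ := mem_iUnion.1 ht
    exact mem_biUnion (show m ∈ {m | R (List.replicate m w0) w} from hm.2.2 [] w (s' ++ t) rfl) hm
  obtain ⟨m, -, hm⟩ := (Ultrafilter.finite_biUnion_mem_iff hfin).1 h1
  have h2 : (w :: s') ∈ pw b (A m) :=
    mem_pw.2 (mem_of_superset hm fun t ht => ht.1.1)
  have h3 : (w :: s') ∈ pw b (pw b (A m)ᶜ) :=
    mem_pw.2 (mem_of_superset hm fun t ht => ht.1.2)
  rw [(pw_clop hN hmin hb _).pw_eq hb, pw_compl] at h3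
  exact h3 h2

end Min

/-- Summary of this file: a good filter, an ultrafilter above it and a local monoid `X`. -/
theorem exists_local (a : Ultrafilter Λ) (R : List Λ → Λ → Prop) (hR1 : ∀ h, {w | R h w} ∈ a)
    (hR2 : ∀ w, {h | R h w}.Finite) :
    ∃ (N : Filter (List Λ)) (q : Ultrafilter (List Λ)) (X : Set (List Λ)), Good a N ∧
      (q : Filter _) ≤ N ∧ [] ∈ X ∧ X ∈ q ∧ (∀ P ∈ q, P ∪ Xᶜ ∈ N) ∧
      ∀ x ∈ X, {y | x ++ y ∈ X ↔ y ∈ X} ∈ N := by
  obtain ⟨N, hN, hmin⟩ := exists_min_good a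
  have hfin := finite_ultra hN hmin R hR1 hR2
  have := hN.neBot
  obtain ⟨q, hq⟩ := N.exists_ultrafilter_le
  let S : Set (Ultrafilter (List Λ)) := {b | (b : Filter _) ≤ N ∧ b ≠ q}
  have hS : S.Finite := hfin.subset fun b hb => hb.1
  have hsep : ∀ b : Ultrafilter (List Λ), ∃ A ∈ q, b ≠ q → A ∉ b := by
    intro b
    by_cases h : b = q
    · exact ⟨univ, univ_mem, fun h' => (h' h).elim⟩
    · obtain ⟨A, h1, h2⟩ := exists_sep (Ne.symm h)
      exact ⟨A, h1, fun _ => h2⟩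
  choose A0 hA0 hA1 using hsep
  let A : Set (List Λ) := ⋂ b ∈ S, A0 b
  have hAq : A ∈ q := (biInter_mem hS).2 fun b _ => hA0 b
  have hAb : ∀ b ∈ S, Aᶜ ∈ b := by
    intro b hb
    refine Ultrafilter.compl_mem_iff_notMem.2 fun h => hA1 b hb.2 ?_
    exact mem_of_superset h (biInter_subset_of_mem hb)
  let C : Set (List Λ) := pw q A ∩ ⋂ b ∈ S, pw b Aᶜ
  have hCc : Clop N C :=
    (pw_clop hN hmin hq A).inter (Clop.biInter hS fun b hb => pw_clop hN hmin hb.1 _)
  have hCN : C ∈ N := inter_mem (pw_mem hN hmin hq hAq)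
    ((biInter_mem hS).2 fun b hb => pw_mem hN hmin hb.1 (hAb b hb))
  have hXq : {[]} ∪ A ∩ C ∈ q := mem_of_superset (inter_mem hAq (hq hCN)) subset_union_right
  have hXb : ∀ b ∈ S, ({[]} ∪ A ∩ C)ᶜ ∈ b := by
    intro b hb
    refine mem_of_superset (inter_mem (hAb b hb) (hb.1 hN.ne)) ?_
    rintro t ⟨h1, h2⟩ (h | h)
    · exact h2 h
    · exact h1 h.1
  refine ⟨N, q, {[]} ∪ A ∩ C, hN, hq, Or.inl rfl, hXq, ?_, ?_⟩
  · intro P hP
    rw [Filter.mem_iff_ultrafilter]
    intro b hb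
    by_cases h : b = q
    · subst h; exact mem_of_superset hP subset_union_left
    · exact mem_of_superset (hXb b ⟨hb, h⟩) subset_union_right
  · intro x hx
    by_cases h0 : x = []
    · subst h0; simp
    have hx' : x ∈ A ∩ C := hx.resolve_left h0
    rw [Filter.mem_iff_ultrafilter]
    intro b hb
    by_cases h : b = q
    · subst h
      refine mem_of_superset (inter_mem hXq (inter_mem hx'.2.1 (hb ((hCc x).1 hx'.2)))) ?_
      rintro y ⟨h1, h2, h3⟩
      exact ⟨fun _ => h1, fun _ => Or.inr ⟨h2, h3⟩⟩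
    · have h4 : x ∈ pw b Aᶜ := mem_iInter₂.1 hx'.2.2 b ⟨hb, h⟩
      refine mem_of_superset (inter_mem (hXb b ⟨hb, h⟩) h4) ?_
      rintro y ⟨h1, h2⟩
      refine ⟨fun h3 => ?_, fun h3 => (h1 h3).elim⟩
      rcases h3 with h3 | h3
      · exact (h0 (List.append_eq_nil_iff.1 h3).1).elim
      · exact (h2 h3.1).elim

end Pool.Agent.H925Z.MaxTop
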