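import Pool.Agent.H925Z.MaxA

/-!
The local monoid is unfolded into the free monoid over blocks.
-/

namespace Pool.Agent.H925Z.MaxTop

open Filter Set

universe u

theorem exists_rec {α β : Type*} {r : α → α → Prop} (wf : WellFounded r) (P : α → β → Prop)
    (Q : (a : α) → ((a' : α) → r a' a → β) → β → Prop)
    (step : ∀ a f, (∀ a' h, P a' (f a' h)) → ∃ b, P a b ∧ Q a f b) :
    ∃ F : α → β, ∀ a, P a (F a) ∧ Q a (fun a' _ => F a') (F a) := by
  let G : ∀ a, {b // P a b} := wf.fix fun a f =>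
    ⟨(step a (fun a' h => (f a' h).1) fun a' h => (f a' h).2).choose,
      (step a (fun a' h => (f a' h).1) fun a' h => (f a' h).2).choose_spec.1⟩
  refine ⟨fun a => (G a).1, fun a => ⟨(G a).2, ?_⟩⟩
  have : G a = ⟨(step a (fun a' _ => (G a').1) fun a' _ => (G a').2).choose,
      (step a (fun a' _ => (G a').1) fun a' _ => (G a').2).choose_spec.1⟩ := wf.fix_eq _ a
  have h2 := (step a (fun a' _ => (G a').1) fun a' _ => (G a').2).choose_spec.2
  simp only [this]
  exact h2

variable {Λ : Type u}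

section Dec

variable (X : Set (List Λ)) (V : List Λ → Set (List Λ))

/-- A cut of a word. -/
def IsCut (z r : List Λ) : Prop := z ≠ [] ∧ r ≠ [] ∧ z ∈ X ∧ r ∈ V z

/-- The first cut of a word. -/
def MinCut (z r : List Λ) : Prop :=
  IsCut X V z r ∧ ∀ z' r', IsCut X V z' r' → z' ++ r' = z ++ r → z.length ≤ z'.length

open Classical in
/-- Decomposition of a word at all its cuts. -/
noncomputable def dec (y : List Λ) : List (List Λ) :=
  if h : ∃ p : List Λ × List Λ, MinCut X V p.1 p.2 ∧ p.1 ++ p.2 = y then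
    h.choose.1 :: dec h.choose.2
  else if y = [] then [] else [y]
termination_by y.length
decreasing_by
  have h1 := h.choose_spec
  have h2 := congrArg List.length h1.2
  have h3 := List.length_pos_of_ne_nil h1.1.1.1
  rw [List.length_append] at h2
  omega

variable {X V}

theorem dec_cons {z r : List Λ} (h : MinCut X V z r) : dec X V (z ++ r) = z :: dec X V r := by
  have hex : ∃ p : List Λ × List Λ, MinCut X V p.1 p.2 ∧ p.1 ++ p.2 = z ++ r := ⟨(z, r), h, rfl⟩
  rw [dec, dif_pos hex]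
  have h1 := hex.choose_spec
  have h2 := h.2 _ _ h1.1.1 h1.2
  have h3 := h1.1.2 _ _ h.1 h1.2.symm
  obtain ⟨h4, h5⟩ := List.append_inj h1.2 (le_antisymm h3 h2)
  rw [h4, h5]

theorem dec_nil : dec X V [] = [] := by
  rw [dec, dif_neg, if_pos rfl]
  rintro ⟨p, h1, h2⟩
  exact h1.1.1 (List.append_eq_nil_iff.1 h2).1

theorem dec_one {y : List Λ} (hy : y ≠ []) (h : ∀ z r, IsCut X V z r → z ++ r ≠ y) :
    dec X V y = [y] := by
  rw [dec, dif_neg, if_neg hy]
  rintro ⟨p, h1, h2⟩
  exact h _ _ h1.1 h2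

theorem cut_cases (y : List Λ) : (∀ z r, IsCut X V z r → z ++ r ≠ y) ∨
    ∃ z r, MinCut X V z r ∧ y = z ++ r := by
  by_cases h : ∃ n, ∃ z r, IsCut X V z r ∧ z ++ r = y ∧ z.length = n
  · classical
    obtain ⟨z, r, h1, h2, h3⟩ := Nat.find_spec h
    refine Or.inr ⟨z, r, ⟨h1, fun z' r' h4 h5 => ?_⟩, h2.symm⟩
    rw [h3]
    exact Nat.find_min' h ⟨z', r', h4, h5.trans h2, rfl⟩
  · exact Or.inl fun z r h1 h2 => h ⟨_, z, r, h1, h2, rfl⟩

theorem dec_flatten (y : List Λ) : (dec X V y).flatten = y ∧ ∀ z ∈ dec X V y, z ≠ [] := by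
  induction hn : y.length using Nat.strong_induction_on generalizing y with
  | _ n ih =>
  rcases cut_cases (X := X) (V := V) y with h | ⟨z, r, h, rfl⟩
  · by_cases hy : y = []
    · subst hy; simp [dec_nil]
    · rw [dec_one hy h]; simpa using hy
  · rw [dec_cons h]
    have h3 := List.length_pos_of_ne_nil h.1.1
    obtain ⟨h1, h2⟩ := ih r.length (by rw [← hn, List.length_append]; omega) r rfl
    refine ⟨by simp [h1], ?_⟩
    intro z' hz'
    rcases List.mem_cons.1 hz' with rfl | hz'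
    · exact h.1.1
    · exact h2 _ hz'

/-- The hypotheses on the system of neighbourhoods. -/
structure Sys (X : Set (List Λ)) (V : List Λ → Set (List Λ)) (Val : Set (List Λ)) : Prop where
  nil : [] ∈ X
  vnil : ∀ x, [] ∈ V x
  vapp : ∀ x g, g ≠ [] → V (x ++ g) = V g
  left : ∀ x g, x ++ g ∈ Val → x ∈ Val
  right : ∀ x g, x ++ g ∈ Val → g ∈ Val
  hb : ∀ x g, x ≠ [] → x ∈ X → x ∈ Val → g ∈ V x → (x ++ g ∈ X ↔ g ∈ X)
  hc : ∀ z g y, z ≠ [] → g ≠ [] → z ++ g ∈ Val → y ∈ V g → (g ++ y ∈ V z ↔ g ∈ V z)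

variable {Val : Set (List Λ)} (hS : Sys X V Val)

include hS in
theorem Sys.cut_iff {z g y : List Λ} (hg : g ≠ []) (hv : z ++ g ∈ Val) (hy : y ∈ V (z ++ g)) :
    IsCut X V z (g ++ y) ↔ IsCut X V z g := by
  rw [hS.vapp z g hg] at hy
  constructor
  · rintro ⟨h1, -, h3, h4⟩
    exact ⟨h1, hg, h3, (hS.hc z g y h1 hg hv hy).1 h4⟩
  · rintro ⟨h1, -, h3, h4⟩
    exact ⟨h1, by simp [hg], h3, (hS.hc z g y h1 hg hv hy).2 h4⟩

include hS in
theorem Sys.dec_append (x y : List Λ) (hx : x ∈ X) (hv : x ∈ Val) (hy0 : y ≠ []) (hy : y ∈ V x) :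
    dec X V (x ++ y) = dec X V x ++ dec X V y := by
  induction hn : x.length using Nat.strong_induction_on generalizing x with
  | _ n ih =>
  by_cases hx0 : x = []
  · subst hx0; simp [dec_nil]
  rcases cut_cases (X := X) (V := V) x with h | ⟨z, g, h, rfl⟩
  · rw [dec_one hx0 h]
    refine dec_cons ⟨⟨hx0, hy0, hx, hy⟩, fun z' r' h1 h2 => ?_⟩
    rcases List.append_eq_append_iff.1 h2 with ⟨g, h3, h4⟩ | ⟨g, h3, h4⟩
    · by_cases hg : g = []
      · subst hg; simp [h3]
      · subst h3 h4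
        exact (h _ _ ((hS.cut_iff hg hv hy).1 h1) rfl).elim
    · simp [h3]
  · have hg := h.1.2.1
    have hm : MinCut X V z (g ++ y) := by
      refine ⟨(hS.cut_iff hg hv hy).2 h.1, fun z' r' h1 h2 => ?_⟩
      rw [← List.append_assoc] at h2
      rcases List.append_eq_append_iff.1 h2 with ⟨g', h3, h4⟩ | ⟨g', h3, h4⟩
      · by_cases hg' : g' = []
        · subst hg'
          have := congrArg List.length h3
          simp only [List.length_append, List.length_nil] at this
          omega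
        · subst h4
          exact h.2 _ _ ((hS.cut_iff hg' (h3 ▸ hv) (h3 ▸ hy)).1 h1) h3.symm
      · simp only [h3, List.length_append]; omega
    have h3 := List.length_pos_of_ne_nil h.1.1
    have hgX : g ∈ X := (hS.hb z g h.1.1 h.1.2.2.1 (hS.left _ _ hv) h.1.2.2.2).1 hx
    rw [List.append_assoc, dec_cons hm, dec_cons h,
      ih g.length (by rw [← hn, List.length_append]; omega) g hgX (hS.right _ _ hv)
        (by rwa [hS.vapp z g hg] at hy) rfl]
    rfl

include hS in
theorem Sys.dec_split (L1 L2 : List (List Λ)) (y : List Λ) (hy : y ∈ X) (hv : y ∈ Val)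
    (h : dec X V y = L1 ++ L2) :
    L1.flatten ∈ X ∧ dec X V L1.flatten = L1 ∧ (L1 ≠ [] → L2.flatten ∈ V L1.flatten) := by
  induction L1 generalizing y with
  | nil => exact ⟨hS.nil, dec_nil, fun h => (h rfl).elim⟩
  | cons z L ih =>
  rcases cut_cases (X := X) (V := V) y with hc | ⟨z', r, hc, rfl⟩
  · have hy0 : y ≠ [] := by
      rintro rfl
      rw [dec_nil] at h
      simp at h
    have h1 := dec_one hy0 hc
    rw [h1] at h
    simp only [List.cons_append, List.cons.injEq, List.nil_eq, List.append_eq_nil_iff] at h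
    obtain ⟨rfl, rfl, rfl⟩ := h
    simp only [List.flatten_cons, List.flatten_nil, List.append_nil]
    exact ⟨hy, h1, fun _ => hS.vnil _⟩
  · rw [dec_cons hc] at h
    simp only [List.cons_append, List.cons.injEq] at h
    obtain ⟨rfl, h⟩ := h
    have hzv := hS.left _ _ hv
    have hrX : r ∈ X := (hS.hb z' r hc.1.1 hc.1.2.2.1 hzv hc.1.2.2.2).1 hy
    obtain ⟨i1, i2, i3⟩ := ih r hrX (hS.right _ _ hv) h
    have hz1 : dec X V z' = [z'] := by
      refine dec_one hc.1.1 fun z r' h1 h2 => ?_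
      subst h2
      have h3 := hc.2 z (r' ++ r) ((hS.cut_iff h1.2.1 hzv hc.1.2.2.2).2 h1) (by simp)
      have h4 := List.length_pos_of_ne_nil h1.2.1
      rw [List.length_append] at h3
      omega
    have hr : r = L.flatten ++ L2.flatten := by
      rw [← List.flatten_append, ← h, (dec_flatten r).1]
    by_cases hL : L = []
    · subst hL
      simp only [List.flatten_cons, List.flatten_nil, List.append_nil, List.nil_append] at hr ⊢
      exact ⟨hc.1.2.2.1, hz1, fun _ => hr ▸ hc.1.2.2.2⟩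
    · have hL0 : L.flatten ≠ [] := by
        intro h0
        rw [h0, dec_nil] at i2
        exact hL i2.symm
      have hv2 : z' ++ L.flatten ∈ Val := by
        rw [hr, ← List.append_assoc] at hv
        exact hS.left _ _ hv
      have hLV : L.flatten ∈ V z' :=
        (hS.hc z' _ _ hc.1.1 hL0 hv2 (i3 hL)).1 (hr ▸ hc.1.2.2.2)
      simp only [List.flatten_cons]
      refine ⟨(hS.hb z' _ hc.1.1 hc.1.2.2.1 hzv hLV).2 i1, ?_, fun _ => ?_⟩
      · rw [hS.dec_append z' _ hc.1.2.2.1 hzv hL0 hLV, hz1, i2]; rfl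
      · rw [hS.vapp _ _ hL0]; exact i3 hL

end Dec

/-- Words over blocks whose blocks end in a letter of the attached set that sees the rest of the
block. -/
def T (R : List Λ → Λ → Prop) (A : List (List Λ) → Set Λ) : Set (List (List Λ)) :=
  {t | t ≠ [] ∧ ∀ s z r, t = s ++ z :: r → ∃ h w, z = h ++ [w] ∧ R h w ∧ w ∈ A s}

theorem exists_block_ultra (a : Ultrafilter Λ) (R : List Λ → Λ → Prop)
    (hR1 : ∀ h, {w | R h w} ∈ a) (hR2 : ∀ w, {h | R h w}.Finite)
    (hR3 : WellFounded fun w' w => ∃ h, R h w ∧ w' ∈ h) :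
    ∃ e : Ultrafilter (List (List Λ)), (∀ A, (∀ s, A s ∈ a) → T R A ∈ e) ∧
      ∀ E ∈ e, ∃ O, [] ∈ O ∧ O ⊆ E ∪ {[]} ∧ Clop (e : Filter _) O := by
  obtain ⟨N, q, X, hN, hq, hX0, hXq, hXP, hXD⟩ := exists_local a R hR1 hR2
  -- valid words
  let Val : Set (List Λ) := {t | ∀ g h w r, t = g ++ h ++ w :: r → R h w}
  have hVal : Clop N Val := by
    have h1 := clop_W hN.tree (fun s => ⋂ h ∈ {h | h <:+ s}, {w | R h w}) (fun s => by
      refine (biInter_mem ?_).2 fun h _ => hR1 h
      refine (s.tails.finite_toSet).subset ?_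
      intro h hh
      simpa using hh)
    convert h1 using 1
    ext t
    constructor
    · intro ht
      by_cases h0 : t = []
      · exact Or.inr h0
      · refine Or.inl ⟨h0, fun s w r e => mem_iInter₂.2 ?_⟩
        rintro h ⟨g, rfl⟩
        exact ht g h w r e
    · rintro (ht | ht) g h w r e
      · exact mem_iInter₂.1 (ht.2 _ w r e) h (List.suffix_append _ _)
      · rw [mem_singleton_iff.1 ht] at e
        simp at e
  -- the neighbourhoods
  obtain ⟨V, hV⟩ := exists_rec hR3 (fun _ C => Clop N C ∧ [] ∈ C)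
    (fun w f C => (∀ h, R h w → h ++ [w] ∈ X → ∀ y ∈ C, (h ++ [w] ++ y ∈ X ↔ y ∈ X)) ∧
      ∀ w' g (hr : R (w' :: g) w), ∀ y ∈ C,
        (g ++ [w] ++ y ∈ f w' ⟨_, hr, List.mem_cons_self⟩ ↔
          g ++ [w] ∈ f w' ⟨_, hr, List.mem_cons_self⟩)) (by
      intro w f hf
      have h1 : (⋂ h ∈ {h | R h w}, {y | h ++ [w] ∈ X → (h ++ [w] ++ y ∈ X ↔ y ∈ X)}) ∈ N := by
        refine (biInter_mem (hR2 w)).2 fun h _ => ?_
        by_cases hx : h ++ [w] ∈ X
        · exact mem_of_superset (hXD _ hx) fun y hy _ => hy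
        · exact mem_of_superset univ_mem fun y _ h' => (hx h').elim
      have h2 : (⋂ h ∈ {h | R h w}, {y | ∀ w' g (hr : R (w' :: g) w), h = w' :: g →
          (g ++ [w] ++ y ∈ f w' ⟨_, hr, List.mem_cons_self⟩ ↔
          g ++ [w] ∈ f w' ⟨_, hr, List.mem_cons_self⟩)}) ∈ N := by
        refine (biInter_mem (hR2 w)).2 fun h hh => ?_
        cases h with
        | nil => exact mem_of_superset univ_mem fun y _ w' g _ e => by simp at e
        | cons w' g =>
          have hcl := (hf w' ⟨_, hh, List.mem_cons_self⟩).1 (g ++ [w])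
          by_cases hx : g ++ [w] ∈ f w' ⟨_, hh, List.mem_cons_self⟩
          · refine mem_of_superset (hcl.1 hx) fun y hy w'' g' hr e => ?_
            obtain ⟨rfl, rfl⟩ := List.cons.inj e
            exact ⟨fun _ => hx, fun _ => hy⟩
          · refine mem_of_superset (hcl.2 hx) fun y hy w'' g' hr e => ?_
            obtain ⟨rfl, rfl⟩ := List.cons.inj e
            exact ⟨fun h' => (hy h').elim, fun h' => (hx h').elim⟩
      obtain ⟨C, c1, c2, c3⟩ := hN.base _ (inter_mem h1 h2)
      refine ⟨C, ⟨c1, c2⟩, fun h hr hx y hy => ?_, fun w' g hr y hy => ?_⟩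
      · rcases c3 hy with h' | h'
        · exact mem_iInter₂.1 h'.1 h hr hx
        · rw [mem_singleton_iff.1 h', List.append_nil]
          exact ⟨fun _ => hX0, fun _ => hx⟩
      · rcases c3 hy with h' | h'
        · exact mem_iInter₂.1 h'.2 (w' :: g) hr w' g hr rfl
        · rw [mem_singleton_iff.1 h', List.append_nil])
  let VV : List Λ → Set (List Λ) := fun x => {y | ∀ h w, x = h ++ [w] → y ∈ V w}
  have hVV : ∀ h w, VV (h ++ [w]) = V w := by
    intro h w
    ext y
    refine ⟨fun hy => hy h w rfl, fun hy h' w' e => ?_⟩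
    have := List.append_inj_right' e rfl
    simp only [List.cons.injEq, and_true] at this
    exact this ▸ hy
  have hVVN : ∀ x, VV x ∈ N := by
    intro x
    rcases List.eq_nil_or_concat' x with rfl | ⟨h, w, rfl⟩
    · exact mem_of_superset univ_mem fun y _ h w e => by simp at e
    · rw [hVV]; exact (hV w).1.1.mem (hV w).1.2
  have hS : Sys X VV Val := by
    refine ⟨hX0, fun x h w _ => (hV w).1.2, ?_, ?_, ?_, ?_, ?_⟩
    · intro x g hg
      rcases List.eq_nil_or_concat' g with rfl | ⟨h, w, rfl⟩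
      · exact (hg rfl).elim
      · rw [← List.append_assoc, hVV, hVV]
    · intro x g hv g' h w r e
      exact hv g' h w (r ++ g) (by rw [e]; simp)
    · intro x g hv g' h w r e
      exact hv (x ++ g') h w r (by rw [e]; simp)
    · intro x g hx0 hx hv hg
      rcases List.eq_nil_or_concat' x with rfl | ⟨h, w, rfl⟩
      · exact (hx0 rfl).elim
      · rw [hVV] at hg
        exact (hV w).2.1 h (hv [] h w [] (by simp)) hx g hg
    · intro z g y hz hg hv hy
      rcases List.eq_nil_or_concat' z with rfl | ⟨z', w', rfl⟩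
      · exact (hz rfl).elim
      rcases List.eq_nil_or_concat' g with rfl | ⟨g', w, rfl⟩
      · exact (hg rfl).elim
      rw [hVV] at hy ⊢
      exact (hV w).2.2 w' g' (hv z' (w' :: g') w [] (by simp)) y hy
  have hVal0 : [] ∈ Val := fun g h w r e => by simp at e
  refine ⟨q.map (dec X VV), fun A hA => ?_, fun E hE => ?_⟩
  · rw [Ultrafilter.mem_map]
    have h1 := hN.tree (fun x => ⋂ x0 ∈ {x0 | x0 <+: x}, A (dec X VV x0)) (fun x => by
      refine (biInter_mem ?_).2 fun h _ => hA _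
      refine (x.inits.finite_toSet).subset ?_
      intro h hh
      simpa using hh)
    refine mem_of_superset (inter_mem hXq (hq (inter_mem (hVal.mem hVal0) h1))) ?_
    rintro y ⟨hyX, hyV, hy0, hyW⟩
    have hfl := dec_flatten (X := X) (V := VV) y
    refine ⟨fun h => hy0 ?_, fun s z r e => ?_⟩
    · rw [← hfl.1, h]; rfl
    · have hz : z ≠ [] := hfl.2 z (by rw [e]; simp)
      rcases List.eq_nil_or_concat' z with rfl | ⟨h, w, rfl⟩
      · exact (hz rfl).elim
      have e2 : y = s.flatten ++ h ++ w :: r.flatten := by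
        rw [← hfl.1, e]; simp
      refine ⟨h, w, rfl, hyV _ _ _ _ e2, ?_⟩
      have h3 := mem_iInter₂.1 (hyW _ _ _ e2) s.flatten (List.prefix_append _ _)
      rwa [(hS.dec_split s _ y hyX hyV e).2.1] at h3
  · rw [Ultrafilter.mem_map] at hE
    obtain ⟨C, c1, c2, c3⟩ := hN.base _ (hXP _ hE)
    refine ⟨dec X VV '' (C ∩ X ∩ Val), ⟨[], ⟨⟨c2, hX0⟩, hVal0⟩, dec_nil⟩, ?_, fun s => ⟨?_, ?_⟩⟩
    · rintro _ ⟨y, ⟨⟨h1, h2⟩, -⟩, rfl⟩
      rcases c3 h1 with (h | h) | h
      · exact Or.inl h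
      · exact (h h2).elim
      · rw [mem_singleton_iff.1 h]; exact Or.inr dec_nil
    · rintro ⟨x, ⟨⟨h1, h2⟩, h3⟩, rfl⟩
      rw [Ultrafilter.mem_coe, Ultrafilter.mem_map]
      refine mem_of_superset (inter_mem hXq (hq (inter_mem (inter_mem hN.ne (hVVN x))
        (inter_mem (inter_mem ((c1 x).1 h1) (hXD x h2)) ((hVal x).1 h3))))) ?_
      rintro y ⟨y1, ⟨y2, y3⟩, ⟨y4, y5⟩, y6⟩
      exact ⟨x ++ y, ⟨⟨y4, y5.2 y1⟩, y6⟩, hS.dec_append x y h2 h3 y2 y3⟩
    · intro hs
      rw [Ultrafilter.mem_coe, Ultrafilter.mem_map]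
      have key : ∀ y, s ++ dec X VV y ∈ dec X VV '' (C ∩ X ∩ Val) →
          s.flatten ∉ C ∧ s.flatten ++ y ∈ C := by
        rintro y ⟨u, ⟨⟨h1, h2⟩, h3⟩, e⟩
        have e2 : u = s.flatten ++ y := by
          rw [← (dec_flatten (X := X) (V := VV) u).1, e, List.flatten_append, (dec_flatten y).1]
        obtain ⟨i1, i2, -⟩ := hS.dec_split s _ u h2 h3 e
        exact ⟨fun hc => hs ⟨_, ⟨⟨hc, i1⟩, hS.left _ _ (e2 ▸ h3)⟩, i2⟩, e2 ▸ h1⟩
      by_cases hc : s.flatten ∈ C
      · exact mem_of_superset univ_mem fun y _ h => (key y h).1 hc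
      · exact mem_of_superset (hq ((c1 _).2 hc)) fun y hy h => hy (key y h).2

end Pool.Agent.H925Z.MaxTop
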