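import Pool.Agent.H925Z.MaxB

/-!
Coding data on an Abelian group of singular cardinality.
-/

namespace Pool.Agent.H925Z.MaxTop

open Filter Set Cardinal

universe u

theorem exists_index (α : Type u) (h : (#α).IsSingular) :
    ∃ (ι : Type u) (_ : LinearOrder ι) (_ : WellFoundedLT ι) (E : ι → Set α), #ι < #α ∧
      (∀ i : ι, #(Iio i) < (#α).ord.cof) ∧ (∀ i, #(E i) < #α) ∧ (∀ g, ∃ i, g ∈ E i) ∧
      ∀ i : ι, ∃ j, i < j := by
  obtain ⟨_, _, hα⟩ := exists_ord_eq_type_lt α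
  obtain ⟨s, hs, hs'⟩ := Ordinal.exists_ord_cof_eq α
  have h1 : (#α).ord.cof = Order.cof α := by rw [hα, Ordinal.cof_type]
  have h2 : #s = Order.cof α := by
    have := congrArg Ordinal.card hs'
    simpa using this
  refine ⟨s, inferInstance, inferInstance, fun i => Iic (i : α), ?_, fun i => ?_,
    fun i => mk_Iic_lt _ hα h.aleph0_le, fun g => ?_, fun i => ?_⟩
  · rw [h2, ← h1]; exact h.cof_ord_lt
  · rw [h1, ← h2]; exact mk_Iio_lt i (by rw [h2, hs'])
  · obtain ⟨b, hb, hgb⟩ := hs g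
    exact ⟨⟨b, hb⟩, hgb⟩
  · by_contra hn
    push Not at hn
    have h3 : Iic (i : α) = Set.univ := by
      refine eq_univ_of_forall fun g => ?_
      obtain ⟨b, hb, hgb⟩ := hs g
      exact hgb.trans (hn ⟨b, hb⟩)
    have h4 := mk_Iic_lt (i : α) hα h.aleph0_le
    rw [h3, mk_univ] at h4
    exact lt_irrefl _ h4

variable {G : Type u} [AddCommGroup G]

omit [AddCommGroup G] in
theorem aleph0_lt (h : (#G).IsSingular) : ℵ₀ < #G :=
  h.aleph0_le.lt_of_ne fun e => not_isSingular_aleph0 (e ▸ h)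

theorem small_list {κ : Cardinal.{u}} (hκ : ℵ₀ < κ) {α : Type u} (h : #α < κ) : #(List α) < κ :=
  (mk_list_le_max α).trans_lt (max_lt hκ h)

theorem small_closure {κ : Cardinal.{u}} (hκ : ℵ₀ < κ) {S : Set G} (h : #S < κ) :
    #(AddSubgroup.closure S) < κ := by
  have h1 : #(↥(S ∪ -S)) < κ := by
    refine (mk_union_le _ _).trans_lt (add_lt_of_lt hκ.le h ?_)
    rw [← Set.image_neg_eq_neg]
    exact mk_image_le.trans_lt h
  have h2 : (AddSubgroup.closure S : Set G) ⊆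
      range fun l : List ↥(S ∪ -S) => (l.map Subtype.val).sum := by
    intro g hg
    have hg' : g ∈ AddSubmonoid.closure (S ∪ -S) := by
      rw [← AddSubgroup.closure_toAddSubmonoid]; exact hg
    obtain ⟨l, hl, rfl⟩ := AddSubmonoid.exists_list_of_mem_closure hg'
    refine ⟨l.pmap Subtype.mk hl, ?_⟩
    simp [List.map_pmap]
  exact (mk_le_mk_of_subset h2).trans_lt (mk_range_le.trans_lt (small_list hκ h1))

theorem exists_markers (hG : ℵ₀ < #G) (H : AddSubgroup G) (hH : #H < #G) {D : Type u}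
    (S : Set D) (hS : #S < #G) :
    ∃ γ : D → G, (∀ x ∈ S, γ x ∉ H) ∧ ∀ x ∈ S, ∀ y ∈ S, γ x - γ y ∈ H → x = y := by
  have hq : #G ≤ #(G ⧸ H) := by
    by_contra hn
    push Not at hn
    have e := mk_congr (AddSubgroup.addGroupEquivQuotientProdAddSubgroup (s := H))
    rw [mk_prod, lift_id, lift_id] at e
    exact (mul_lt_of_lt hG.le hn hH).ne' e
  have h1 : #(Option S) ≤ #(G ⧸ H) := by
    rw [mk_option]
    exact ((add_one_lt_of_lt hG.le hS).le).trans hq
  obtain ⟨f⟩ := (Cardinal.le_def _ _).1 h1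
  classical
  refine ⟨fun x => if hx : x ∈ S then (f (some ⟨x, hx⟩) - f none).out else 0, fun x hx hm => ?_,
    fun x hx y hy hm => ?_⟩
  · simp only [dif_pos hx] at hm
    have := (QuotientAddGroup.eq_zero_iff _).2 hm
    rw [QuotientAddGroup.out_eq', sub_eq_zero] at this
    simpa using f.injective this
  · simp only [dif_pos hx, dif_pos hy] at hm
    have := (QuotientAddGroup.eq_zero_iff _).2 hm
    rw [QuotientAddGroup.mk_sub, QuotientAddGroup.out_eq', QuotientAddGroup.out_eq',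
      sub_sub_sub_cancel_right, sub_eq_zero] at this
    simpa using f.injective this

/-- Codes whose entries lie in a given subgroup. -/
def Dat (ι : Type u) (H : AddSubgroup G) : Set (ι × List (List G)) :=
  {x | ∀ l ∈ x.2, ∀ g ∈ l, g ∈ H}

theorem small_dat (hG : ℵ₀ < #G) {ι : Type u} (hι : #ι < #G) (H : AddSubgroup G) (hH : #H < #G) :
    #(Dat ι H) < #G := by
  have h2 : Dat ι H ⊆ range fun p : ι × List (List H) =>
      (p.1, p.2.map fun l => l.map Subtype.val) := by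
    rintro ⟨k, s⟩ hs
    have key : ∀ s : List (List G), (∀ l ∈ s, ∀ g ∈ l, g ∈ H) →
        ∃ s' : List (List H), (s'.map fun l => l.map Subtype.val) = s := by
      intro s
      induction s with
      | nil => exact fun _ => ⟨[], rfl⟩
      | cons l s ih =>
        intro hs
        obtain ⟨s', e⟩ := ih fun l' hl' => hs l' (List.mem_cons_of_mem _ hl')
        refine ⟨l.pmap Subtype.mk (hs l List.mem_cons_self) :: s', ?_⟩
        rw [List.map_cons, e, List.map_pmap]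
        simp
    obtain ⟨s', e⟩ := key s hs
    exact ⟨(k, s'), by simp only [e]⟩
  refine (mk_le_mk_of_subset h2).trans_lt (mk_range_le.trans_lt ?_)
  rw [mk_prod, lift_id, lift_id]
  exact mul_lt_of_lt hG.le hι (small_list hG (small_list hG hH))

theorem exists_chain (h : (#G).IsSingular) {ι : Type u} [LinearOrder ι] [WellFoundedLT ι]
    (E : ι → Set G) (hι : #ι < #G) (hio : ∀ i : ι, #(Iio i) < (#G).ord.cof)
    (hE : ∀ i, #(E i) < #G) :
    ∃ (H F : ι → AddSubgroup G) (γ : ι → ι × List (List G) → G),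
      (∀ i, #(F i) < #G) ∧ (∀ i, H i ≤ F i) ∧ (∀ i, E i ⊆ F i) ∧ (∀ j i, j < i → F j ≤ H i) ∧
      (∀ i, ∀ x ∈ Dat ι (H i), γ i x ∈ F i) ∧ (∀ i, ∀ x ∈ Dat ι (H i), γ i x ∉ H i) ∧
      ∀ i, ∀ x ∈ Dat ι (H i), ∀ y ∈ Dat ι (H i), γ i x - γ i y ∈ H i → x = y := by
  have hG := aleph0_lt h
  obtain ⟨Φ, hΦ⟩ := exists_rec (β := AddSubgroup G × AddSubgroup G × (ι × List (List G) → G))
    (wellFounded_lt (α := ι))
    (fun i b => #(b.2.1) < #G ∧ b.1 ≤ b.2.1 ∧ E i ⊆ b.2.1 ∧ (∀ x ∈ Dat ι b.1, b.2.2 x ∈ b.2.1) ∧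
      (∀ x ∈ Dat ι b.1, b.2.2 x ∉ b.1) ∧
      ∀ x ∈ Dat ι b.1, ∀ y ∈ Dat ι b.1, b.2.2 x - b.2.2 y ∈ b.1 → x = y)
    (fun i f b => ∀ j (hj : j < i), (f j hj).2.1 ≤ b.1) (by
      intro i f hf
      have h1 : #(⋃ j : Iio i, ((f j.1 j.2).2.1 : Set G)) < #G := by
        refine (mk_iUnion_le _).trans_lt (mul_lt_of_lt hG.le ((hio i).trans h.cof_ord_lt) ?_)
        exact iSup_lt_of_lt_cof_ord (hio i) fun j => (hf j.1 j.2).1
      have h2 := small_closure hG h1
      set H := AddSubgroup.closure (⋃ j : Iio i, ((f j.1 j.2).2.1 : Set G)) with hH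
      have h3 := small_dat hG hι H h2
      obtain ⟨γ, g1, g2⟩ := exists_markers hG H h2 _ h3
      have h4 : #(↥((H : Set G) ∪ E i ∪ γ '' Dat ι H)) < #G := by
        refine (mk_union_le _ _).trans_lt (add_lt_of_lt hG.le ?_ (mk_image_le.trans_lt h3))
        exact (mk_union_le _ _).trans_lt (add_lt_of_lt hG.le h2 (hE i))
      refine ⟨(H, AddSubgroup.closure ((H : Set G) ∪ E i ∪ γ '' Dat ι H), γ),
        ⟨small_closure hG h4, fun g hg => AddSubgroup.subset_closure (Or.inl (Or.inl hg)),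
          fun g hg => AddSubgroup.subset_closure (Or.inl (Or.inr hg)),
          fun x hx => AddSubgroup.subset_closure (Or.inr ⟨x, hx, rfl⟩), g1, g2⟩, ?_⟩
      intro j hj g hg
      exact AddSubgroup.subset_closure (mem_iUnion.2 ⟨⟨j, hj⟩, hg⟩))
  exact ⟨fun i => (Φ i).1, fun i => (Φ i).2.1, fun i => (Φ i).2.2, fun i => (hΦ i).1.1,
    fun i => (hΦ i).1.2.1, fun i => (hΦ i).1.2.2.1, fun j i hj => (hΦ i).2 j hj,
    fun i => (hΦ i).1.2.2.2.1, fun i => (hΦ i).1.2.2.2.2.1, fun i => (hΦ i).1.2.2.2.2.2⟩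

/-- Fewer than `#G` translates cover the group. -/
def Large (A : Set G) : Prop := ∃ F : Set G, #F < #G ∧ ∀ g, ∃ f ∈ F, ∃ x ∈ A, g = f + x

/-- The set contains a translate of every set of size below `#G`. -/
def Thick (T : Set G) : Prop := ∀ F : Set G, #F < #G → ∃ x, ∀ f ∈ F, f + x ∈ T

theorem thick_of_not_large {A : Set G} (h : ¬ Large A) : Thick Aᶜ := by
  intro F hF
  by_contra hn
  push Not at hn
  refine h ⟨Neg.neg '' F, mk_image_le.trans_lt hF, fun g => ?_⟩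
  obtain ⟨f, hf, hx⟩ := hn g
  exact ⟨-f, ⟨f, hf, rfl⟩, f + g, not_not.1 hx, by abel⟩

theorem Large.meet {A T : Set G} (hA : Large A) (hT : Thick T) : (A ∩ T).Nonempty := by
  obtain ⟨F, hF, h⟩ := hA
  obtain ⟨x, hx⟩ := hT (Neg.neg '' F) (mk_image_le.trans_lt hF)
  obtain ⟨f, hf, y, hy, e⟩ := h x
  refine ⟨y, hy, ?_⟩
  have := hx (-f) ⟨f, hf, rfl⟩
  rwa [e, neg_add_cancel_left] at this

theorem Thick.inter (hG : ℵ₀ < #G) {ι : Type u} (E : ι → Set G) (hι : #ι < #G)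
    (hE : ∀ i, #(E i) < #G) (hc : ∀ g, ∃ i, g ∈ E i) {T T' : Set G} (hT : Thick T)
    (hT' : Thick T') : Thick (T ∩ T') := by
  have sh : ∀ S : Set G, Thick S → ∀ F : Set G, #F < #G → Thick {x | ∀ f ∈ F, f + x ∈ S} := by
    intro S hS F hF F' hF'
    obtain ⟨x, hx⟩ := hS (image2 (· + ·) F F') (mk_image2_le.trans_lt (mul_lt_of_lt hG.le hF hF'))
    exact ⟨x, fun f' hf' f hf => by rw [← add_assoc]; exact hx _ ⟨f, hf, f', hf', rfl⟩⟩
  intro F hF
  have h1 := sh T hT F hF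
  have h2 := sh T' hT' F hF
  choose x hx using fun i => h1 (E i) (hE i)
  obtain ⟨y, hy⟩ := h2 (range x) (mk_range_le.trans_lt hι)
  obtain ⟨i, hi⟩ := hc y
  refine ⟨y + x i, fun f hf => ⟨hx i y hi f hf, ?_⟩⟩
  rw [add_comm y]
  exact hy (x i) ⟨i, rfl⟩ f hf

/-- Letters of the alphabet. -/
structure Letter {ι : Type u} [LinearOrder ι] (H F : ι → AddSubgroup G) where
  k : ι
  N : ι
  s : List (List G)
  x : G
  lt : k < N
  dat : (k, s) ∈ Dat ι (H N)
  mem : x ∈ H N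
  rep : (x : G ⧸ F k).out = x

theorem exists_data (h : (#G).IsSingular) :
    ∃ (Λ J : Type u) (_ : Infinite J) (a : Ultrafilter Λ) (R : List Λ → Λ → Prop) (v : Λ → G)
      (d : Λ → J → G) (A : G → Set Λ) (K : Set G),
      (∀ h, {w | R h w} ∈ a) ∧ (∀ w, {h | R h w}.Finite) ∧
      WellFounded (fun w' w => ∃ h, R h w ∧ w' ∈ h) ∧ #K < #G ∧ (∀ w j, d w j ∈ K) ∧
      (∀ B ∈ a, Large (v '' B)) ∧ (∀ u, A u ∈ a) ∧ (∀ u w j, w ∈ A u → u + d w j + v w ≠ 0) ∧
      ∀ u w j u' w' j', w ∈ A u → w' ∈ A u' → u + d w j + v w = u' + d w' j' + v w' →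
        u = u' ∧ w = w' ∧ j = j' := by
  have hG := aleph0_lt h
  obtain ⟨ι, _, _, E, hι, hio, hE, hcov, hmax⟩ := exists_index G h
  obtain ⟨H, F, γ, c1, c2, c3, c4, c5, c6, c7⟩ := exists_chain h E hι hio hE
  have hHm : ∀ i j, i ≤ j → H i ≤ H j := by
    intro i j hij
    rcases hij.eq_or_lt with rfl | hij
    · exact le_rfl
    · exact (c2 i).trans (c4 i j hij)
  have hev : ∀ g, ∃ i, g ∈ H i := by
    intro g
    obtain ⟨i, hi⟩ := hcov g
    obtain ⟨j, hj⟩ := hmax i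
    exact ⟨j, c4 i j hj (c3 i hi)⟩
  obtain ⟨i0, -⟩ := hcov 0
  have : Nonempty ι := ⟨i0⟩
  have : NoMaxOrder ι := ⟨hmax⟩
  have hevl : ∀ l : List G, ∃ i, ∀ g ∈ l, g ∈ H i := by
    intro l
    induction l with
    | nil => exact ⟨i0, by simp⟩
    | cons g l ih =>
      obtain ⟨i, hi⟩ := ih
      obtain ⟨j, hj⟩ := hev g
      refine ⟨max i j, fun g' hg' => ?_⟩
      rcases List.mem_cons.1 hg' with rfl | hg'
      · exact hHm _ _ (le_max_right _ _) hj
      · exact hHm _ _ (le_max_left _ _) (hi _ hg')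
  have hlev : ∀ g i j, g ∈ F i → g ∉ H i → g ∈ F j → g ∉ H j → i = j := by
    intro g i j h1 h2 h3 h4
    rcases lt_trichotomy i j with hij | hij | hij
    · exact (h4 (c4 _ _ hij h1)).elim
    · exact hij
    · exact (h2 (c4 _ _ hij h3)).elim
  let v : Letter H F → G := fun l => l.x + γ l.N (l.k, l.s)
  have hd0 : ∀ k j : ι, (j, ([] : List (List G))) ∈ Dat ι (H k) := fun k j l hl => by simp at hl
  -- the top level of a sum
  have htop : ∀ (l : Letter H F) (y : G), y ∈ H l.N → y + v l ∈ F l.N ∧ y + v l ∉ H l.N := by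
    intro l y hy
    refine ⟨add_mem (c2 _ hy) (add_mem (c2 _ l.mem) (c5 _ _ l.dat)), fun hm => c6 _ _ l.dat ?_⟩
    have := sub_mem hm (add_mem hy l.mem)
    simpa [v, ← add_assoc] using this
  have hparse : ∀ (l l' : Letter H F) (y y' : G), y ∈ F l.k → y' ∈ F l'.k →
      y + v l = y' + v l' → l = l' := by
    intro l l' y y' hy hy' e
    have t1 := htop l y (c4 _ _ l.lt hy)
    have t2 := htop l' y' (c4 _ _ l'.lt hy')
    have hN : l.N = l'.N := hlev _ _ _ t1.1 t1.2 (e ▸ t2.1) (e ▸ t2.2)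
    have hyN := c4 _ _ l.lt hy
    have hyN' := c4 _ _ l'.lt hy'
    obtain ⟨k, N, s, x, lt, dat, mem, rep⟩ := l
    obtain ⟨k', N', s', x', lt', dat', mem', rep'⟩ := l'
    simp only [v] at hN e hy hy' hyN hyN'
    subst hN
    have e1 : (k, s) = (k', s') := by
      refine c7 N _ dat _ dat' ?_
      have : γ N (k, s) - γ N (k', s') = y' + x' - (y + x) := by
        rw [sub_eq_sub_iff_add_eq_add, add_comm (γ N (k, s)), add_assoc, e, add_assoc]
      rw [this]
      exact sub_mem (add_mem hyN' mem') (add_mem hyN mem)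
    obtain ⟨rfl, rfl⟩ := Prod.mk.inj e1
    have e2 : y + x = y' + x' := by
      rw [← add_assoc, ← add_assoc] at e
      exact add_right_cancel e
    have e3 : (x : G ⧸ F k) = x' := by
      rw [QuotientAddGroup.eq]
      have : -x + x' = y - y' := by
        rw [eq_sub_iff_add_eq, add_assoc, add_comm x', ← e2]; abel
      rw [this]
      exact sub_mem hy hy'
    have e4 : x = x' := by rw [← rep, e3, rep']
    subst e4
    rfl
  have hv : Function.Injective v := fun l l' e =>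
    hparse l l' 0 0 (zero_mem _) (zero_mem _) (by rw [e])
  -- the filter base
  let B : ι × List (List G) → Set (Letter H F) := fun p => {l | p.1 ≤ l.k ∧ p.2 ⊆ l.s}
  have hB : ∀ p, Large (v '' B p) := by
    rintro ⟨k, s⟩
    refine ⟨image2 (· - ·) (F k) (range fun N => γ N (k, s)),
      mk_image2_le.trans_lt (mul_lt_of_lt hG.le (c1 k) (mk_range_le.trans_lt hι)), fun g => ?_⟩
    obtain ⟨i, hi⟩ := hevl ((g : G ⧸ F k).out :: s.flatten)
    obtain ⟨N, hN⟩ := hmax (max i k)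
    have hiN := hHm i N ((le_max_left _ _).trans hN.le)
    let l : Letter H F := ⟨k, N, s, (g : G ⧸ F k).out, (le_max_right _ _).trans_lt hN,
      fun l hl g' hg' => hiN (hi _ (List.mem_cons_of_mem _ (List.mem_flatten.2 ⟨l, hl, hg'⟩))),
      hiN (hi _ List.mem_cons_self), by rw [QuotientAddGroup.out_eq']⟩
    refine ⟨g - l.x - γ N (k, s), ⟨g - l.x, ?_, _, ⟨N, rfl⟩, rfl⟩, v l,
      ⟨l, ⟨le_rfl, List.Subset.refl _⟩, rfl⟩, by simp [v, l]⟩
    have : ((l.x : G) : G ⧸ F k) = g := QuotientAddGroup.out_eq' _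
    rw [QuotientAddGroup.eq] at this
    rw [sub_eq_neg_add]
    exact this
  let 𝓕 : Filter (Letter H F) :=
    { sets := {P | ∃ p T, Thick T ∧ B p ∩ v ⁻¹' T ⊆ P}
      univ_sets := ⟨(i0, []), univ, fun _ _ => ⟨0, fun _ _ => mem_univ _⟩, subset_univ _⟩
      sets_of_superset := fun ⟨p, T, hT, h⟩ h' => ⟨p, T, hT, h.trans h'⟩
      inter_sets := fun ⟨p, T, hT, h⟩ ⟨p', T', hT', h'⟩ =>
        ⟨(max p.1 p'.1, p.2 ++ p'.2), T ∩ T', hT.inter hG E hι hE hcov hT', fun l hl =>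
          ⟨h ⟨⟨(le_max_left _ _).trans hl.1.1, List.Subset.trans (List.subset_append_left _ _) hl.1.2⟩, hl.2.1⟩,
           h' ⟨⟨(le_max_right _ _).trans hl.1.1, List.Subset.trans (List.subset_append_right _ _) hl.1.2⟩,
             hl.2.2⟩⟩⟩ }
  have hne : 𝓕.NeBot := by
    rw [← forall_mem_nonempty_iff_neBot]
    rintro P ⟨p, T, hT, h⟩
    obtain ⟨_, ⟨l, hl, rfl⟩, h2⟩ := (hB p).meet hT
    exact ⟨l, h ⟨hl, h2⟩⟩
  obtain ⟨a, ha⟩ := 𝓕.exists_ultrafilter_le
  have hBa : ∀ p, B p ∈ a := fun p =>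
    ha ⟨p, univ, fun _ _ => ⟨0, fun _ _ => mem_univ _⟩, inter_subset_left⟩
  refine ⟨Letter H F, ι, inferInstance, a, fun h l => h.map v ∈ l.s, v,
    fun l j => γ l.k (j, []), fun u => {l | u ∈ H l.k},
    range fun p : ι × ι => γ p.1 (p.2, []), fun h => ?_, fun l => ?_, ?_, ?_,
    fun l j => ⟨(l.k, j), rfl⟩, fun P hP => ?_, fun u => ?_, fun u l j hu => ?_, ?_⟩
  · exact mem_of_superset (hBa (i0, [h.map v])) fun l hl => hl.2 (List.mem_singleton_self _)
  · exact Set.Finite.preimage (f := List.map v) (List.map_injective_iff.2 hv).injOn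
      l.s.finite_toSet
  · refine Subrelation.wf (r := InvImage (· < ·) Letter.N) ?_ (InvImage.wf _ wellFounded_lt)
    rintro l' l ⟨h, hr, hm⟩
    have h1 : v l' ∈ H l.N := l.dat _ hr _ (List.mem_map_of_mem hm)
    have h2 := (htop l' 0 (zero_mem _)).2
    rw [zero_add] at h2
    by_contra hn
    exact h2 (hHm _ _ (not_lt.1 hn) h1)
  · refine mk_range_le.trans_lt ?_
    rw [mk_prod, lift_id]
    exact mul_lt_of_lt hG.le hι hι
  · by_contra hn
    have h1 : v ⁻¹' (v '' P)ᶜ ∈ a := ha ⟨(i0, []), _, thick_of_not_large hn, inter_subset_right⟩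
    obtain ⟨l, h2, h3⟩ := a.nonempty_of_mem (inter_mem hP h1)
    exact h3 ⟨l, h2, rfl⟩
  · obtain ⟨i, hi⟩ := hev u
    exact mem_of_superset (hBa (i, [])) fun l hl => hHm _ _ hl.1 hi
  · intro e
    have := (htop l (u + γ l.k (j, [])) (c4 _ _ l.lt (add_mem (c2 _ hu) (c5 _ _ (hd0 _ _))))).2
    rw [e] at this
    exact this (zero_mem _)
  · intro u l j u' l' j' hu hu' e
    have e1 := hparse l l' _ _ (add_mem (c2 _ hu) (c5 _ _ (hd0 _ _)))
      (add_mem (c2 _ hu') (c5 _ _ (hd0 _ _))) e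
    subst e1
    have e2 := add_right_cancel e
    have e3 : (j, ([] : List (List G))) = (j', []) := by
      refine c7 l.k _ (hd0 _ _) _ (hd0 _ _) ?_
      have : γ l.k (j, []) - γ l.k (j', []) = u' - u := by
        rw [sub_eq_sub_iff_add_eq_add, add_comm, e2]
      rw [this]
      exact sub_mem hu' hu
    obtain rfl := (Prod.mk.inj e3).1
    exact ⟨add_right_cancel e2, rfl, rfl⟩

end Pool.Agent.H925Z.MaxTop
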