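import Pool.Agent.H925Z.MaxC

/-!
An ultrafilter of large sets on the group whose translation invariant topology has a clopen base.
-/

namespace Pool.Agent.H925Z.MaxTop

open Filter Set Cardinal

universe u

variable {G : Type u} [AddCommGroup G]

theorem exists_ultra (h : (#G).IsSingular) :
    ∃ p : Ultrafilter G, (∀ U ∈ p, Large U) ∧ ∀ U ∈ p, ∃ V : Set G, 0 ∈ V ∧ V ⊆ U ∪ {0} ∧
      ∀ u, (u ∈ V → {g | u + g ∈ V} ∈ p) ∧ (u ∉ V → {g | u + g ∉ V} ∈ p) := by
  have hG := aleph0_lt h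
  obtain ⟨Λ, J, _, a, R, v, d, A, K, hR1, hR2, hR3, hK, hdK, hL, hA, hne, huniq⟩ := exists_data h
  obtain ⟨e, e1, e3⟩ := exists_block_ultra a R hR1 hR2 hR3
  have hc : ∀ w, ∃ c : List Λ → J, InjOn c {h | R h w} := by
    intro w
    obtain ⟨f, hf⟩ := Set.countable_iff_exists_injOn.1 (hR2 w).countable
    exact ⟨fun h => Infinite.natEmbedding J (f h), fun x hx y hy e =>
      hf hx hy ((Infinite.natEmbedding J).injective e)⟩
  choose c hc using hc
  classical
  obtain ⟨val, hval⟩ : ∃ val : List Λ → G, ∀ h w, val (h ++ [w]) = d w (c w h) + v w :=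
    ⟨fun z => if hz : z ≠ [] then d (z.getLast hz) (c (z.getLast hz) z.dropLast) + v (z.getLast hz)
      else 0, fun h w => by simp⟩
  let S : List (List Λ) → G := fun t => (t.map val).sum
  have hS : ∀ s t, S (s ++ t) = S s + S t := fun s t => by simp [S]
  have hS1 : ∀ s z, S (s ++ [z]) = S s + val z := fun s t => by simp [S]
  have hS0 : S [] = 0 := rfl
  let Step : G → List Λ → Prop := fun u z => ∃ h w, z = h ++ [w] ∧ R h w ∧ w ∈ A u
  have st1 : ∀ u z, Step u z → u + val z ≠ 0 := by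
    rintro u _ ⟨h, w, rfl, -, hw⟩
    rw [hval, ← add_assoc]
    exact hne u w _ hw
  have st2 : ∀ u z u' z', Step u z → Step u' z' → u + val z = u' + val z' → u = u' ∧ z = z' := by
    rintro u _ u' _ ⟨h, w, rfl, hr, hw⟩ ⟨h', w', rfl, hr', hw'⟩ e
    rw [hval, hval, ← add_assoc, ← add_assoc] at e
    obtain ⟨rfl, rfl, e2⟩ := huniq _ _ _ _ _ _ hw hw' e
    exact ⟨rfl, by rw [hc w hr hr' e2]⟩
  let Path : G → List (List Λ) → Prop := fun u t => ∀ s z r, t = s ++ z :: r → Step (u + S s) z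
  have pa0 : ∀ u, {t | Path u t} ∈ e := fun u =>
    mem_of_superset (e1 (fun s => A (u + S s)) fun s => hA _) fun t ht => ht.2
  have pa1 : ∀ u s t, Path u (s ++ t) → Path u s := fun u s t hp s' z r e =>
    hp s' z (r ++ t) (by rw [e]; simp)
  have key : ∀ u t s, Path u t → Path 0 s → u + S t = S s → ∃ s0, s = s0 ++ t ∧ S s0 = u := by
    intro u t
    induction t using List.reverseRecOn with
    | nil => exact fun s _ _ e => ⟨s, by simp, by rw [← e, hS0, add_zero]⟩
    | append_singleton t z ih =>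
      intro s ht hs e
      have h1 := ht t z [] rfl
      rw [hS1, ← add_assoc] at e
      rcases List.eq_nil_or_concat' s with rfl | ⟨s', z', rfl⟩
      · exact (st1 _ _ h1 e).elim
      · have h2 := hs s' z' [] rfl
        rw [zero_add] at h2
        rw [hS1] at e
        obtain ⟨e1, rfl⟩ := st2 _ _ _ _ h1 h2 e
        obtain ⟨s0, rfl, e2⟩ := ih s' (pa1 _ _ _ ht) (pa1 _ _ _ hs) e1
        exact ⟨s0, by simp, e2⟩
  have key2 : ∀ s s', Path 0 s → Path 0 s' → S s = S s' → s = s' := by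
    intro s s' h1 h2 e
    obtain ⟨r, e1, -⟩ := key 0 s s' h1 h2 (by rw [zero_add, e])
    obtain ⟨r', e2, -⟩ := key 0 s' s h2 h1 (by rw [zero_add, e])
    have l1 := congrArg List.length e1
    have l2 := congrArg List.length e2
    rw [List.length_append] at l1 l2
    have : r = [] := List.length_eq_zero_iff.1 (by omega)
    rw [e1, this, List.nil_append]
  refine ⟨e.map S, fun U hU => ?_, fun U hU => ?_⟩
  · rw [Ultrafilter.mem_map] at hU
    have h1 : ∃ s, {w | ∃ h, R h w ∧ S (s ++ [h ++ [w]]) ∈ U} ∈ a := by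
      by_contra hn
      push Not at hn
      have h2 := e1 (fun s => {w | ∃ h, R h w ∧ S (s ++ [h ++ [w]]) ∈ U}ᶜ)
        fun s => Ultrafilter.compl_mem_iff_notMem.2 (hn s)
      obtain ⟨t, ht, ht0, ht2⟩ := e.nonempty_of_mem (inter_mem hU h2)
      rcases List.eq_nil_or_concat' t with rfl | ⟨s, z, rfl⟩
      · exact ht0 rfl
      · obtain ⟨h, w, rfl, hr, hw⟩ := ht2 s z [] rfl
        exact hw ⟨h, hr, ht⟩
    obtain ⟨s, hs⟩ := h1
    obtain ⟨F, hF, hcov⟩ := hL _ hs
    refine ⟨image2 (fun f k => f - k - S s) F K,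
      mk_image2_le.trans_lt (mul_lt_of_lt hG.le hF hK), fun g => ?_⟩
    obtain ⟨f, hf, _, ⟨w, ⟨h, -, hw⟩, rfl⟩, rfl⟩ := hcov g
    refine ⟨_, ⟨f, hf, _, hdK w (c w h), rfl⟩, _, hw, ?_⟩
    rw [hS1, hval]
    change f + v w = f - d w (c w h) - S s + (S s + (d w (c w h) + v w))
    generalize S s = y
    abel
  · rw [Ultrafilter.mem_map] at hU
    obtain ⟨O, o1, o2, o3⟩ := e3 _ (inter_mem hU (pa0 0))
    have oP : ∀ s ∈ O, Path 0 s := by
      intro s hs
      rcases o2 hs with h | h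
      · exact h.2
      · rw [mem_singleton_iff.1 h]
        intro s z r e
        simp at e
    refine ⟨S '' O, ⟨[], o1, rfl⟩, ?_, fun u => ⟨?_, fun hu => ?_⟩⟩
    · rintro _ ⟨s, hs, rfl⟩
      rcases o2 hs with h | h
      · exact Or.inl h.1
      · rw [mem_singleton_iff.1 h]; exact Or.inr rfl
    · rintro ⟨s, hs, rfl⟩
      rw [Ultrafilter.mem_map]
      exact mem_of_superset ((o3 s).1 hs) fun t ht => ⟨s ++ t, ht, hS s t⟩
    · rw [Ultrafilter.mem_map]
      by_cases hex : ∃ s0, Path 0 s0 ∧ S s0 = u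
      · obtain ⟨s0, p0, rfl⟩ := hex
        have h0 : s0 ∉ O := fun h => hu ⟨s0, h, rfl⟩
        refine mem_of_superset (inter_mem ((o3 s0).2 h0) (pa0 (S s0))) ?_
        rintro t ⟨h1, h2⟩ ⟨s, hs, e⟩
        obtain ⟨s1, rfl, e2⟩ := key _ t s h2 (oP s hs) e.symm
        rw [key2 s1 s0 (pa1 _ _ _ (oP _ hs)) p0 e2] at hs
        exact h1 hs
      · refine mem_of_superset (pa0 u) ?_
        rintro t h2 ⟨s, hs, e⟩
        obtain ⟨s1, rfl, e2⟩ := key _ t s h2 (oP s hs) e.symm
        exact hex ⟨s1, pa1 _ _ _ (oP _ hs), e2⟩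

/-- The finest translation invariant topology in which `p` converges to zero. -/
@[reducible] def topOf (p : Ultrafilter G) : TopologicalSpace G where
  IsOpen U := ∀ u ∈ U, {g | u + g ∈ U} ∈ p
  isOpen_univ := fun _ _ => univ_mem
  isOpen_inter := fun _ _ h h' u hu => inter_mem (h u hu.1) (h' u hu.2)
  isOpen_sUnion := fun _ h u ⟨t, ht, hu⟩ =>
    mem_of_superset (h t ht u hu) fun _ hg => ⟨t, ht, hg⟩

end Pool.Agent.H925Z.MaxTop
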