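import Pool.Agent.H925Z.WD

/-!
The tree of types, and large monochromatic sets for regressive colourings.
-/

set_option autoImplicit false

universe u v

namespace Pool.Agent.H925Z

open Cardinal Set

variable {I : Type u} [LinearOrder I] [WellFoundedLT I] {μ : Cardinal.{u}}

open Classical in
/-- a point of a set, depending only on the set -/
noncomputable def pick {X : Type u} (A : Set X) : Option X :=
  if h : A.Nonempty then some h.some else none

theorem pick_spec {X : Type u} {A : Set X} (h : A.Nonempty) : ∃ y ∈ A, pick A = some y :=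
  ⟨h.some, h.some_mem, by simp [pick, h]⟩

/-- the types along the canonical sequence -/
noncomputable def tau {C : Type u} (c : (I → Bool) → (I → Bool) → C) :
    I → (I → Bool) → Bool × Option C :=
  (wellFounded_lt (α := I)).fix (C := fun _ => (I → Bool) → Bool × Option C)
    (fun α rec x => (x α,
      (pick {y | (∀ β (h : β < α), rec β h y = rec β h x) ∧ y α ≠ x α}).map (fun y => c y x)))

theorem tau_eq {C : Type u} (c : (I → Bool) → (I → Bool) → C) (α : I) (x : I → Bool) :
    tau c α x = (x α,
      (pick {y | (∀ β < α, tau c β y = tau c β x) ∧ y α ≠ x α}).map (fun y => c y x)) := by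
  unfold tau
  rw [WellFounded.fix_eq]

/-- the set of candidates at stage `α` -/
def cand {C : Type u} (c : (I → Bool) → (I → Bool) → C) (x : I → Bool) (α : I) : Set (I → Bool) :=
  {y | (∀ β < α, tau c β y = tau c β x) ∧ y α ≠ x α}

theorem tau_fst {C : Type u} (c : (I → Bool) → (I → Bool) → C) (α : I) (x : I → Bool) :
    (tau c α x).1 = x α := by rw [tau_eq]

theorem tau_snd {C : Type u} (c : (I → Bool) → (I → Bool) → C) (α : I) (x : I → Bool) :
    (tau c α x).2 = (pick (cand c x α)).map (fun y => c y x) := by rw [tau_eq]; rfl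

theorem cand_agree {C : Type u} {c : (I → Bool) → (I → Bool) → C} {x y : I → Bool} {α : I}
    (hy : y ∈ cand c x α) : ∀ β < α, y β = x β := by
  intro β hβ
  rw [← tau_fst c β y, hy.1 β hβ, tau_fst]

theorem cand_congr {C : Type u} {c : (I → Bool) → (I → Bool) → C} {x y : I → Bool} {α β : I}
    (hy : y ∈ cand c x α) (hβ : β < α) : cand c y β = cand c x β := by
  ext z
  simp only [cand, mem_ofPred_eq]
  rw [cand_agree hy β hβ]
  refine and_congr_left fun _ => ?_
  refine forall₂_congr fun γ hγ => ?_
  rw [hy.1 γ (hγ.trans hβ)]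

theorem end_hom {C : Type u} {c : (I → Bool) → (I → Bool) → C} {x y z : I → Bool} {α β : I}
    (hy : y ∈ cand c x α) (hβ : β < α) (hz : pick (cand c x β) = some z) : c z y = c z x := by
  have h := congrArg Prod.snd (hy.1 β hβ)
  rw [tau_snd, tau_snd, cand_congr hy hβ, hz] at h
  simpa using h

/-- Main theorem on a well-ordered type. -/
theorem Setting.mono (S : Setting I μ) {K : Type v} (val : I → K) (m : I)
    (c : (I → Bool) → (I → Bool) → K) (hsymm : ∀ x y, c x y = c y x)
    (hc : ∀ x y δ, m ≤ δ → (∀ i < δ, x i = y i) → x δ ≠ y δ → ∃ j < δ, c x y = val j) :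
    ∃ (Y : Set (I → Bool)) (k : K), (2 : Cardinal.{u}) ^ μ < 2 ^ #Y ∧
      ∀ x ∈ Y, ∀ y ∈ Y, x ≠ y → c x y = k := by
  classical
  by_contra hcon
  push Not at hcon
  let c' : (I → Bool) → (I → Bool) → Option I := fun x y =>
    if h : ∃ j, c x y = val j then some h.choose else none
  have hc'1 : ∀ x y j, c' x y = some j → c x y = val j := by
    intro x y j hj
    by_cases h : ∃ j, c x y = val j
    · simp only [c', dif_pos h, Option.some.injEq] at hj
      rw [← hj]; exact h.choose_spec
    · simp [c', dif_neg h] at hj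
  have hc'2 : ∀ x y x' y', c' x y = c' x' y' → (∃ j, c x' y' = val j) → c x y = c x' y' := by
    intro x y x' y' he h
    have e : c' x' y' = some h.choose := by simp only [c', dif_pos h]
    rw [hc'1 x' y' _ e, hc'1 x y _ (he.trans e)]
  -- the stages at which the colour `val j` is used are bounded
  have hbd : ∀ (x : I → Bool) (j : I), ∃ b, ∀ α, m ≤ α →
      (∃ y, pick (cand c' x α) = some y ∧ y ∈ cand c' x α ∧ c y x = val j) → α < b := by
    intro x j
    let J : Set I := {α | m ≤ α ∧
      ∃ y, pick (cand c' x α) = some y ∧ y ∈ cand c' x α ∧ c y x = val j}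
    have hy : ∀ α : J, ∃ y, pick (cand c' x α.1) = some y ∧ y ∈ cand c' x α.1 ∧ c y x = val j :=
      fun α => α.2.2
    choose f hf1 hf2 hf3 using hy
    have hlt : ∀ α β : J, β.1 < α.1 → f β ≠ f α ∧ c (f β) (f α) = val j := by
      intro α β hβ
      constructor
      · intro he
        apply (hf2 β).2
        rw [he]
        exact cand_agree (hf2 α) β.1 hβ
      · rw [← hf3 β]
        exact hc'2 _ _ _ _ (end_hom (hf2 α) hβ (hf1 β)) ⟨j, hf3 β⟩
    have hinj : Function.Injective f := by
      intro α β he
      rcases lt_trichotomy α.1 β.1 with h | h | h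
      · exact absurd he (hlt β α h).1
      · exact Subtype.ext h
      · exact absurd he.symm (hlt α β h).1
    have hsmall : (2 : Cardinal.{u}) ^ #J ≤ 2 ^ μ := by
      rw [← mk_range_eq f hinj]
      by_contra hbig
      obtain ⟨_, ⟨α, rfl⟩, _, ⟨β, rfl⟩, hne, hcol⟩ := hcon (range f) (val j) (not_le.1 hbig)
      apply hcol
      rcases lt_trichotomy α.1 β.1 with h | h | h
      · exact (hlt β α h).2
      · exact absurd (congrArg f (Subtype.ext h)) hne
      · rw [hsymm]; exact (hlt α β h).2
    obtain ⟨b, hb⟩ := S.bdd_set J hsmall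
    exact ⟨b, fun α h1 h2 => hb α ⟨h1, h2⟩⟩
  choose h hh using hbd
  refine S.wd (B := Bool × Option (Option I)) ?_ m (fun x i => tau c' i x) h ?_
  · have e : #(Bool × Option (Option I)) = 2 * (#I + 1 + 1) := by simp
    rw [e]
    refine mul_small S.hμ (two_small S.hμ) ?_
    have h1 : (1 : Cardinal.{u}) ≤ 2 ^ μ := one_le_two.trans (two_small S.hμ)
    exact add_le_of_le (inf_pow S.hμ) (add_le_of_le (inf_pow S.hμ) S.card_le h1) h1
  · intro x y δ hm hcl hT
    by_contra hne
    have hnon : (cand c' x δ).Nonempty := ⟨y, fun β hβ => (hT β hβ).symm, fun e => hne e.symm⟩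
    obtain ⟨z, hz, hpz⟩ := pick_spec hnon
    obtain ⟨j, hj, hcj⟩ := hc z x δ hm (cand_agree hz) hz.2
    exact absurd (hh x j δ hm ⟨z, hpz, hz, hcj⟩) (not_lt.2 (hcl j hj).le)

end Pool.Agent.H925Z
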