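import Mathlib

/-!
A form of the Devlin-Shelah weak diamond argument on a well-ordered type.
-/

set_option autoImplicit false

universe u

namespace Pool.Agent.H925Z

open Cardinal Set

theorem pow_small {μ a b : Cardinal.{u}} (hμ : ℵ₀ ≤ μ) (ha : (2 : Cardinal.{u}) ^ a ≤ 2 ^ μ) (hb : b ≤ 2 ^ μ) :
    b ^ a ≤ 2 ^ μ := by
  calc b ^ a ≤ (2 ^ μ) ^ a := power_le_power_right hb
    _ = (2 ^ a) ^ μ := by rw [← power_mul, ← power_mul, mul_comm]
    _ ≤ (2 ^ μ) ^ μ := power_le_power_right ha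
    _ = 2 ^ μ := by rw [← power_mul, mul_eq_self hμ]

theorem inf_pow {μ : Cardinal.{u}} (hμ : ℵ₀ ≤ μ) : ℵ₀ ≤ (2 : Cardinal.{u}) ^ μ :=
  hμ.trans (cantor μ).le

theorem mul_small {μ a b : Cardinal.{u}} (hμ : ℵ₀ ≤ μ) (ha : a ≤ 2 ^ μ) (hb : b ≤ 2 ^ μ) :
    a * b ≤ 2 ^ μ := by
  calc a * b ≤ 2 ^ μ * 2 ^ μ := mul_le_mul' ha hb
    _ = 2 ^ μ := mul_eq_self (inf_pow hμ)

theorem two_small {μ : Cardinal.{u}} (hμ : ℵ₀ ≤ μ) : (2 : Cardinal.{u}) ≤ 2 ^ μ :=
  ((natCast_lt_aleph0 (n := 2)).le.trans (inf_pow hμ))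

/-- The setting: a well-order whose proper initial segments are small and which is not small. -/
structure Setting (I : Type u) [LinearOrder I] (μ : Cardinal.{u}) : Prop where
  hμ : ℵ₀ ≤ μ
  small : ∀ i : I, (2 : Cardinal.{u}) ^ #(Iio i) ≤ 2 ^ μ
  big : (2 : Cardinal.{u}) ^ μ < 2 ^ #I

variable {I : Type u} [LinearOrder I] [WellFoundedLT I] {μ : Cardinal.{u}}

omit [WellFoundedLT I] in
theorem Setting.bdd_set (S : Setting I μ) (J : Set I) (hJ : (2 : Cardinal.{u}) ^ #J ≤ 2 ^ μ) :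
    ∃ b, ∀ j ∈ J, j < b := by
  by_contra hcon
  push Not at hcon
  have hinj : Function.Injective
      (fun (x : I → Bool) (j : J) => ((x j.1, fun i : Iio j.1 => x i.1) : Bool × (Iio j.1 → Bool))) := by
    intro x y hxy
    funext i
    obtain ⟨j, hj, hij⟩ := hcon i
    have h := congrFun hxy ⟨j, hj⟩
    simp only [Prod.mk.injEq] at h
    rcases hij.lt_or_eq with hlt | heq
    · exact congrFun h.2 ⟨i, hlt⟩
    · rw [heq]; exact h.1
  have h1 := mk_le_of_injective hinj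
  have h2 : #(∀ j : J, Bool × (Iio j.1 → Bool)) ≤ 2 ^ μ := by
    rw [mk_pi]
    calc prod (fun j : J => #(Bool × (Iio j.1 → Bool))) ≤ prod (fun _ : J => (2 : Cardinal.{u}) ^ μ) := by
          apply prod_le_prod
          intro j
          have : #(Bool × (Iio j.1 → Bool)) = 2 * 2 ^ #(Iio j.1) := by simp
          rw [this]
          exact mul_small S.hμ (two_small S.hμ) (S.small _)
      _ = (2 ^ μ) ^ #J := prod_const' _ _
      _ ≤ 2 ^ μ := pow_small S.hμ hJ le_rfl
  have h3 : #(I → Bool) = 2 ^ #I := by simp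
  exact absurd (h3 ▸ h1.trans h2) (not_le.2 S.big)

omit [WellFoundedLT I] in
theorem Setting.bdd (S : Setting I μ) {ι : Type u} (f : ι → I) (hι : (2 : Cardinal.{u}) ^ #ι ≤ 2 ^ μ) :
    ∃ b, ∀ k, f k < b := by
  obtain ⟨b, hb⟩ := S.bdd_set (range f)
    ((power_le_power_left two_ne_zero mk_range_le).trans hι)
  exact ⟨b, fun k => hb _ ⟨k, rfl⟩⟩

omit [WellFoundedLT I] in
theorem Setting.bdd_nat (S : Setting I μ) (f : ℕ → I) : ∃ b, ∀ k, f k < b := by
  obtain ⟨b, hb⟩ := S.bdd (fun k : ULift.{u} ℕ => f k.down)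
    (power_le_power_left two_ne_zero (by simpa using S.hμ))
  exact ⟨b, fun k => hb ⟨k⟩⟩

omit [WellFoundedLT I] in
theorem Setting.exists_gt (S : Setting I μ) (a : I) : ∃ b, a < b := by
  obtain ⟨b, hb⟩ := S.bdd_nat (fun _ => a)
  exact ⟨b, hb 0⟩

theorem Setting.card_le (S : Setting I μ) : #I ≤ 2 ^ μ := by
  have h : Ordinal.type (α := I) (· < ·) ≤ ((2 : Cardinal.{u}) ^ μ).ord := by
    apply le_of_forall_lt
    intro o ho
    obtain ⟨i, rfl⟩ := Ordinal.typein_surj _ ho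
    rw [lt_ord, Ordinal.card_typein]
    exact (cantor _).trans_le (S.small i)
  have h2 := Ordinal.card_le_card h
  simpa using h2

/-- a least upper bound of the closure type -/
theorem exists_lub (A : Set I) (b : I) (hb : ∀ a ∈ A, a ≤ b) :
    ∃ d, d ≤ b ∧ (∀ a ∈ A, a ≤ d) ∧ ∀ i < d, ∃ a ∈ A, i < a := by
  let U : Set I := {d | ∀ a ∈ A, a ≤ d}
  have hU : U.Nonempty := ⟨b, hb⟩
  refine ⟨wellFounded_lt.min U hU, not_lt.1 (wellFounded_lt.not_lt_min U hb),
    wellFounded_lt.min_mem U hU, fun i hi => ?_⟩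
  by_contra hcon
  push Not at hcon
  exact wellFounded_lt.not_lt_min U (show i ∈ U from hcon) hi

/-- The coding step: prediction of values in a type of size `2 ^ μ` is impossible. -/
theorem Setting.wd_big (S : Setting I μ) {D B : Type u} (hD : 2 ^ μ ≤ #D) (hB : #B ≤ 2 ^ μ)
    (m : I) (T : (I → D) → I → B) (h : (I → D) → I → I)
    (P : ∀ g g' δ, m ≤ δ → (∀ i < δ, h g i < δ) → (∀ i < δ, T g i = T g' i) → g δ = g' δ) :
    False := by
  classical
  let L : Type u := ULift.{u} Bool × List B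
  have hL : #L ≤ 2 ^ μ := by
    have : #L = 2 * #(List B) := by simp [L]
    rw [this]
    exact mul_small S.hμ (two_small S.hμ) ((mk_list_le_max B).trans (max_le (inf_pow S.hμ) hB))
  have node_small : ∀ (L' : Type u), #L' ≤ 2 ^ μ → #(Σ β : I, (Iio β → L')) ≤ 2 ^ μ := by
    intro L' hL'
    rw [mk_sigma]
    calc sum (fun β : I => #(Iio β → L')) ≤ sum (fun _ : I => (2 : Cardinal.{u}) ^ μ) := by
          apply sum_le_sum
          intro β
          have : #(Iio β → L') = #L' ^ #(Iio β) := by simp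
          rw [this]
          exact pow_small S.hμ (S.small β) hL'
      _ = #I * 2 ^ μ := sum_const' _ _
      _ ≤ 2 ^ μ := mul_small S.hμ S.card_le le_rfl
  obtain ⟨enc⟩ : Nonempty ((Σ β : I, (Iio β → L)) ↪ D) :=
    (le_def _ _).1 ((node_small L hL).trans hD)
  have hnext : ∀ (b : I) (H : I → I), ∃ b', b ≤ b' ∧ ∀ i < b, H i < b' := by
    intro b H
    obtain ⟨b', hb'⟩ := S.bdd (fun i : Iio b => H i.1) (S.small b)
    exact ⟨max b b', le_max_left _ _, fun i hi => (hb' ⟨i, hi⟩).trans_le (le_max_right _ _)⟩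
  choose nx hnx1 hnx2 using hnext
  choose sc hsc using S.exists_gt
  let St : Type u := (I → L) × (I → I) × (I → I)
  let gg : St → I → D := fun s α => enc ⟨s.2.1 α, fun i => s.1 i.1⟩
  let step : St → St := fun s =>
    (fun i => ((s.1 i).1, T (gg s) i :: (s.1 i).2),
      fun α => nx (s.2.1 α) (fun i => max (s.2.2 i) (h (gg s) i)),
      fun i => max (s.2.2 i) (h (gg s) i))
  let sq : (I → Bool) → ℕ → St := fun x n =>
    Nat.rec ((fun i => (⟨x i⟩, []), sc, fun i => i) : St) (fun _ s => step s) n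
  have sq0 : ∀ x, sq x 0 = (fun i => (⟨x i⟩, []), sc, fun i => i) := fun x => rfl
  have sqS : ∀ x n, sq x (n + 1) = step (sq x n) := fun x n => rfl
  have βmono : ∀ x α, Monotone (fun n => (sq x n).2.1 α) := by
    intro x α
    apply monotone_nat_of_le_succ
    intro n
    rw [sqS]
    exact hnx1 _ _
  have Hmono : ∀ x i, Monotone (fun n => (sq x n).2.2 i) := by
    intro x i
    apply monotone_nat_of_le_succ
    intro n
    rw [sqS]
    exact le_max_left _ _
  have Hh : ∀ x n i, h (gg (sq x n)) i ≤ (sq x (n + 1)).2.2 i := by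
    intro x n i
    rw [sqS]
    exact le_max_right _ _
  have Hβ : ∀ x n α i, i < (sq x n).2.1 α → (sq x (n + 1)).2.2 i < (sq x (n + 1)).2.1 α := by
    intro x n α i hi
    rw [sqS]
    exact hnx2 _ _ i hi
  have Edown : ∀ x y i n N, n ≤ N → (sq x N).1 i = (sq y N).1 i → (sq x n).1 i = (sq y n).1 i := by
    intro x y i n N hnN
    induction hnN with
    | refl => exact id
    | step _ ih =>
      intro hE
      apply ih
      rw [sqS, sqS] at hE
      have h1 := congrArg Prod.fst hE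
      have h2 := congrArg (fun p : L => p.2.tail) hE
      exact Prod.ext h1 h2
  have ET : ∀ x y i n, (sq x (n + 1)).1 i = (sq y (n + 1)).1 i →
      T (gg (sq x n)) i = T (gg (sq y n)) i := by
    intro x y i n hE
    rw [sqS, sqS] at hE
    have h2 := congrArg (fun p : L => p.2.head?) hE
    exact Option.some.inj h2
  let Cl : (I → Bool) → I → Prop := fun x δ => ∀ n, ∀ i < δ, h (gg (sq x n)) i < δ
  have jump : ∀ x α b, (∀ n, (sq x n).2.1 α ≤ b) → ∃ d, d ≤ b ∧ α < d ∧ Cl x d := by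
    intro x α b hb
    obtain ⟨d, hdb, hd1, hd2⟩ := exists_lub (range fun n => (sq x n).2.1 α) b (by
      rintro _ ⟨n, rfl⟩; exact hb n)
    refine ⟨d, hdb, (hsc α).trans_le (hd1 _ ⟨0, rfl⟩), fun k i hi => ?_⟩
    obtain ⟨_, ⟨n, rfl⟩, hn⟩ := hd2 i hi
    calc h (gg (sq x k)) i ≤ (sq x (k + 1)).2.2 i := Hh x k i
      _ ≤ (sq x (max n k + 1)).2.2 i := Hmono x i (Nat.succ_le_succ (le_max_right n k))
      _ < (sq x (max n k + 1)).2.1 α := Hβ x _ α i (hn.trans_le (βmono x α (le_max_left _ _)))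
      _ ≤ d := hd1 _ ⟨max n k + 1, rfl⟩
  have start : ∀ x, ∃ d, m ≤ d ∧ Cl x d := by
    intro x
    obtain ⟨b, hb⟩ := S.bdd_nat (fun n => (sq x n).2.1 m)
    obtain ⟨d, -, h1, h2⟩ := jump x m b (fun n => (hb n).le)
    exact ⟨d, h1.le, h2⟩
  choose d0 hd0m hd0c using start
  let data : (I → Bool) → (Σ β : I, (Iio β → (ULift.{u} ℕ → L))) := fun x =>
    ⟨d0 x, fun i n => (sq x n.down).1 i.1⟩
  have hnotinj : ¬ Function.Injective data := by
    intro hinj
    have h1 := mk_le_of_injective hinj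
    have h2 := node_small (ULift.{u} ℕ → L) (by
      have : #(ULift.{u} ℕ → L) = #L ^ ℵ₀ := by simp
      rw [this]
      exact pow_small S.hμ (power_le_power_left two_ne_zero S.hμ) hL)
    have h3 : #(I → Bool) = 2 ^ #I := by simp
    exact absurd (h3 ▸ h1.trans h2) (not_le.2 S.big)
  obtain ⟨x, y, hxy, hne⟩ := Function.not_injective_iff.1 hnotinj
  have hinit : ∀ i < d0 x, ∀ n, (sq x n).1 i = (sq y n).1 i := by
    intro i hi n
    have e1 : d0 x = d0 y := congrArg Sigma.fst hxy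
    have key : ∀ (a b : I) (f g : I → ULift.{u} ℕ → L),
        (⟨a, fun i => f i.1⟩ : Σ β : I, (Iio β → (ULift.{u} ℕ → L))) = ⟨b, fun i => g i.1⟩ →
        ∀ i < a, f i = g i := by
      intro a b f g hab i hi
      have e : a = b := congrArg Sigma.fst hab
      subst e
      have := eq_of_heq (Sigma.mk.inj hab).2
      exact congrFun this ⟨i, hi⟩
    have := key (d0 x) (d0 y) (fun i n => (sq x n.down).1 i) (fun i n => (sq y n.down).1 i) hxy i hi
    exact congrFun this ⟨n⟩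
  let Bad : Set I := {i | ∃ n, (sq x n).1 i ≠ (sq y n).1 i}
  have hBad : Bad.Nonempty := by
    obtain ⟨i, hi⟩ := Function.ne_iff.1 hne
    refine ⟨i, 0, ?_⟩
    rw [sq0, sq0]
    intro hE
    exact hi (congrArg (fun p : L => p.1.down) hE)
  set γ := wellFounded_lt.min Bad hBad with hγ
  have hγ1 : γ ∈ Bad := wellFounded_lt.min_mem Bad hBad
  have hγ2 : ∀ i < γ, ∀ n, (sq x n).1 i = (sq y n).1 i := by
    intro i hi n
    by_contra hcon
    exact wellFounded_lt.not_lt_min Bad (show i ∈ Bad from ⟨n, hcon⟩) hi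
  have hd0γ : d0 x ≤ γ := by
    by_contra hcon
    obtain ⟨n, hn⟩ := hγ1
    exact hn (hinit γ (not_le.1 hcon) n)
  obtain ⟨δ, hδγ, hδ1, hδ2⟩ := exists_lub {ζ | ζ ≤ γ ∧ Cl x ζ} γ (fun a ha => ha.1)
  have hδc : Cl x δ := by
    intro n i hi
    obtain ⟨ζ, hζ, hiζ⟩ := hδ2 i hi
    exact (hζ.2 n i hiζ).trans_le (hδ1 ζ hζ)
  have hmδ : m ≤ δ := (hd0m x).trans (hδ1 _ ⟨hd0γ, hd0c x⟩)
  have hg : ∀ n, ∀ i < (sq x n).2.1 δ, (sq x n).1 i = (sq y n).1 i := by
    intro n i hi
    have e := P (gg (sq x n)) (gg (sq y n)) δ hmδ (hδc n)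
      (fun j hj => ET x y j n (hγ2 j (hj.trans_le hδγ) (n + 1)))
    have e2 := enc.injective e
    have key : ∀ (a b : I) (f g : I → L),
        (⟨a, fun i => f i.1⟩ : Σ β : I, (Iio β → L)) = ⟨b, fun i => g i.1⟩ →
        ∀ i < a, f i = g i := by
      intro a b f g hab i hi
      have e : a = b := congrArg Sigma.fst hab
      subst e
      have := eq_of_heq (Sigma.mk.inj hab).2
      exact congrFun this ⟨i, hi⟩
    exact key _ _ _ _ e2 i hi
  by_cases hcase : ∀ n, (sq x n).2.1 δ ≤ γ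
  · obtain ⟨d, h1, h2, h3⟩ := jump x δ γ hcase
    exact absurd (hδ1 d ⟨h1, h3⟩) (not_le.2 h2)
  · push Not at hcase
    obtain ⟨n, hn⟩ := hcase
    obtain ⟨n0, hn0⟩ := hγ1
    apply hn0
    apply Edown x y γ n0 (max n n0) (le_max_right _ _)
    exact hg _ γ (hn.trans_le (βmono x δ (le_max_left _ _)))

/-- The weak diamond. -/
theorem Setting.wd (S : Setting I μ) {B : Type u} (hB : #B ≤ 2 ^ μ)
    (m : I) (T : (I → Bool) → I → B) (h : (I → Bool) → I → I)
    (P : ∀ x y δ, m ≤ δ → (∀ i < δ, h x i < δ) → (∀ i < δ, T x i = T y i) → x δ = y δ) :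
    False := by
  classical
  have hM : #μ.out = μ := mk_out μ
  have hb : ∀ (g : I → (μ.out → Bool)) (i : I), ∃ b, ∀ k, h (fun j => g j k) i < b := by
    intro g i
    exact S.bdd (fun k => h (fun j => g j k) i) (by rw [hM])
  choose h2 hh2 using hb
  refine S.wd_big (D := μ.out → Bool) (B := μ.out → B) (by simp) ?_ m
    (fun g i k => T (fun j => g j k) i) h2 ?_
  · have : #(μ.out → B) = #B ^ μ := by simp
    rw [this]
    exact pow_small S.hμ le_rfl hB
  · intro g g' δ hm hc hT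
    funext k
    exact P (fun j => g j k) (fun j => g' j k) δ hm
      (fun i hi => (hh2 g i k).trans (hc i hi)) (fun i hi => congrFun (hT i hi) k)

end Pool.Agent.H925Z
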